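import Pool.Agent.Lib.MP_a54f13_nt.Ef.SpecS

/-!
# MP_a54f13_nt, Ef/Big: a prime with a large value
-/

set_option autoImplicit false

namespace Pool.Agent.A54.Ef

noncomputable section

theorem BigM.step (f : ℕ → ℝ) (hf : HMul f) (p : ℕ) (hp : p.Prime) (h3 : 3 ≤ |f p|) (n : ℕ)
    (hn : 1 ≤ n) : (|f p| - 1) * |f n| ≤ |f (p * n)| := by
  induction n using Nat.strong_induction_on with
  | _ n ih =>
    have h0 := hf.rel p n hp hn
    by_cases hd : p ∣ n
    · obtain ⟨m, rfl⟩ := hd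
      have hm : 1 ≤ m := by
        rcases Nat.eq_zero_or_pos m with h | h
        · subst h
          simp at hn
        · exact h
      have hlt : m < p * m := by
        have := hp.two_le
        nlinarith
      have h1 := ih m hlt hm
      rw [if_pos (Dvd.intro m rfl), Nat.mul_div_cancel_left m hp.pos] at h0
      have h2 : |f m| ≤ |f (p * m)| := by
        have := abs_nonneg (f m)
        nlinarith
      have h4 : |f p| * |f (p * m)| ≤ |f (p * (p * m))| + |f m| := by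
        rw [← abs_mul, h0]
        exact abs_add_le _ _
      linarith
    · rw [if_neg hd, add_zero] at h0
      rw [← h0, abs_mul]
      have := abs_nonneg (f n)
      nlinarith

theorem stmtBig : StmtBig := by
  intro f hf p z hp h3
  unfold SF
  rw [Finset.mul_sum]
  have h1 : ∀ n ∈ Finset.Icc 1 ⌊z / p⌋₊, (|f p| - 1) ^ 2 * f n ^ 2 ≤ f (p * n) ^ 2 := by
    intro n hn
    have h2 := BigM.step f hf p hp h3 n (Finset.mem_Icc.1 hn).1
    have h4 : 0 ≤ (|f p| - 1) * |f n| := mul_nonneg (by linarith) (abs_nonneg _)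
    have h5 : ((|f p| - 1) * |f n|) ^ 2 ≤ |f (p * n)| ^ 2 := by
      exact pow_le_pow_left₀ h4 h2 2
    rwa [mul_pow, sq_abs, sq_abs] at h5
  refine (Finset.sum_le_sum h1).trans ?_
  have hinj : Set.InjOn (fun n : ℕ => p * n) (Finset.Icc 1 ⌊z / p⌋₊ : Finset ℕ) := by
    intro a _ b _ hab
    exact Nat.eq_of_mul_eq_mul_left hp.pos hab
  have h6 : ∑ n ∈ Finset.Icc 1 ⌊z / p⌋₊, f (p * n) ^ 2 =
      ∑ m ∈ (Finset.Icc 1 ⌊z / p⌋₊).image (fun n => p * n), f m ^ 2 :=
    (Finset.sum_image (f := fun m => f m ^ 2) hinj).symm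
  rw [h6]
  refine Finset.sum_le_sum_of_subset_of_nonneg ?_ fun i _ _ => sq_nonneg _
  intro m hm
  obtain ⟨n, hn, rfl⟩ := Finset.mem_image.1 hm
  obtain ⟨h7, h8⟩ := Finset.mem_Icc.1 hn
  have hz : 0 ≤ z / p := by
    by_contra hneg
    have : ⌊z / (p : ℝ)⌋₊ = 0 := Nat.floor_of_nonpos (by linarith)
    omega
  have hppos : (0 : ℝ) < p := by exact_mod_cast hp.pos
  have h9 : (n : ℝ) ≤ z / p := (Nat.le_floor_iff hz).1 h8
  refine Finset.mem_Icc.2 ⟨?_, ?_⟩
  · show 1 ≤ p * n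
    have := hp.pos
    nlinarith
  · refine Nat.le_floor ?_
    show ((p * n : ℕ) : ℝ) ≤ z
    rw [Nat.cast_mul]
    rw [le_div_iff₀ hppos] at h9
    linarith

end

end Pool.Agent.A54.Ef
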