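import Pool.Agent.Lib.MP_a54f13_nt.Ef.SpecS

/-!
# `Ef`: case A
-/

set_option autoImplicit false

namespace Pool.Agent.A54.Ef.CaAM

open Pool.Agent.A54.Ef

theorem SF_mono (f : ℕ → ℝ) {a b : ℝ} (h : a ≤ b) : SF f a ≤ SF f b := by
  unfold SF
  apply Finset.sum_le_sum_of_subset_of_nonneg
  · exact Finset.Icc_subset_Icc_right (Nat.floor_mono h)
  · intro i _ _
    positivity

theorem SF_nonneg (f : ℕ → ℝ) (a : ℝ) : 0 ≤ SF f a := by
  unfold SF
  exact Finset.sum_nonneg fun i _ => sq_nonneg _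

theorem SF_zero (f : ℕ → ℝ) {a : ℝ} (h : a < 1) : SF f a = 0 := by
  unfold SF
  have : ⌊a⌋₊ = 0 := Nat.floor_eq_zero.mpr h
  rw [this]
  simp

end Pool.Agent.A54.Ef.CaAM

namespace Pool.Agent.A54.Ef

open Pool.Agent.A54.Ef.CaAM

theorem stmtCaA (hBig : StmtBig) : StmtCaA := by
  refine ⟨12 * 288 ^ 2, (2592 : ℝ) ^ 4, by norm_num, by norm_num, ?_⟩
  intro f q x hf hq hca
  obtain ⟨p, hp, hqp, hp4, hfp⟩ := hca
  have hq1 : (1 : ℝ) ≤ q := le_trans (by norm_num) hq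
  have hq0 : (0 : ℝ) < q := by linarith
  have hp0 : (0 : ℝ) < p := by linarith
  rcases lt_or_ge x 0 with hx | hx
  · have h1 : SF f (x / (16 * q ^ 2)) = 0 := by
      apply SF_zero
      have : x / (16 * q ^ 2) < 0 := div_neg_of_neg_of_pos hx (by positivity)
      linarith
    rw [h1]
    have := SF_nonneg f x
    positivity
  -- the size of `f p`
  have hq4 : (2592 : ℝ) ≤ q ^ (1 / 4 : ℝ) := by
    have h1 : ((2592 : ℝ) ^ 4) ^ (1 / 4 : ℝ) ≤ q ^ (1 / 4 : ℝ) :=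
      Real.rpow_le_rpow (by norm_num) hq (by norm_num)
    have h2 : ((2592 : ℝ) ^ 4) ^ (1 / 4 : ℝ) = 2592 := by
      rw [← Real.rpow_natCast, ← Real.rpow_mul (by norm_num)]
      norm_num
    linarith
  have hf9 : 9 ≤ f p ^ 2 := by
    have : (9 : ℝ) ≤ q ^ (1 / 4 : ℝ) / 288 := by
      rw [le_div_iff₀ (by norm_num)]
      linarith
    linarith
  have hf3 : 3 ≤ |f p| := by
    have h1 : (3 : ℝ) ^ 2 ≤ |f p| ^ 2 := by rw [sq_abs]; linarith
    exact (sq_le_sq₀ (by norm_num) (abs_nonneg _)).mp h1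
  have hB1 := hBig f hf p x hp hf3
  have hB2 := hBig f hf p (x / p) hp hf3
  have hmono : SF f (x / (16 * q ^ 2)) ≤ SF f (x / p / p) := by
    apply SF_mono
    rw [div_div]
    apply div_le_div_of_nonneg_left hx (by positivity)
    nlinarith
  set u : ℝ := (|f p| - 1) ^ 2 with hu
  have hu0 : 0 < u := by
    rw [hu]
    apply pow_pos
    linarith
  have hulow : (4 / 9) * f p ^ 2 ≤ u := by
    have h1 : (2 / 3) * |f p| ≤ |f p| - 1 := by linarith
    have h2 : ((2 / 3) * |f p|) ^ 2 ≤ (|f p| - 1) ^ 2 := by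
      apply pow_le_pow_left₀ (by positivity) h1
    rw [mul_pow, sq_abs] at h2
    rw [hu]
    linarith
  have hu2 : (4 / 9) * (q ^ (1 / 4 : ℝ) / 288) ≤ u := le_trans (by nlinarith) hulow
  set a : ℝ := q ^ (1 / 4 : ℝ) with ha
  have ha0 : 0 < a := by rw [ha]; positivity
  have hS : u * u * SF f (x / p / p) ≤ SF f x := by
    calc u * u * SF f (x / p / p) = u * (u * SF f (x / p / p)) := by ring
      _ ≤ u * SF f (x / p) := by
        apply mul_le_mul_of_nonneg_left hB2 hu0.le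
      _ ≤ SF f x := hB1
  have hexp : (16 * q ^ 2) ^ (-(1 / 4 : ℝ)) = 1 / (2 * a ^ 2) := by
    rw [Real.rpow_neg (by positivity), Real.mul_rpow (by norm_num) (by positivity), ha]
    rw [show (16 : ℝ) ^ (1 / 4 : ℝ) = 2 by
      rw [show (16 : ℝ) = 2 ^ (4 : ℕ) by norm_num, ← Real.rpow_natCast, ← Real.rpow_mul (by norm_num)]
      norm_num]
    rw [← Real.rpow_natCast q 2, ← Real.rpow_natCast (q ^ (1 / 4 : ℝ)) 2, ← Real.rpow_mul hq0.le,
      ← Real.rpow_mul hq0.le]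
    rw [one_div]
    norm_num
  have hnn := SF_nonneg f (x / p / p)
  have hkey : SF f (x / p / p) ≤ 12 * 288 ^ 2 * (1 / (2 * a ^ 2)) * SF f x := by
    have h1 : (4 / 9 * (a / 288)) * (4 / 9 * (a / 288)) * SF f (x / p / p) ≤ SF f x := by
      refine le_trans ?_ hS
      apply mul_le_mul_of_nonneg_right _ hnn
      exact mul_le_mul hu2 hu2 (by positivity) hu0.le
    have h2 : SF f (x / p / p) =
        (81 * 288 ^ 2 / (16 * a ^ 2)) * ((4 / 9 * (a / 288)) * (4 / 9 * (a / 288)) * SF f (x / p / p)) := by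
      field_simp
      ring
    rw [h2]
    have h3 : (81 * 288 ^ 2 / (16 * a ^ 2)) ≤ 12 * 288 ^ 2 * (1 / (2 * a ^ 2)) := by
      rw [show 12 * 288 ^ 2 * (1 / (2 * a ^ 2)) = 96 * 288 ^ 2 / (16 * a ^ 2) by field_simp; ring]
      apply div_le_div_of_nonneg_right _ (by positivity)
      norm_num
    calc (81 * 288 ^ 2 / (16 * a ^ 2)) *
          ((4 / 9 * (a / 288)) * (4 / 9 * (a / 288)) * SF f (x / p / p))
        ≤ (81 * 288 ^ 2 / (16 * a ^ 2)) * SF f x :=
          mul_le_mul_of_nonneg_left h1 (by positivity)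
      _ ≤ 12 * 288 ^ 2 * (1 / (2 * a ^ 2)) * SF f x :=
          mul_le_mul_of_nonneg_right h3 (SF_nonneg f x)
  rw [hexp]
  exact le_trans hmono hkey

end Pool.Agent.A54.Ef
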