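import Pool.Agent.Lib.MP_a54f13_nt.Ef.SpecS

/-! Case B: many primes with a small value. -/

set_option autoImplicit false

namespace Pool.Agent.A54.Ef

open MeasureTheory Filter Topology Set
open scoped ContDiff ComplexConjugate UpperHalfPlane MatrixGroups ENNReal

noncomputable section

namespace CaBM

lemma SF_nonneg (f : ℕ → ℝ) (z : ℝ) : 0 ≤ SF f z := Finset.sum_nonneg fun _ _ => sq_nonneg _

lemma sum_bad {T D : Finset ℕ} {j : ℕ} {g : ℕ → ℝ} (hg : ∀ n, 0 ≤ g n) (bad : ℕ → Prop)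
    [DecidablePred bad] (d : Finset ℕ → ℕ)
    (h : ∀ n ∈ T, bad n → ∃ D' ∈ D.powersetCard j, d D' ∣ n) :
    ∑ n ∈ T.filter bad, g n ≤
      ∑ D' ∈ D.powersetCard j, ∑ n ∈ T.filter (fun n => d D' ∣ n), g n := by
  calc ∑ n ∈ T.filter bad, g n ≤
        ∑ n ∈ T, ∑ D' ∈ D.powersetCard j, if d D' ∣ n then g n else 0 := by
        rw [Finset.sum_filter]
        refine Finset.sum_le_sum fun n hn => ?_
        have h0 : ∀ D' ∈ D.powersetCard j, 0 ≤ if d D' ∣ n then g n else 0 := by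
          intro D' _
          split_ifs
          · exact hg n
          · exact le_rfl
        split_ifs with hb
        · obtain ⟨D', hD', hd⟩ := h n hn hb
          refine le_trans ?_ (Finset.single_le_sum h0 hD')
          rw [if_pos hd]
        · exact Finset.sum_nonneg h0
    _ = _ := by
        rw [Finset.sum_comm]
        refine Finset.sum_congr rfl fun D' _ => ?_
        rw [Finset.sum_filter]

lemma choose_le (P j : ℕ) (hj : 1 ≤ j) : (P.choose j : ℝ) ≤ (3 * P / j) ^ j := by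
  have hj0 : (0 : ℝ) < j := by exact_mod_cast hj
  have h1 : (P.choose j : ℝ) ≤ (P : ℝ) ^ j / (j.factorial : ℝ) := Nat.choose_le_pow_div j P
  have h2 : (j : ℝ) ^ j / (j.factorial : ℝ) ≤ 3 ^ j := by
    refine (Real.pow_div_factorial_le_exp (j : ℝ) hj0.le j).trans ?_
    have h3 : Real.exp (j : ℝ) = Real.exp 1 ^ j := by
      rw [← Real.exp_nat_mul, mul_one]
    rw [h3]
    apply pow_le_pow_left₀ (Real.exp_pos 1).le
    have := Real.exp_one_lt_d9
    linarith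
  have hf : (0 : ℝ) < (j.factorial : ℝ) := by exact_mod_cast Nat.factorial_pos j
  refine h1.trans ?_
  rw [div_le_iff₀ hf] at h2
  rw [div_pow, mul_pow, div_le_div_iff₀ hf (by positivity)]
  calc (P : ℝ) ^ j * (j : ℝ) ^ j ≤ (P : ℝ) ^ j * (3 ^ j * (j.factorial : ℝ)) := by gcongr
    _ = _ := by ring

lemma rp {q y R : ℝ} {m : ℕ} (hq : 1 ≤ q) (hy : 0 < y) (hR : q ^ m ≤ R) :
    (y * R) ^ (-(1 / 4 : ℝ)) ≤ y ^ (-(1 / 4 : ℝ)) * (q ^ (-(1 / 4 : ℝ))) ^ m := by
  have hq0 : 0 < q := by linarith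
  have hqm : 0 < q ^ m := by positivity
  rw [Real.mul_rpow hy.le (hqm.le.trans hR)]
  apply mul_le_mul_of_nonneg_left _ (by positivity)
  calc R ^ (-(1 / 4 : ℝ)) ≤ (q ^ m) ^ (-(1 / 4 : ℝ)) :=
        Real.rpow_le_rpow_of_nonpos hqm hR (by norm_num)
    _ = (q ^ (-(1 / 4 : ℝ))) ^ m := by
        rw [← Real.rpow_natCast, ← Real.rpow_natCast, ← Real.rpow_mul hq0.le,
          ← Real.rpow_mul hq0.le]
        congr 1
        ring

lemma prod_ge {q : ℝ} {D' : Finset ℕ} (hq : 0 ≤ q) (h : ∀ p ∈ D', q < (p : ℝ)) :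
    q ^ D'.card ≤ ((∏ p ∈ D', p : ℕ) : ℝ) := by
  rw [Nat.cast_prod, ← Finset.prod_const]
  exact Finset.prod_le_prod (fun _ _ => hq) fun p hp => (h p hp).le

/-- many prime divisors -/
lemma part1 (hDvd : StmtDvd) {f : ℕ → ℝ} (hf : HMul f) {D : Finset ℕ} {q x y M : ℝ}
    (hq : 1 ≤ q) (hy : 1 ≤ y) (hM : 1 ≤ M)
    (hw : q ^ (-(1 / 4 : ℝ)) ≤ 1 / 80) (hInd : Ind f x M)
    (hD : ∀ p ∈ D, p.Prime ∧ q < (p : ℝ) ∧ (p : ℝ) ≤ 4 * q ∧ |f p| < 1 / 2) (h : ℕ)
    (hh : 1 ≤ h) (hPh : D.card ≤ 2 * h) :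
    ∑ n ∈ (Finset.Icc 1 ⌊x / y⌋₊).filter (fun n => h ≤ (D.filter (fun p => p ∣ n)).card), f n ^ 2 ≤
      1 / 8 * M * y ^ (-(1 / 4 : ℝ)) * SF f x := by
  classical
  have hS := SF_nonneg f x
  set w := q ^ (-(1 / 4 : ℝ)) with hwdef
  have hw0 : 0 < w := by positivity
  have hy0 : 0 < y := by linarith
  have h1 := sum_bad (T := Finset.Icc 1 ⌊x / y⌋₊) (D := D) (j := h) (g := fun n => f n ^ 2)
    (fun n => sq_nonneg _) (fun n => h ≤ (D.filter (fun p => p ∣ n)).card)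
    (fun D' => ∏ p ∈ D', p) (by
      intro n _ hb
      obtain ⟨D', hD', hc⟩ := Finset.exists_subset_card_eq hb
      refine ⟨D', ?_, ?_⟩
      · rw [Finset.mem_powersetCard]
        exact ⟨hD'.trans (Finset.filter_subset _ _), hc⟩
      · apply Finset.prod_primes_dvd
        · intro p hp
          exact (hD p (Finset.mem_filter.mp (hD' hp)).1).1.prime
        · intro p hp
          exact (Finset.mem_filter.mp (hD' hp)).2)
  refine h1.trans ?_
  have h2 : ∀ D' ∈ D.powersetCard h,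
      ∑ n ∈ (Finset.Icc 1 ⌊x / y⌋₊).filter (fun n => (∏ p ∈ D', p) ∣ n), f n ^ 2 ≤
        (5 / 2) ^ h * (M * (y ^ (-(1 / 4 : ℝ)) * w ^ h) * SF f x) := by
    intro D' hD'
    rw [Finset.mem_powersetCard] at hD'
    obtain ⟨hsub, hc⟩ := hD'
    refine (hDvd f hf D' (x / y) fun p hp => (hD p (hsub hp)).1).trans ?_
    have h3 : ∏ p ∈ D', (2 * f p ^ 2 + 2) ≤ (5 / 2) ^ h := by
      rw [← hc, ← Finset.prod_const]
      refine Finset.prod_le_prod (fun p _ => by positivity) fun p hp => ?_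
      have h4 := (hD p (hsub hp)).2.2.2
      have h5 : f p ^ 2 ≤ 1 / 4 := by
        rw [← sq_abs]
        have := abs_nonneg (f p)
        nlinarith
      linarith
    have hprod := prod_ge (q := q) (D' := D') (by linarith) fun p hp => (hD p (hsub hp)).2.1
    rw [hc] at hprod
    have hqh : 1 ≤ q ^ h := one_le_pow₀ hq
    have h4 : SF f (x / y / ((∏ p ∈ D', p : ℕ) : ℝ)) ≤ M * (y ^ (-(1 / 4 : ℝ)) * w ^ h) * SF f x := by
      rw [div_div]
      refine (hInd _ ?_).trans ?_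
      · nlinarith
      · apply mul_le_mul_of_nonneg_right _ hS
        exact mul_le_mul_of_nonneg_left (rp hq hy0 hprod) (by linarith)
    calc (∏ p ∈ D', (2 * f p ^ 2 + 2)) * SF f (x / y / ((∏ p ∈ D', p : ℕ) : ℝ)) ≤
          (5 / 2) ^ h * SF f (x / y / ((∏ p ∈ D', p : ℕ) : ℝ)) :=
          mul_le_mul_of_nonneg_right h3 (SF_nonneg _ _)
      _ ≤ _ := mul_le_mul_of_nonneg_left h4 (by positivity)
  refine (Finset.sum_le_sum h2).trans ?_
  rw [Finset.sum_const, Finset.card_powersetCard, nsmul_eq_mul]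
  have h5 : (D.card.choose h : ℝ) ≤ 4 ^ h := by
    have h6 : D.card.choose h ≤ 2 ^ D.card := Nat.choose_le_two_pow _ _
    have h7 : (2 : ℕ) ^ D.card ≤ 4 ^ h := by
      calc (2 : ℕ) ^ D.card ≤ 2 ^ (2 * h) := Nat.pow_le_pow_right (by norm_num) hPh
        _ = 4 ^ h := by rw [pow_mul]; norm_num
    exact_mod_cast h6.trans h7
  have h6 : (10 * w) ^ h ≤ 1 / 8 := by
    calc (10 * w) ^ h ≤ (10 * w) ^ 1 := pow_le_pow_of_le_one (by positivity) (by linarith) hh
      _ ≤ 1 / 8 := by linarith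
  calc (D.card.choose h : ℝ) * ((5 / 2) ^ h * (M * (y ^ (-(1 / 4 : ℝ)) * w ^ h) * SF f x)) ≤
        4 ^ h * ((5 / 2) ^ h * (M * (y ^ (-(1 / 4 : ℝ)) * w ^ h) * SF f x)) := by
        apply mul_le_mul_of_nonneg_right h5
        positivity
    _ = (10 * w) ^ h * (M * y ^ (-(1 / 4 : ℝ)) * SF f x) := by
        rw [show (10 : ℝ) * w = 4 * (5 / 2) * w by ring, mul_pow, mul_pow]
        ring
    _ ≤ 1 / 8 * (M * y ^ (-(1 / 4 : ℝ)) * SF f x) := by
        apply mul_le_mul_of_nonneg_right h6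
        positivity
    _ = _ := by ring

/-- many prime squares -/
lemma part2 (hDvq : StmtDvq) {f : ℕ → ℝ} (hf : HMul f) {D : Finset ℕ} {q x y M : ℝ}
    (hq : 1 ≤ q) (hy : 1 ≤ y) (hM : 1 ≤ M) (hInd : Ind f x M)
    (hD : ∀ p ∈ D, p.Prime ∧ q < (p : ℝ) ∧ (p : ℝ) ≤ 4 * q ∧ |f p| < 1 / 2) (j : ℕ)
    (hj : 1 ≤ j) (hPj : 24 * (D.card : ℝ) * (q ^ (-(1 / 4 : ℝ))) ^ 2 ≤ j) :
    ∑ n ∈ (Finset.Icc 1 ⌊x / y⌋₊).filter
      (fun n => j ≤ (D.filter (fun p => p ^ 2 ∣ n)).card), f n ^ 2 ≤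
      1 / 2 * M * y ^ (-(1 / 4 : ℝ)) * SF f x := by
  classical
  have hS := SF_nonneg f x
  set w := q ^ (-(1 / 4 : ℝ)) with hwdef
  have hw0 : 0 < w := by positivity
  have hy0 : 0 < y := by linarith
  have hj0 : (0 : ℝ) < j := by exact_mod_cast hj
  have h1 := sum_bad (T := Finset.Icc 1 ⌊x / y⌋₊) (D := D) (j := j) (g := fun n => f n ^ 2)
    (fun n => sq_nonneg _) (fun n => j ≤ (D.filter (fun p => p ^ 2 ∣ n)).card)
    (fun D' => (∏ p ∈ D', p) ^ 2) (by
      intro n _ hb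
      obtain ⟨D', hD', hc⟩ := Finset.exists_subset_card_eq hb
      refine ⟨D', ?_, ?_⟩
      · rw [Finset.mem_powersetCard]
        exact ⟨hD'.trans (Finset.filter_subset _ _), hc⟩
      · rw [← Finset.prod_pow]
        apply Finset.prod_dvd_of_isRelPrime
        · intro p hp p' hp' hne
          have h2 := (hD p (Finset.mem_filter.mp (hD' hp)).1).1
          have h3 := (hD p' (Finset.mem_filter.mp (hD' hp')).1).1
          exact Nat.coprime_iff_isRelPrime.mp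
            (Nat.Coprime.pow 2 2 ((Nat.coprime_primes h2 h3).mpr hne))
        · intro p hp
          exact (Finset.mem_filter.mp (hD' hp)).2)
  refine h1.trans ?_
  have h2 : ∀ D' ∈ D.powersetCard j,
      ∑ n ∈ (Finset.Icc 1 ⌊x / y⌋₊).filter (fun n => (∏ p ∈ D', p) ^ 2 ∣ n), f n ^ 2 ≤
        4 ^ j * (M * (y ^ (-(1 / 4 : ℝ)) * w ^ (2 * j)) * SF f x) := by
    intro D' hD'
    rw [Finset.mem_powersetCard] at hD'
    obtain ⟨hsub, hc⟩ := hD'
    refine (hDvq f hf D' (x / y) fun p hp =>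
      ⟨(hD p (hsub hp)).1, (hD p (hsub hp)).2.2.2⟩).trans ?_
    have hprod := prod_ge (q := q) (D' := D') (by linarith) fun p hp => (hD p (hsub hp)).2.1
    rw [hc] at hprod
    have hprod2 : q ^ (2 * j) ≤ ((∏ p ∈ D', p : ℕ) : ℝ) ^ 2 := by
      rw [mul_comm, pow_mul]
      exact pow_le_pow_left₀ (by positivity) hprod 2
    have hqh : 1 ≤ q ^ (2 * j) := one_le_pow₀ hq
    rw [hc]
    apply mul_le_mul_of_nonneg_left _ (by positivity)
    rw [div_div]
    refine (hInd _ ?_).trans ?_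
    · nlinarith
    · apply mul_le_mul_of_nonneg_right _ hS
      exact mul_le_mul_of_nonneg_left (rp hq hy0 hprod2) (by linarith)
  refine (Finset.sum_le_sum h2).trans ?_
  rw [Finset.sum_const, Finset.card_powersetCard, nsmul_eq_mul]
  have h5 := choose_le D.card j hj
  have h6 : (3 * (D.card : ℝ) / j * 4 * w ^ 2) ^ j ≤ 1 / 2 := by
    have h7 : 3 * (D.card : ℝ) / j * 4 * w ^ 2 ≤ 1 / 2 := by
      have h8 : 3 * (D.card : ℝ) / j * 4 * w ^ 2 = (24 * (D.card : ℝ) * w ^ 2) / j / 2 := by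
        field_simp
        ring
      rw [h8]
      have h9 : (24 * (D.card : ℝ) * w ^ 2) / j ≤ 1 := by
        rw [div_le_one hj0]
        exact hPj
      linarith
    calc (3 * (D.card : ℝ) / j * 4 * w ^ 2) ^ j ≤ (3 * (D.card : ℝ) / j * 4 * w ^ 2) ^ 1 :=
          pow_le_pow_of_le_one (by positivity) (by linarith) hj
      _ ≤ 1 / 2 := by linarith
  calc (D.card.choose j : ℝ) * (4 ^ j * (M * (y ^ (-(1 / 4 : ℝ)) * w ^ (2 * j)) * SF f x)) ≤
        (3 * D.card / j) ^ j * (4 ^ j * (M * (y ^ (-(1 / 4 : ℝ)) * w ^ (2 * j)) * SF f x)) := by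
        apply mul_le_mul_of_nonneg_right h5
        positivity
    _ = (3 * (D.card : ℝ) / j * 4 * w ^ 2) ^ j * (M * y ^ (-(1 / 4 : ℝ)) * SF f x) := by
        rw [mul_pow, mul_pow (3 * (D.card : ℝ) / j), pow_mul]
        ring
    _ ≤ 1 / 2 * (M * y ^ (-(1 / 4 : ℝ)) * SF f x) := by
        apply mul_le_mul_of_nonneg_right h6
        positivity
    _ = _ := by ring

lemma f_sq_mul {f : ℕ → ℝ} (hf : HMul f) {p n : ℕ} (hp : p.Prime) (hn : 1 ≤ n) (hpn : ¬ p ∣ n)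
    (hfp : |f p| < 1 / 2) : f n ^ 2 / 2 ≤ f (p ^ 2 * n) ^ 2 := by
  have h1 := hf.rel p n hp hn
  rw [if_neg hpn, add_zero] at h1
  have h2 := hf.rel p (p * n) hp (Nat.mul_pos hp.pos hn)
  rw [if_pos (Dvd.intro n rfl), Nat.mul_div_cancel_left _ hp.pos, ← h1] at h2
  have h3 : p * (p * n) = p ^ 2 * n := by ring
  rw [h3] at h2
  have h4 : f (p ^ 2 * n) = (f p ^ 2 - 1) * f n := by linarith
  have h5 : f p ^ 2 ≤ 1 / 4 := by
    rw [← sq_abs]
    have := abs_nonneg (f p)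
    nlinarith
  have h6 : 1 / 2 ≤ (f p ^ 2 - 1) ^ 2 := by nlinarith [sq_nonneg (f p)]
  rw [h4, mul_pow]
  nlinarith [sq_nonneg (f n)]

/-- the good integers -/
lemma part3 {f : ℕ → ℝ} (hf : HMul f) {D : Finset ℕ} {q x : ℝ} (hq : 1 ≤ q)
    (hD : ∀ p ∈ D, p.Prime ∧ q < (p : ℝ) ∧ (p : ℝ) ≤ 4 * q ∧ |f p| < 1 / 2) (j h : ℕ)
    (hh : 2 * (h - 1) ≤ D.card) (hh1 : 1 ≤ h) :
    (D.card : ℝ) / 4 * ∑ n ∈ (Finset.Icc 1 ⌊x / (16 * q ^ 2)⌋₊).filter
      (fun n => (D.filter (fun p => p ∣ n)).card < h ∧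
        (D.filter (fun p => p ^ 2 ∣ n)).card < j), f n ^ 2 ≤ j * SF f x := by
  classical
  set G := (Finset.Icc 1 ⌊x / (16 * q ^ 2)⌋₊).filter
      (fun n => (D.filter (fun p => p ∣ n)).card < h ∧
        (D.filter (fun p => p ^ 2 ∣ n)).card < j) with hG
  have hstep : ∀ n ∈ G, (D.card : ℝ) / 4 * f n ^ 2 ≤
      ∑ p ∈ D.filter (fun p => ¬ p ∣ n), f (p ^ 2 * n) ^ 2 := by
    intro n hn
    rw [hG, Finset.mem_filter, Finset.mem_Icc] at hn
    have h1 : ∀ p ∈ D.filter (fun p => ¬ p ∣ n), f n ^ 2 / 2 ≤ f (p ^ 2 * n) ^ 2 := by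
      intro p hp
      rw [Finset.mem_filter] at hp
      exact f_sq_mul hf (hD p hp.1).1 hn.1.1 hp.2 (hD p hp.1).2.2.2
    have h2 := Finset.card_nsmul_le_sum _ _ _ h1
    rw [nsmul_eq_mul] at h2
    have h3 := Finset.card_filter_add_card_filter_not (s := D) (fun p => p ∣ n)
    have h4 : (D.card : ℝ) / 2 ≤ ((D.filter (fun p => ¬ p ∣ n)).card : ℝ) := by
      have h5 : D.card ≤ 2 * (D.filter (fun p => ¬ p ∣ n)).card := by
        have := hn.2.1
        omega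
      have h6 : (D.card : ℝ) ≤ 2 * ((D.filter (fun p => ¬ p ∣ n)).card : ℝ) := by
        exact_mod_cast h5
      linarith
    refine le_trans ?_ h2
    have h5 : 0 ≤ f n ^ 2 := sq_nonneg _
    nlinarith
  rw [Finset.mul_sum]
  refine (Finset.sum_le_sum hstep).trans ?_
  have h1 : ∑ n ∈ G, ∑ p ∈ D.filter (fun p => ¬ p ∣ n), f (p ^ 2 * n) ^ 2 =
      ∑ s ∈ G.sigma (fun n => D.filter (fun p => ¬ p ∣ n)), f (s.2 ^ 2 * s.1) ^ 2 := by
    rw [Finset.sum_sigma]
  rw [h1]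
  set S := G.sigma (fun n => D.filter (fun p => ¬ p ∣ n)) with hS
  have hmaps : ∀ s ∈ S, s.2 ^ 2 * s.1 ∈ Finset.Icc 1 ⌊x⌋₊ := by
    intro s hs
    rw [hS, Finset.mem_sigma, hG, Finset.mem_filter, Finset.mem_Icc, Finset.mem_filter] at hs
    obtain ⟨⟨⟨s1, s2⟩, _⟩, s3, _⟩ := hs
    obtain ⟨p1, p2, p3, p4⟩ := hD s.2 s3
    have hx0 : 0 < x / (16 * q ^ 2) := by
      by_contra hneg
      rw [Nat.floor_of_nonpos (not_lt.mp hneg)] at s2
      omega
    have h2 : (s.1 : ℝ) ≤ x / (16 * q ^ 2) := (Nat.cast_le.mpr s2).trans (Nat.floor_le hx0.le)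
    rw [Finset.mem_Icc]
    refine ⟨Nat.mul_pos (pow_pos p1.pos 2) s1, ?_⟩
    apply Nat.le_floor
    push_cast
    have h3 : (s.2 : ℝ) ^ 2 ≤ 16 * q ^ 2 := by
      have : (0 : ℝ) ≤ s.2 := by positivity
      nlinarith
    calc (s.2 : ℝ) ^ 2 * s.1 ≤ 16 * q ^ 2 * (x / (16 * q ^ 2)) := by gcongr
      _ = x := by
          have : (16 : ℝ) * q ^ 2 ≠ 0 := by positivity
          field_simp
  rw [← Finset.sum_fiberwise_of_maps_to (s := S) (t := Finset.Icc 1 ⌊x⌋₊)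
    (g := fun s => s.2 ^ 2 * s.1) hmaps]
  unfold SF
  rw [Finset.mul_sum]
  refine Finset.sum_le_sum fun N hN => ?_
  have h2 : ∑ s ∈ S.filter (fun s => s.2 ^ 2 * s.1 = N), f (s.2 ^ 2 * s.1) ^ 2 =
      ((S.filter (fun s => s.2 ^ 2 * s.1 = N)).card : ℝ) * f N ^ 2 := by
    rw [Finset.sum_congr rfl (g := fun _ => f N ^ 2), Finset.sum_const, nsmul_eq_mul]
    intro s hs
    rw [(Finset.mem_filter.mp hs).2]
  rw [h2]
  apply mul_le_mul_of_nonneg_right _ (sq_nonneg _)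
  have h3 : (S.filter (fun s => s.2 ^ 2 * s.1 = N)).card ≤ j := by
    rcases (S.filter (fun s => s.2 ^ 2 * s.1 = N)).eq_empty_or_nonempty with he | ⟨s0, hs0⟩
    · rw [he]
      simp
    · have hs0' := hs0
      rw [Finset.mem_filter, hS, Finset.mem_sigma, hG, Finset.mem_filter, Finset.mem_Icc,
        Finset.mem_filter] at hs0'
      obtain ⟨⟨⟨_, _, a3⟩, a4, _⟩, a5⟩ := hs0'
      have h4 : (S.filter (fun s => s.2 ^ 2 * s.1 = N)).card ≤
          (insert s0.2 (D.filter (fun p => p ^ 2 ∣ s0.1))).card := by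
        apply Finset.card_le_card_of_injOn (fun s => s.2)
        · intro s hs
          obtain ⟨hs1, b5⟩ := Finset.mem_filter.mp (Finset.mem_coe.mp hs)
          have b4 := (Finset.mem_filter.mp (Finset.mem_sigma.mp hs1).2).1
          rw [Finset.mem_coe, Finset.mem_insert]
          by_cases hne : s.2 = s0.2
          · left
            exact hne
          · right
            rw [Finset.mem_filter]
            refine ⟨b4, ?_⟩
            have hcop : Nat.Coprime (s.2 ^ 2) (s0.2 ^ 2) :=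
              Nat.Coprime.pow 2 2 ((Nat.coprime_primes (hD _ b4).1 (hD _ a4).1).mpr hne)
            apply hcop.dvd_of_dvd_mul_left
            rw [a5, ← b5]
            exact Dvd.intro _ rfl
        · rintro ⟨n, p⟩ hs ⟨n', p'⟩ hs' he
          rw [Finset.mem_coe, Finset.mem_filter] at hs hs'
          have e1 := hs.2
          have e2 := hs'.2
          have b4 := (Finset.mem_filter.mp (Finset.mem_sigma.mp hs.1).2).1
          simp only at he e1 e2 b4
          subst he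
          have : n = n' := by
            apply Nat.eq_of_mul_eq_mul_left (pow_pos (hD _ b4).1.pos 2)
            rw [e1, e2]
          rw [this]
      have h5 := Finset.card_insert_le s0.2 (D.filter (fun p => p ^ 2 ∣ s0.1))
      omega
  exact_mod_cast h3

end CaBM

theorem stmtCaB (hDvd : StmtDvd) (hDvq : StmtDvq) : StmtCaB := by
  classical
  refine ⟨200, 80 ^ 4, by norm_num, by norm_num, fun f q x M hf hq hM hInd hCB => ?_⟩
  obtain ⟨D, hD, hDc⟩ := hCB
  have hq1 : 1 ≤ q := le_trans (by norm_num) hq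
  have hq0 : 0 < q := by linarith
  have hS := CaBM.SF_nonneg f x
  set w := q ^ (-(1 / 4 : ℝ)) with hw
  have hw0 : 0 < w := by positivity
  have hw80 : w ≤ 1 / 80 := by
    calc w ≤ ((80 : ℝ) ^ 4) ^ (-(1 / 4 : ℝ)) :=
          Real.rpow_le_rpow_of_nonpos (by norm_num) hq (by norm_num)
      _ = 1 / 80 := by
          rw [← Real.rpow_natCast, ← Real.rpow_mul (by norm_num)]
          norm_num
  have hDw : 1 ≤ (D.card : ℝ) * w ^ 2 := by
    have h1 : q ^ (1 / 2 : ℝ) * w ^ 2 = 1 := by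
      rw [hw, ← Real.rpow_natCast, ← Real.rpow_mul hq0.le, ← Real.rpow_add hq0]
      norm_num
    rw [← h1]
    exact mul_le_mul_of_nonneg_right hDc (by positivity)
  have hDc0 : 0 < (D.card : ℝ) := lt_of_lt_of_le (by positivity) hDc
  set y := 16 * q ^ 2 with hy
  have hy1 : 1 ≤ y := by nlinarith
  have hye : y ^ (-(1 / 4 : ℝ)) = w ^ 2 / 2 := by
    rw [hy, Real.mul_rpow (by norm_num) (by positivity), hw, ← Real.rpow_natCast,
      ← Real.rpow_natCast, ← Real.rpow_mul hq0.le, ← Real.rpow_mul hq0.le]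
    rw [show (16 : ℝ) ^ (-(1 / 4 : ℝ)) = 1 / 2 by
      rw [show (16 : ℝ) = 2 ^ (4 : ℝ) by norm_num, ← Real.rpow_mul (by norm_num)]
      norm_num]
    push_cast
    rw [show (2 : ℝ) * -(1 / 4) = -(1 / 4) * 2 by ring]
    ring
  set j := ⌈24 * (D.card : ℝ) * w ^ 2⌉₊ with hj
  have hj1 : 24 * (D.card : ℝ) * w ^ 2 ≤ j := Nat.le_ceil _
  have hj2 : (j : ℝ) ≤ 24 * (D.card : ℝ) * w ^ 2 + 1 := (Nat.ceil_lt_add_one (by positivity)).le
  have hj0 : 1 ≤ j := by
    have : (1 : ℝ) ≤ j := by linarith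
    exact_mod_cast this
  set h := D.card / 2 + 1 with hh
  have p1 := CaBM.part1 hDvd hf hq1 hy1 hM hw80 hInd hD h (by omega) (by omega)
  have p2 := CaBM.part2 hDvq hf hq1 hy1 hM hInd hD j hj0 hj1
  have p3 := CaBM.part3 (x := x) hf hq1 hD j h (by omega) (by omega)
  rw [← hy] at p3
  set T := Finset.Icc 1 ⌊x / y⌋₊ with hT
  have hsplit : SF f (x / y) ≤
      ∑ n ∈ T.filter (fun n => h ≤ (D.filter (fun p => p ∣ n)).card), f n ^ 2 +
      ∑ n ∈ T.filter (fun n => j ≤ (D.filter (fun p => p ^ 2 ∣ n)).card), f n ^ 2 +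
      ∑ n ∈ T.filter (fun n => (D.filter (fun p => p ∣ n)).card < h ∧
        (D.filter (fun p => p ^ 2 ∣ n)).card < j), f n ^ 2 := by
    unfold SF
    rw [Finset.sum_filter, Finset.sum_filter, Finset.sum_filter, ← Finset.sum_add_distrib,
      ← Finset.sum_add_distrib]
    refine Finset.sum_le_sum fun n _ => ?_
    have h0 : 0 ≤ f n ^ 2 := sq_nonneg _
    by_cases c1 : h ≤ (D.filter (fun p => p ∣ n)).card
    · rw [if_pos c1]
      have e1 : 0 ≤ if j ≤ (D.filter (fun p => p ^ 2 ∣ n)).card then f n ^ 2 else 0 := by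
        split_ifs <;> linarith
      have e2 : 0 ≤ if (D.filter (fun p => p ∣ n)).card < h ∧
        (D.filter (fun p => p ^ 2 ∣ n)).card < j then f n ^ 2 else 0 := by
        split_ifs <;> linarith
      linarith
    · by_cases c2 : j ≤ (D.filter (fun p => p ^ 2 ∣ n)).card
      · rw [if_neg c1, if_pos c2, if_neg (by omega)]
        linarith
      · rw [if_neg c1, if_neg c2, if_pos ⟨not_le.mp c1, not_le.mp c2⟩]
        linarith
  have hgood : ∑ n ∈ T.filter (fun n => (D.filter (fun p => p ∣ n)).card < h ∧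
      (D.filter (fun p => p ^ 2 ∣ n)).card < j), f n ^ 2 ≤
      200 * y ^ (-(1 / 4 : ℝ)) * SF f x := by
    rw [hye]
    have h1 : (j : ℝ) ≤ (D.card : ℝ) / 4 * (100 * w ^ 2) := by linarith
    have h2 : (D.card : ℝ) / 4 * ∑ n ∈ T.filter (fun n => (D.filter (fun p => p ∣ n)).card < h ∧
        (D.filter (fun p => p ^ 2 ∣ n)).card < j), f n ^ 2 ≤
        (D.card : ℝ) / 4 * (200 * (w ^ 2 / 2) * SF f x) := by
      refine p3.trans ?_
      calc (j : ℝ) * SF f x ≤ (D.card : ℝ) / 4 * (100 * w ^ 2) * SF f x :=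
            mul_le_mul_of_nonneg_right h1 hS
        _ = _ := by ring
    exact le_of_mul_le_mul_left h2 (by linarith)
  have hfin : 0 ≤ M * y ^ (-(1 / 4 : ℝ)) * SF f x := by positivity
  calc SF f (x / y) ≤ 1 / 8 * M * y ^ (-(1 / 4 : ℝ)) * SF f x +
        1 / 2 * M * y ^ (-(1 / 4 : ℝ)) * SF f x + 200 * y ^ (-(1 / 4 : ℝ)) * SF f x := by
        linarith
    _ ≤ (200 + 3 / 4 * M) * y ^ (-(1 / 4 : ℝ)) * SF f x := by
        nlinarith

end

end Pool.Agent.A54.Ef
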