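import Pool.Agent.Lib.MP_a54f13_nt.Ef.SpecS

/-!
# Package `Ef`, module `CaC`: the third case
-/

set_option autoImplicit false

namespace Pool.Agent.A54.Ef

open MeasureTheory Filter Topology Set
open scoped ContDiff ComplexConjugate UpperHalfPlane MatrixGroups ENNReal
open Pool.Agent.A54.Half (H0)

noncomputable section

namespace CaCM

variable {f : ℕ → ℝ}

lemma mul_prime (hf : HMul f) {p n : ℕ} (hp : p.Prime) (hn : 1 ≤ n) (h : ¬ p ∣ n) :
    f (p * n) = f p * f n := by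
  have := hf.rel p n hp hn
  rw [if_neg h, add_zero] at this
  exact this.symm

lemma mul_two (hf : HMul f) {p p' n : ℕ} (hp : p.Prime) (hp' : p'.Prime) (hpp : p ≠ p')
    (hn : 1 ≤ n) (h : ¬ p ∣ n) (h' : ¬ p' ∣ n) : f (p * (p' * n)) = f p * (f p' * f n) := by
  have h1 : ¬ p ∣ p' * n := by
    intro h2
    rcases (hp.dvd_mul).1 h2 with h3 | h3
    · exact hpp ((Nat.prime_dvd_prime_iff_eq hp hp').1 h3)
    · exact h h3
  have h2 : 1 ≤ p' * n := Nat.mul_pos hp'.pos hn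
  rw [mul_prime hf hp h2 h1, mul_prime hf hp' hn h']

lemma SF_nonneg (f : ℕ → ℝ) (z : ℝ) : 0 ≤ SF f z := Finset.sum_nonneg fun _ _ => sq_nonneg _

/-- a bound for binomial coefficients -/
lemma choose_le (P j : ℕ) (hj : 1 ≤ j) : ((P.choose j : ℕ) : ℝ) ≤ (3 * (P : ℝ) / j) ^ j := by
  have hj0 : (0 : ℝ) < j := by exact_mod_cast hj
  have h1 : ((P.choose j : ℕ) : ℝ) ≤ (P : ℝ) ^ j / (j.factorial : ℝ) := Nat.choose_le_pow_div j P
  have h2 : (j : ℝ) ^ j / (j.factorial : ℝ) ≤ Real.exp j :=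
    Real.pow_div_factorial_le_exp (j : ℝ) hj0.le j
  have h3 : Real.exp (j : ℝ) ≤ 3 ^ j := by
    have h4 : Real.exp (j : ℝ) = Real.exp 1 ^ j := by
      rw [← Real.exp_nat_mul, mul_one]
    rw [h4]
    have := Real.exp_one_lt_d9
    exact pow_le_pow_left₀ (Real.exp_pos 1).le (by linarith) j
  calc ((P.choose j : ℕ) : ℝ) ≤ (P : ℝ) ^ j / (j.factorial : ℝ) := h1
    _ = ((P : ℝ) / j) ^ j * ((j : ℝ) ^ j / (j.factorial : ℝ)) := by
        rw [div_pow]
        field_simp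
    _ ≤ ((P : ℝ) / j) ^ j * 3 ^ j :=
        mul_le_mul_of_nonneg_left (h2.trans h3) (by positivity)
    _ = (3 * (P : ℝ) / j) ^ j := by
        rw [← mul_pow]
        congr 1
        ring

/-- the number of pairs -/
lemma pairs {c P k : ℕ} (h4 : 4 ≤ P) (hk : 4 * k ≤ P) (hc : P ≤ c + k) :
    (P : ℝ) ^ 2 / 4 ≤ ((c * c - c : ℕ) : ℝ) := by
  have hcc : c ≤ c * c := Nat.le_mul_self c
  rw [Nat.cast_sub hcc]
  push_cast
  have h1 : (P : ℝ) ≤ c + k := by exact_mod_cast hc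
  have h2 : 4 * (k : ℝ) ≤ P := by exact_mod_cast hk
  have h3 : (4 : ℝ) ≤ P := by exact_mod_cast h4
  have h5 : 3 * (P : ℝ) / 4 ≤ c := by linarith
  have h6 : (P : ℝ) / 2 ≤ c - 1 := by linarith
  calc (P : ℝ) ^ 2 / 4 ≤ (3 * (P : ℝ) / 4) * ((P : ℝ) / 2) := by nlinarith
    _ ≤ (c : ℝ) * (c - 1) := mul_le_mul h5 h6 (by positivity) (by linarith)
    _ = (c : ℝ) * c - c := by ring

/-- divisors in `D` -/
def om (D : Finset ℕ) (n : ℕ) : Finset ℕ := D.filter (fun p => p ∣ n)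

/-- non-divisors in `D` -/
def nd (D : Finset ℕ) (n : ℕ) : Finset ℕ := D.filter (fun p => ¬ p ∣ n)

lemma card_nd (D : Finset ℕ) (n : ℕ) : D.card = (nd D n).card + (om D n).card := by
  unfold nd om
  rw [add_comm]
  exact (Finset.card_filter_add_card_filter_not (s := D) (fun p => p ∣ n)).symm

/-- the good numbers -/
lemma good (hf : HMul f) {D : Finset ℕ} {L q x : ℝ} {k : ℕ} (hq : 0 < q) (hL : 0 ≤ L)
    (hD : ∀ p ∈ D, p.Prime ∧ (p : ℝ) ≤ 4 * q ∧ L ≤ f p ^ 2) (h4 : 4 ≤ D.card)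
    (hk : 4 * k ≤ D.card) :
    (D.card : ℝ) ^ 2 / 4 * L ^ 2 * ∑ n ∈ (Finset.Icc 1 ⌊x / (16 * q ^ 2)⌋₊).filter
      (fun n => (om D n).card ≤ k), f n ^ 2 ≤ ((k : ℝ) + 2) ^ 2 * SF f x := by
  set Good : Finset ℕ := (Finset.Icc 1 ⌊x / (16 * q ^ 2)⌋₊).filter
      (fun n => (om D n).card ≤ k) with hGood
  set T : Finset (Σ _ : ℕ, ℕ × ℕ) := Good.sigma (fun n => (nd D n).offDiag) with hT
  set N : (Σ _ : ℕ, ℕ × ℕ) → ℕ := fun t => t.2.1 * (t.2.2 * t.1) with hN
  have hmem : ∀ t ∈ T, 1 ≤ t.1 ∧ t.1 ≤ ⌊x / (16 * q ^ 2)⌋₊ ∧ (om D t.1).card ≤ k ∧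
      t.2.1 ∈ D ∧ t.2.2 ∈ D ∧ ¬ t.2.1 ∣ t.1 ∧ ¬ t.2.2 ∣ t.1 ∧ t.2.1 ≠ t.2.2 := by
    intro t ht
    simp only [hT, hGood, Finset.mem_sigma, Finset.mem_filter, Finset.mem_Icc,
      Finset.mem_offDiag, nd] at ht
    tauto
  -- lower bound
  have h1 : (D.card : ℝ) ^ 2 / 4 * L ^ 2 * ∑ n ∈ Good, f n ^ 2 ≤ ∑ t ∈ T, f (N t) ^ 2 := by
    have h2 : ∀ t ∈ T, L ^ 2 * f t.1 ^ 2 ≤ f (N t) ^ 2 := by
      intro t ht
      obtain ⟨a1, -, -, a4, a5, a6, a7, a8⟩ := hmem t ht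
      obtain ⟨p1, -, p3⟩ := hD _ a4
      obtain ⟨r1, -, r3⟩ := hD _ a5
      simp only [hN]
      rw [mul_two hf p1 r1 a8 a1 a6 a7, mul_pow, mul_pow]
      calc L ^ 2 * f t.1 ^ 2 = L * (L * f t.1 ^ 2) := by ring
        _ ≤ f t.2.1 ^ 2 * (f t.2.2 ^ 2 * f t.1 ^ 2) := by
            apply mul_le_mul p3 (mul_le_mul_of_nonneg_right r3 (sq_nonneg _)) (by positivity)
              (sq_nonneg _)
    calc (D.card : ℝ) ^ 2 / 4 * L ^ 2 * ∑ n ∈ Good, f n ^ 2
        = ∑ n ∈ Good, (D.card : ℝ) ^ 2 / 4 * (L ^ 2 * f n ^ 2) := by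
          rw [Finset.mul_sum]
          exact Finset.sum_congr rfl fun n _ => by ring
      _ ≤ ∑ n ∈ Good, ∑ _p ∈ (nd D n).offDiag, L ^ 2 * f n ^ 2 := by
          refine Finset.sum_le_sum fun n hn => ?_
          rw [Finset.sum_const, nsmul_eq_mul, Finset.offDiag_card]
          refine mul_le_mul_of_nonneg_right ?_ (by positivity)
          apply pairs h4 hk
          rw [card_nd D n]
          simp only [hGood, Finset.mem_filter] at hn
          omega
      _ = ∑ t ∈ T, L ^ 2 * f t.1 ^ 2 := by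
          rw [hT, Finset.sum_sigma]
      _ ≤ _ := Finset.sum_le_sum h2
  refine h1.trans ?_
  -- upper bound
  have hmaps : ∀ t ∈ T, N t ∈ Finset.Icc 1 ⌊x⌋₊ := by
    intro t ht
    obtain ⟨a1, a2, -, a4, a5, -, -, -⟩ := hmem t ht
    obtain ⟨p1, p2, -⟩ := hD _ a4
    obtain ⟨r1, r2, -⟩ := hD _ a5
    rw [Finset.mem_Icc]
    refine ⟨Nat.mul_pos p1.pos (Nat.mul_pos r1.pos a1), ?_⟩
    apply Nat.le_floor
    have h3 : (t.1 : ℝ) ≤ x / (16 * q ^ 2) := (Nat.le_floor_iff' (by omega)).1 a2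
    have h0 : (0 : ℝ) ≤ t.1 := Nat.cast_nonneg _
    simp only [hN]
    push_cast
    calc (t.2.1 : ℝ) * ((t.2.2 : ℝ) * (t.1 : ℝ)) ≤ (4 * q) * ((4 * q) * (x / (16 * q ^ 2))) := by
          apply mul_le_mul p2 _ (by positivity) (by positivity)
          exact mul_le_mul r2 h3 h0 (by positivity)
      _ = x := by
          field_simp
          ring
  rw [← Finset.sum_fiberwise_of_maps_to hmaps]
  unfold SF
  rw [Finset.mul_sum]
  refine Finset.sum_le_sum fun m _ => ?_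
  have h5 : ∑ t ∈ T.filter (fun t => N t = m), f (N t) ^ 2 =
      ((T.filter (fun t => N t = m)).card : ℝ) * f m ^ 2 := by
    rw [← nsmul_eq_mul, ← Finset.sum_const]
    refine Finset.sum_congr rfl fun t ht => ?_
    rw [(Finset.mem_filter.1 ht).2]
  rw [h5]
  refine mul_le_mul_of_nonneg_right ?_ (sq_nonneg _)
  rcases (T.filter (fun t => N t = m)).eq_empty_or_nonempty with h6 | ⟨t0, ht0⟩
  · rw [h6]
    simp only [Finset.card_empty, Nat.cast_zero]
    positivity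
  · have h7 : (om D m).card ≤ k + 2 := by
      rw [Finset.mem_filter] at ht0
      obtain ⟨a1, a2, a3, a4, a5, -, -, -⟩ := hmem t0 ht0.1
      obtain ⟨p1, -, -⟩ := hD _ a4
      obtain ⟨r1, -, -⟩ := hD _ a5
      have h8 : om D m ⊆ insert t0.2.1 (insert t0.2.2 (om D t0.1)) := by
        intro p hp
        simp only [om, Finset.mem_filter] at hp
        have hpp := (hD p hp.1).1
        have h9 : p ∣ t0.2.1 * (t0.2.2 * t0.1) := by
          have := ht0.2
          simp only [hN] at this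
          rw [this]
          exact hp.2
        simp only [Finset.mem_insert, om, Finset.mem_filter]
        rcases (hpp.dvd_mul).1 h9 with h10 | h10
        · exact Or.inl ((Nat.prime_dvd_prime_iff_eq hpp p1).1 h10)
        · rcases (hpp.dvd_mul).1 h10 with h11 | h11
          · exact Or.inr (Or.inl ((Nat.prime_dvd_prime_iff_eq hpp r1).1 h11))
          · exact Or.inr (Or.inr ⟨hp.1, h11⟩)
      calc (om D m).card ≤ _ := Finset.card_le_card h8
        _ ≤ (insert t0.2.2 (om D t0.1)).card + 1 := Finset.card_insert_le _ _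
        _ ≤ ((om D t0.1).card + 1) + 1 := Nat.add_le_add_right (Finset.card_insert_le _ _) 1
        _ ≤ k + 2 := by omega
    have h12 : (T.filter (fun t => N t = m)).card ≤ (om D m ×ˢ om D m).card := by
      refine Finset.card_le_card_of_injOn (fun t => t.2) ?_ ?_
      · intro t ht
        have ht' := Finset.mem_filter.1 ht
        obtain ⟨-, -, -, a4, a5, -, -, -⟩ := hmem t ht'.1
        simp only [Finset.coe_product, Set.mem_prod, Finset.mem_coe, om, Finset.mem_filter]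
        have h13 : t.2.1 * (t.2.2 * t.1) = m := ht'.2
        refine ⟨⟨a4, ?_⟩, a5, ?_⟩
        · rw [← h13]
          exact Dvd.intro _ rfl
        · rw [← h13]
          exact Dvd.dvd.mul_left (Dvd.intro _ rfl) _
      · intro t ht t' ht' heq
        have h1 := Finset.mem_filter.1 ht
        have h2 := Finset.mem_filter.1 ht'
        obtain ⟨-, -, -, a4, a5, -, -, -⟩ := hmem t h1.1
        have p1 := (hD _ a4).1.pos
        have p2 := (hD _ a5).1.pos
        have e1 : t.2 = t'.2 := heq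
        have h3 : t.2.1 * (t.2.2 * t.1) = m := h1.2
        have h4 : t'.2.1 * (t'.2.2 * t'.1) = m := h2.2
        rw [← e1, ← h3] at h4
        have h5 := Nat.eq_of_mul_eq_mul_left p1 h4
        have h6 := Nat.eq_of_mul_eq_mul_left p2 h5
        exact Sigma.ext h6.symm (heq_of_eq e1)
    rw [Finset.card_product] at h12
    have h13 : (T.filter (fun t => N t = m)).card ≤ (k + 2) * (k + 2) :=
      h12.trans (Nat.mul_le_mul h7 h7)
    calc ((T.filter (fun t => N t = m)).card : ℝ) ≤ (((k + 2) * (k + 2) : ℕ) : ℝ) := by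
          exact_mod_cast h13
      _ = ((k : ℝ) + 2) ^ 2 := by push_cast; ring

/-- the bad numbers -/
lemma bad (hDvd : StmtDvd) (hf : HMul f) {D : Finset ℕ} {L q x M : ℝ} {j : ℕ} (hq : 1 ≤ q)
    (hL : 1 / 4 ≤ L) (hD : ∀ p ∈ D, p.Prime ∧ q < (p : ℝ) ∧ f p ^ 2 ≤ 2 * L) (hM : 0 ≤ M)
    (hI : Ind f x M) (hj : 1 ≤ j) {y : ℝ} (hy : 1 ≤ y) :
    ∑ n ∈ (Finset.Icc 1 ⌊x / y⌋₊).filter (fun n => j ≤ (om D n).card), f n ^ 2 ≤
      (36 * L * D.card * q ^ (-(1 / 4 : ℝ)) / j) ^ j * (M * y ^ (-(1 / 4 : ℝ)) * SF f x) := by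
  have hq0 : 0 < q := by linarith
  have hy0 : 0 < y := by linarith
  have hS := SF_nonneg f x
  -- one subset
  have hone : ∀ D' ∈ D.powersetCard j,
      ∑ n ∈ (Finset.Icc 1 ⌊x / y⌋₊).filter (fun n => (∏ p ∈ D', p) ∣ n), f n ^ 2 ≤
        (12 * L * q ^ (-(1 / 4 : ℝ))) ^ j * (M * y ^ (-(1 / 4 : ℝ)) * SF f x) := by
    intro D' hD'
    rw [Finset.mem_powersetCard] at hD'
    have h1 := hDvd f hf D' (x / y) (fun p hp => (hD p (hD'.1 hp)).1)
    refine h1.trans ?_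
    have h2 : ∏ p ∈ D', (2 * f p ^ 2 + 2) ≤ (12 * L) ^ j := by
      calc ∏ p ∈ D', (2 * f p ^ 2 + 2) ≤ ∏ _p ∈ D', (12 * L) := by
            refine Finset.prod_le_prod (fun p _ => by positivity) fun p hp => ?_
            have := (hD p (hD'.1 hp)).2.2
            linarith
        _ = (12 * L) ^ j := by rw [Finset.prod_const, hD'.2]
    have h3 : q ^ j ≤ ((∏ p ∈ D', p : ℕ) : ℝ) := by
      push_cast
      calc q ^ j = ∏ _p ∈ D', q := by rw [Finset.prod_const, hD'.2]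
        _ ≤ ∏ p ∈ D', (p : ℝ) := Finset.prod_le_prod (fun p _ => hq0.le)
            fun p hp => (hD p (hD'.1 hp)).2.1.le
    set Q : ℝ := ((∏ p ∈ D', p : ℕ) : ℝ) with hQ
    have hqj : 1 ≤ q ^ j := one_le_pow₀ hq
    have hQ1 : 1 ≤ Q := hqj.trans h3
    have h4 : SF f (x / y / Q) ≤ M * (y * Q) ^ (-(1 / 4 : ℝ)) * SF f x := by
      have := hI (y * Q) (one_le_mul_of_one_le_of_one_le hy hQ1)
      rwa [← div_div] at this
    have h5 : (y * Q) ^ (-(1 / 4 : ℝ)) ≤ y ^ (-(1 / 4 : ℝ)) * (q ^ (-(1 / 4 : ℝ))) ^ j := by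
      rw [Real.mul_rpow hy0.le (by linarith)]
      refine mul_le_mul_of_nonneg_left ?_ (by positivity)
      have h6 : (q ^ (-(1 / 4 : ℝ))) ^ j = (q ^ j) ^ (-(1 / 4 : ℝ)) := by
        rw [← Real.rpow_natCast, ← Real.rpow_mul hq0.le, ← Real.rpow_natCast q j,
          ← Real.rpow_mul hq0.le]
        congr 1
        ring
      rw [h6]
      exact Real.rpow_le_rpow_of_nonpos (by linarith) h3 (by norm_num)
    calc (∏ p ∈ D', (2 * f p ^ 2 + 2)) * SF f (x / y / Q)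
        ≤ (12 * L) ^ j * (M * (y ^ (-(1 / 4 : ℝ)) * (q ^ (-(1 / 4 : ℝ))) ^ j) * SF f x) := by
          apply mul_le_mul h2 _ (SF_nonneg _ _) (by positivity)
          refine h4.trans ?_
          refine mul_le_mul_of_nonneg_right ?_ hS
          exact mul_le_mul_of_nonneg_left h5 hM
      _ = _ := by rw [mul_pow (12 * L) (q ^ (-(1 / 4 : ℝ))) j]; ring
  -- all subsets
  have hcov : ∑ n ∈ (Finset.Icc 1 ⌊x / y⌋₊).filter (fun n => j ≤ (om D n).card), f n ^ 2 ≤
      ∑ D' ∈ D.powersetCard j,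
        ∑ n ∈ (Finset.Icc 1 ⌊x / y⌋₊).filter (fun n => (∏ p ∈ D', p) ∣ n), f n ^ 2 := by
    simp only [Finset.sum_filter]
    rw [Finset.sum_comm]
    refine Finset.sum_le_sum fun n _ => ?_
    split_ifs with h
    · obtain ⟨D', hD', hcard⟩ := Finset.exists_subset_card_eq h
      have h1 : D' ∈ D.powersetCard j := by
        rw [Finset.mem_powersetCard]
        exact ⟨hD'.trans (Finset.filter_subset _ _), hcard⟩
      have h2 : (∏ p ∈ D', p) ∣ n := by
        refine Finset.prod_primes_dvd n (fun p hp => ?_) (fun p hp => ?_)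
        · exact ((hD p ((Finset.mem_filter.1 (hD' hp)).1)).1).prime
        · exact (Finset.mem_filter.1 (hD' hp)).2
      calc f n ^ 2 = if (∏ p ∈ D', p) ∣ n then f n ^ 2 else 0 := by rw [if_pos h2]
        _ ≤ _ := Finset.single_le_sum
            (f := fun D' : Finset ℕ => if (∏ p ∈ D', p) ∣ n then f n ^ 2 else 0)
            (fun D'' _ => by
              show 0 ≤ if (∏ p ∈ D'', p) ∣ n then f n ^ 2 else 0
              split_ifs
              · exact sq_nonneg _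
              · exact le_rfl) h1
    · refine Finset.sum_nonneg fun D' _ => ?_
      split_ifs
      · exact sq_nonneg _
      · exact le_rfl
  refine hcov.trans ((Finset.sum_le_sum hone).trans ?_)
  rw [Finset.sum_const, nsmul_eq_mul, Finset.card_powersetCard]
  have hR : 0 ≤ (12 * L * q ^ (-(1 / 4 : ℝ))) ^ j * (M * y ^ (-(1 / 4 : ℝ)) * SF f x) := by
    have : 0 ≤ L := by linarith
    positivity
  refine (mul_le_mul_of_nonneg_right (choose_le D.card j hj) hR).trans (le_of_eq ?_)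
  rw [← mul_assoc, ← mul_pow]
  congr 2
  ring

end CaCM

open CaCM in
theorem stmtCaC (hDvd : StmtDvd) : StmtCaC := by
  refine ⟨51200, 16, by norm_num, by norm_num, ?_⟩
  rintro f q x M hf hq hM hI ⟨D, L, hL, hLq, hD, hP⟩
  have hq1 : 1 ≤ q := by linarith
  have hq0 : 0 < q := by linarith
  have hL0 : 0 < L := by linarith
  have hS := SF_nonneg f x
  set P : ℝ := (D.card : ℝ) with hPdef
  set u : ℝ := q ^ (-(1 / 4 : ℝ)) with hu
  have hu0 : 0 < u := Real.rpow_pos_of_pos hq0 _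
  have huq : q ^ (1 / 4 : ℝ) * u = 1 := by
    rw [hu, ← Real.rpow_add hq0]
    simp
  have hq2 : (4 : ℝ) ≤ q ^ (1 / 2 : ℝ) := by
    calc (4 : ℝ) = (16 : ℝ) ^ (1 / 2 : ℝ) := by
          rw [show (16 : ℝ) = 4 ^ (2 : ℝ) by norm_num, ← Real.rpow_mul (by norm_num)]
          norm_num
      _ ≤ q ^ (1 / 2 : ℝ) := Real.rpow_le_rpow (by norm_num) hq (by norm_num)
  have hP4 : 4 ≤ P := hq2.trans hP
  have hP4' : 4 ≤ D.card := by
    have h : ((4 : ℕ) : ℝ) ≤ (D.card : ℝ) := by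
      push_cast
      exact hP4
    exact_mod_cast h
  have hP0 : 0 < P := by linarith
  -- the parameter
  set A : ℝ := 72 * L * P * u with hA
  have hA0 : 0 < A := by positivity
  set j : ℕ := ⌈A⌉₊ with hj
  have hj1 : 1 ≤ j := Nat.one_le_ceil_iff.2 hA0
  obtain ⟨k, hk⟩ : ∃ k : ℕ, j = k + 1 := ⟨j - 1, by omega⟩
  have hAj : A ≤ j := Nat.le_ceil A
  have hjA : (j : ℝ) < A + 1 := Nat.ceil_lt_add_one hA0.le
  have hkA : (k : ℝ) < A := by
    rw [hk] at hjA
    push_cast at hjA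
    linarith
  have hAP : A ≤ P / 4 := by
    have h1 : L * u ≤ 1 / 288 := by
      have h2 : 288 * L * u ≤ q ^ (1 / 4 : ℝ) * u := mul_le_mul_of_nonneg_right hLq hu0.le
      rw [huq] at h2
      linarith
    calc A = 72 * P * (L * u) := by rw [hA]; ring
      _ ≤ 72 * P * (1 / 288) := by gcongr
      _ = P / 4 := by ring
  have h4k : 4 * k ≤ D.card := by
    have h : ((4 * k : ℕ) : ℝ) ≤ (D.card : ℝ) := by
      push_cast
      linarith
    exact_mod_cast h
  have hy1 : 1 ≤ 16 * q ^ 2 := by nlinarith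
  -- splitting
  set y : ℝ := 16 * q ^ 2 with hy
  have hsplit : SF f (x / y) =
      (∑ n ∈ (Finset.Icc 1 ⌊x / y⌋₊).filter (fun n => (om D n).card ≤ k), f n ^ 2) +
      ∑ n ∈ (Finset.Icc 1 ⌊x / y⌋₊).filter (fun n => j ≤ (om D n).card), f n ^ 2 := by
    unfold SF
    rw [← Finset.sum_filter_add_sum_filter_not (Finset.Icc 1 ⌊x / y⌋₊)
      (fun n => (om D n).card ≤ k)]
    congr 1
    refine Finset.sum_congr (Finset.filter_congr fun n _ => ?_) fun _ _ => rfl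
    omega
  have hyq : y ^ (-(1 / 4 : ℝ)) = u ^ 2 / 2 := by
    have h1 : y = (2 * q ^ (1 / 2 : ℝ)) ^ 4 := by
      rw [mul_pow, ← Real.rpow_natCast (q ^ (1 / 2 : ℝ)) 4, ← Real.rpow_mul hq0.le, hy]
      norm_num
    have h2 : y ^ (-(1 / 4 : ℝ)) = (2 * q ^ (1 / 2 : ℝ))⁻¹ := by
      rw [h1, ← Real.rpow_natCast, ← Real.rpow_mul (by positivity)]
      norm_num
      rw [Real.rpow_neg (by positivity), Real.rpow_one]
      field_simp
    have h3 : u ^ 2 = (q ^ (1 / 2 : ℝ))⁻¹ := by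
      rw [hu, ← Real.rpow_natCast, ← Real.rpow_mul hq0.le, ← Real.rpow_neg hq0.le]
      norm_num
    rw [h2, h3]
    field_simp
  -- the good numbers
  have hgood := good hf (x := x) hq0 hL0.le (fun p hp => ⟨(hD p hp).1, (hD p hp).2.2.1,
    (hD p hp).2.2.2.1⟩) hP4' h4k
  rw [← hy, ← hPdef] at hgood
  set SG := ∑ n ∈ (Finset.Icc 1 ⌊x / y⌋₊).filter (fun n => (om D n).card ≤ k), f n ^ 2 with hSG
  have hg : SG ≤ 51200 * (y ^ (-(1 / 4 : ℝ)) * SF f x) := by
    have h1 : (k : ℝ) + 2 ≤ 80 * (L * P * u) := by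
      have h2 : 2 ≤ 8 * (L * P * u) := by
        have h3 : 1 ≤ P * u := by
          calc (1 : ℝ) = q ^ (1 / 4 : ℝ) * u := huq.symm
            _ ≤ P * u := by
                refine mul_le_mul_of_nonneg_right (le_trans ?_ hP) hu0.le
                exact Real.rpow_le_rpow_of_exponent_le hq1 (by norm_num)
        calc (2 : ℝ) = 8 * ((1 / 4) * 1) := by norm_num
          _ ≤ 8 * (L * (P * u)) := by
              gcongr
          _ = _ := by ring
      linarith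
    have h2 : ((k : ℝ) + 2) ^ 2 ≤ (80 * (L * P * u)) ^ 2 :=
      pow_le_pow_left₀ (by positivity) h1 2
    have h3 : P ^ 2 / 4 * L ^ 2 * SG ≤ (80 * (L * P * u)) ^ 2 * SF f x :=
      hgood.trans (mul_le_mul_of_nonneg_right h2 hS)
    have h4 : (80 * (L * P * u)) ^ 2 * SF f x =
        P ^ 2 / 4 * L ^ 2 * (51200 * ((u ^ 2 / 2) * SF f x)) := by ring
    rw [h4] at h3
    rw [hyq]
    exact le_of_mul_le_mul_left h3 (by positivity)
  -- the bad numbers
  have hbad := bad hDvd hf (x := x) (M := M) hq1 hL (fun p hp => ⟨(hD p hp).1, (hD p hp).2.1,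
    (hD p hp).2.2.2.2⟩) (by linarith) hI hj1 hy1
  rw [← hPdef, ← hu] at hbad
  have hb : ∑ n ∈ (Finset.Icc 1 ⌊x / y⌋₊).filter (fun n => j ≤ (om D n).card), f n ^ 2 ≤
      1 / 2 * (M * y ^ (-(1 / 4 : ℝ)) * SF f x) := by
    refine hbad.trans (mul_le_mul_of_nonneg_right ?_ (by positivity))
    have hj0 : (0 : ℝ) < j := by exact_mod_cast hj1
    have h1 : 36 * L * P * u / j ≤ 1 / 2 := by
      rw [div_le_iff₀ hj0]
      linarith
    calc (36 * L * P * u / j) ^ j ≤ (1 / 2) ^ j := pow_le_pow_left₀ (by positivity) h1 j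
      _ ≤ (1 / 2) ^ 1 := pow_le_pow_of_le_one (by norm_num) (by norm_num) hj1
      _ = 1 / 2 := by norm_num
  rw [hsplit]
  have hR : 0 ≤ M * (y ^ (-(1 / 4 : ℝ)) * SF f x) := by positivity
  calc _ ≤ 51200 * (y ^ (-(1 / 4 : ℝ)) * SF f x) + 1 / 2 * (M * y ^ (-(1 / 4 : ℝ)) * SF f x) :=
        add_le_add hg hb
    _ ≤ 51200 * (y ^ (-(1 / 4 : ℝ)) * SF f x) +
        3 / 4 * (M * (y ^ (-(1 / 4 : ℝ)) * SF f x)) := by linarith
    _ = _ := by ring

end

end Pool.Agent.A54.Ef
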