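import Pool.Agent.Lib.MP_a54f13_nt.Ef.SpecS

/-!
# `Ef/Dvd`: multiples of a product of primes (task 5005)
-/

set_option autoImplicit false

namespace Pool.Agent.A54.Ef.DvdM

open Finset

/-- reindexing the multiples of `p * Q` -/
theorem reidx (p Q N : ℕ) (hp : 0 < p) (g : ℕ → ℝ) :
    ∑ n ∈ (Finset.Icc 1 N).filter (fun n => p * Q ∣ n), g n =
      ∑ n ∈ (Finset.Icc 1 (N / p)).filter (fun n => Q ∣ n), g (p * n) := by
  refine Finset.sum_nbij' (fun n => n / p) (fun n => p * n) ?_ ?_ ?_ ?_ ?_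
  · intro n hn
    rw [Finset.mem_filter, Finset.mem_Icc] at hn ⊢
    obtain ⟨⟨h1, h2⟩, k, hk⟩ := hn
    have e : n / p = Q * k := by
      rw [hk, mul_assoc, Nat.mul_div_cancel_left _ hp]
    refine ⟨⟨?_, Nat.div_le_div_right h2⟩, ?_⟩
    · rcases Nat.eq_zero_or_pos (n / p) with h | h
      · exfalso
        rw [e] at h
        rw [hk, mul_assoc, h, mul_zero] at h1
        omega
      · exact h
    · rw [e]; exact dvd_mul_right _ _
  · intro n hn
    rw [Finset.mem_filter, Finset.mem_Icc] at hn ⊢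
    obtain ⟨⟨h1, h2⟩, h3⟩ := hn
    refine ⟨⟨Nat.mul_pos hp h1, ?_⟩, mul_dvd_mul_left p h3⟩
    calc p * n ≤ p * (N / p) := Nat.mul_le_mul_left p h2
      _ ≤ N := Nat.mul_div_le N p
  · intro n hn
    rw [Finset.mem_filter] at hn
    exact Nat.mul_div_cancel' ((dvd_mul_right p Q).trans hn.2)
  · intro n hn
    exact Nat.mul_div_cancel_left n hp
  · intro n hn
    rw [Finset.mem_filter] at hn
    show g n = g (p * (n / p))
    rw [Nat.mul_div_cancel' ((dvd_mul_right p Q).trans hn.2)]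

/-- the terms with `p ∣ n` -/
theorem second (p Q N : ℕ) (hp : 0 < p) (hc : Nat.Coprime p Q) (g : ℕ → ℝ) :
    ∑ n ∈ (Finset.Icc 1 N).filter (fun n => Q ∣ n), (if p ∣ n then g (n / p) else 0) =
      ∑ n ∈ (Finset.Icc 1 (N / p)).filter (fun n => Q ∣ n), g n := by
  have h1 : ∑ n ∈ (Finset.Icc 1 N).filter (fun n => Q ∣ n), (if p ∣ n then g (n / p) else 0) =
      ∑ n ∈ (Finset.Icc 1 N).filter (fun n => p * Q ∣ n), g (n / p) := by
    rw [← Finset.sum_filter, Finset.filter_filter]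
    refine Finset.sum_congr ?_ (fun _ _ => rfl)
    refine Finset.filter_congr (fun n _ => ?_)
    constructor
    · rintro ⟨a, b⟩
      exact hc.mul_dvd_of_dvd_of_dvd b a
    · intro h
      exact ⟨(dvd_mul_left Q p).trans h, (dvd_mul_right p Q).trans h⟩
  rw [h1, reidx p Q N hp]
  refine Finset.sum_congr rfl (fun n _ => ?_)
  rw [Nat.mul_div_cancel_left n hp]

theorem sum_mono (f : ℕ → ℝ) {M N : ℕ} (h : M ≤ N) :
    ∑ n ∈ Finset.Icc 1 M, f n ^ 2 ≤ ∑ n ∈ Finset.Icc 1 N, f n ^ 2 :=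
  Finset.sum_le_sum_of_subset_of_nonneg (Finset.Icc_subset_Icc_right h)
    (fun _ _ _ => sq_nonneg _)

theorem coprime_prod {D : Finset ℕ} {p : ℕ} (hp : p.Prime) (hD : ∀ q ∈ D, q.Prime)
    (hpD : p ∉ D) : Nat.Coprime p (∏ q ∈ D, q) := by
  refine Nat.Coprime.prod_right (fun q hq => ?_)
  rw [Nat.coprime_primes hp (hD q hq)]
  rintro rfl
  exact hpD hq

theorem natDvd (f : ℕ → ℝ) (hf : HMul f) (D : Finset ℕ) :
    (∀ p ∈ D, p.Prime) → ∀ N : ℕ,
    ∑ n ∈ (Finset.Icc 1 N).filter (fun n => (∏ p ∈ D, p) ∣ n), f n ^ 2 ≤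
    (∏ p ∈ D, (2 * f p ^ 2 + 2)) * ∑ n ∈ Finset.Icc 1 (N / ∏ p ∈ D, p), f n ^ 2 := by
  classical
  induction D using Finset.induction_on with
  | empty =>
    intro _ N
    simp
  | insert p D hpD ih =>
    intro hD N
    have hp : p.Prime := hD p (Finset.mem_insert_self p D)
    have hD' : ∀ q ∈ D, q.Prime := fun q hq => hD q (Finset.mem_insert_of_mem hq)
    have hc := coprime_prod hp hD' hpD
    rw [Finset.prod_insert hpD, Finset.prod_insert hpD]
    set Q := ∏ q ∈ D, q with hQ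
    set c := ∏ q ∈ D, (2 * f q ^ 2 + 2) with hcdef
    have hc0 : 0 ≤ c := Finset.prod_nonneg (fun q _ => by positivity)
    rw [reidx p Q N hp.pos]
    have key : ∀ n ∈ (Finset.Icc 1 (N / p)).filter (fun n => Q ∣ n),
        f (p * n) ^ 2 ≤ 2 * f p ^ 2 * f n ^ 2 + 2 * (if p ∣ n then f (n / p) ^ 2 else 0) := by
      intro n hn
      rw [Finset.mem_filter, Finset.mem_Icc] at hn
      have hr := hf.rel p n hp hn.1.1
      by_cases hd : p ∣ n
      · rw [if_pos hd] at hr ⊢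
        have : f (p * n) = f p * f n - f (n / p) := by linarith
        rw [this]
        nlinarith [sq_nonneg (f p * f n + f (n / p))]
      · rw [if_neg hd] at hr ⊢
        have : f (p * n) = f p * f n := by linarith
        rw [this]
        nlinarith [sq_nonneg (f p * f n)]
    have e1 : ∑ n ∈ (Finset.Icc 1 (N / p)).filter (fun n => Q ∣ n),
        (2 * f p ^ 2 * f n ^ 2 + 2 * (if p ∣ n then f (n / p) ^ 2 else 0)) =
        2 * f p ^ 2 * ∑ n ∈ (Finset.Icc 1 (N / p)).filter (fun n => Q ∣ n), f n ^ 2 +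
        2 * ∑ n ∈ (Finset.Icc 1 (N / p / p)).filter (fun n => Q ∣ n), f n ^ 2 := by
      rw [Finset.sum_add_distrib, ← Finset.mul_sum, ← Finset.mul_sum,
        second p Q (N / p) hp.pos hc (fun n => f n ^ 2)]
    have i1 := ih hD' (N / p)
    have i2 := ih hD' (N / p / p)
    have m1 : ∑ n ∈ Finset.Icc 1 (N / p / p / Q), f n ^ 2 ≤
        ∑ n ∈ Finset.Icc 1 (N / p / Q), f n ^ 2 :=
      sum_mono f (Nat.div_le_div_right (Nat.div_le_self _ _))
    have e2 : N / p / Q = N / (p * Q) := Nat.div_div_eq_div_mul N p Q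
    rw [← e2]
    set S := ∑ n ∈ Finset.Icc 1 (N / p / Q), f n ^ 2 with hS
    calc ∑ n ∈ (Finset.Icc 1 (N / p)).filter (fun n => Q ∣ n), f (p * n) ^ 2
        ≤ _ := Finset.sum_le_sum key
      _ = _ := e1
      _ ≤ 2 * f p ^ 2 * (c * S) + 2 * (c * S) := by
          have a1 := mul_le_mul_of_nonneg_left i1 (show (0 : ℝ) ≤ 2 * f p ^ 2 by positivity)
          have a2 : ∑ n ∈ (Finset.Icc 1 (N / p / p)).filter (fun n => Q ∣ n), f n ^ 2 ≤ c * S :=
            i2.trans (mul_le_mul_of_nonneg_left m1 hc0)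
          linarith
      _ = (2 * f p ^ 2 + 2) * c * S := by ring

end Pool.Agent.A54.Ef.DvdM

namespace Pool.Agent.A54.Ef

open DvdM in
theorem stmtDvd : StmtDvd := by
  intro f hf D z hD
  have h := natDvd f hf D hD ⌊z⌋₊
  rw [SF, Nat.floor_div_natCast]
  exact h

end Pool.Agent.A54.Ef
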