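import Pool.Agent.Lib.MP_a54f13_nt.Ef.SpecS

/-!
# `Ef/Dvq`: multiples of the square of a product of primes (task 5006)
-/

set_option autoImplicit false

namespace Pool.Agent.A54.Ef.DvqM

open Finset

/-- reindexing the multiples of `p * Q` -/
theorem reidx (p Q N : ℕ) (hp : 0 < p) (g : ℕ → ℝ) :
    ∑ n ∈ (Finset.Icc 1 N).filter (fun n => p * Q ∣ n), g n =
      ∑ n ∈ (Finset.Icc 1 (N / p)).filter (fun n => Q ∣ n), g (p * n) := by
  refine Finset.sum_nbij' (fun n => n / p) (fun n => p * n) ?_ ?_ ?_ ?_ ?_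
  · intro n hn
    rw [Finset.mem_filter, Finset.mem_Icc] at hn ⊢
    obtain ⟨⟨h1, h2⟩, k, hk⟩ := hn
    have e : n / p = Q * k := by
      rw [hk, mul_assoc, Nat.mul_div_cancel_left _ hp]
    refine ⟨⟨?_, Nat.div_le_div_right h2⟩, ?_⟩
    · rcases Nat.eq_zero_or_pos (n / p) with h | h
      · exfalso
        rw [e] at h
        rw [hk, mul_assoc, h, mul_zero] at h1
        omega
      · exact h
    · rw [e]; exact dvd_mul_right _ _
  · intro n hn
    rw [Finset.mem_filter, Finset.mem_Icc] at hn ⊢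
    obtain ⟨⟨h1, h2⟩, h3⟩ := hn
    refine ⟨⟨Nat.mul_pos hp h1, ?_⟩, mul_dvd_mul_left p h3⟩
    calc p * n ≤ p * (N / p) := Nat.mul_le_mul_left p h2
      _ ≤ N := Nat.mul_div_le N p
  · intro n hn
    rw [Finset.mem_filter] at hn
    exact Nat.mul_div_cancel' ((dvd_mul_right p Q).trans hn.2)
  · intro n hn
    exact Nat.mul_div_cancel_left n hp
  · intro n hn
    rw [Finset.mem_filter] at hn
    show g n = g (p * (n / p))
    rw [Nat.mul_div_cancel' ((dvd_mul_right p Q).trans hn.2)]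

/-- the terms with `p ∣ n` -/
theorem second (p Q N : ℕ) (hp : 0 < p) (hc : Nat.Coprime p Q) (g : ℕ → ℝ) :
    ∑ n ∈ (Finset.Icc 1 N).filter (fun n => Q ∣ n), (if p ∣ n then g (n / p) else 0) =
      ∑ n ∈ (Finset.Icc 1 (N / p)).filter (fun n => Q ∣ n), g n := by
  have h1 : ∑ n ∈ (Finset.Icc 1 N).filter (fun n => Q ∣ n), (if p ∣ n then g (n / p) else 0) =
      ∑ n ∈ (Finset.Icc 1 N).filter (fun n => p * Q ∣ n), g (n / p) := by
    rw [← Finset.sum_filter, Finset.filter_filter]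
    refine Finset.sum_congr ?_ (fun _ _ => rfl)
    refine Finset.filter_congr (fun n _ => ?_)
    constructor
    · rintro ⟨a, b⟩
      exact hc.mul_dvd_of_dvd_of_dvd b a
    · intro h
      exact ⟨(dvd_mul_left Q p).trans h, (dvd_mul_right p Q).trans h⟩
  rw [h1, reidx p Q N hp]
  refine Finset.sum_congr rfl (fun n _ => ?_)
  rw [Nat.mul_div_cancel_left n hp]

theorem sum_mono (f : ℕ → ℝ) {M N : ℕ} (h : M ≤ N) :
    ∑ n ∈ Finset.Icc 1 M, f n ^ 2 ≤ ∑ n ∈ Finset.Icc 1 N, f n ^ 2 :=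
  Finset.sum_le_sum_of_subset_of_nonneg (Finset.Icc_subset_Icc_right h)
    (fun _ _ _ => sq_nonneg _)

theorem coprime_prod {D : Finset ℕ} {p : ℕ} (hp : p.Prime) (hD : ∀ q ∈ D, q.Prime)
    (hpD : p ∉ D) : Nat.Coprime p (∏ q ∈ D, q) := by
  refine Nat.Coprime.prod_right (fun q hq => ?_)
  rw [Nat.coprime_primes hp (hD q hq)]
  rintro rfl
  exact hpD hq

/-- the pointwise bound for `f (p² n)` -/
theorem point (f : ℕ → ℝ) (hf : HMul f) {p n : ℕ} (hp : p.Prime) (hn : 1 ≤ n)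
    (h2 : |f p| < 1 / 2) :
    f (p ^ 2 * n) ^ 2 ≤ 2 * f n ^ 2 + 2 * (if p ∣ n then f (n / p) ^ 2 else 0) := by
  have hpn : 1 ≤ p * n := Nat.mul_pos hp.pos hn
  have hr1 := hf.rel p (p * n) hp hpn
  rw [if_pos (dvd_mul_right p n), Nat.mul_div_cancel_left n hp.pos] at hr1
  have hr2 := hf.rel p n hp hn
  have e : p ^ 2 * n = p * (p * n) := by ring
  rw [e]
  have ha := abs_lt.1 h2
  set a := f p with ha'
  have a1 : a ^ 2 ≤ 1 := by nlinarith [ha.1, ha.2]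
  have a0 : 0 ≤ a ^ 2 := sq_nonneg a
  have a2 : (a ^ 2 - 1) ^ 2 ≤ 1 := by nlinarith
  set u := f n with hu
  have hu0 := sq_nonneg u
  by_cases hd : p ∣ n
  · rw [if_pos hd] at hr2 ⊢
    set v := f (n / p) with hv
    have hv0 := sq_nonneg v
    have e1 : f (p * n) = a * u - v := by linarith
    rw [e1] at hr1
    have e2 : f (p * (p * n)) = (a ^ 2 - 1) * u - a * v := by
      have : f (p * (p * n)) = a * (a * u - v) - u := by linarith
      rw [this]; ring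
    rw [e2]
    have b1 : (a ^ 2 - 1) ^ 2 * u ^ 2 ≤ 1 * u ^ 2 := mul_le_mul_of_nonneg_right a2 hu0
    have b2 : a ^ 2 * v ^ 2 ≤ 1 * v ^ 2 := mul_le_mul_of_nonneg_right a1 hv0
    nlinarith [sq_nonneg ((a ^ 2 - 1) * u + a * v)]
  · rw [if_neg hd] at hr2 ⊢
    have e1 : f (p * n) = a * u := by linarith
    rw [e1] at hr1
    have e2 : f (p * (p * n)) = (a ^ 2 - 1) * u := by
      have : f (p * (p * n)) = a * (a * u) - u := by linarith
      rw [this]; ring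
    rw [e2]
    have b1 : (a ^ 2 - 1) ^ 2 * u ^ 2 ≤ 1 * u ^ 2 := mul_le_mul_of_nonneg_right a2 hu0
    nlinarith

theorem natDvq (f : ℕ → ℝ) (hf : HMul f) (D : Finset ℕ) :
    (∀ p ∈ D, p.Prime ∧ |f p| < 1 / 2) → ∀ N : ℕ,
    ∑ n ∈ (Finset.Icc 1 N).filter (fun n => (∏ p ∈ D, p) ^ 2 ∣ n), f n ^ 2 ≤
    4 ^ D.card * ∑ n ∈ Finset.Icc 1 (N / (∏ p ∈ D, p) ^ 2), f n ^ 2 := by
  classical
  induction D using Finset.induction_on with
  | empty =>
    intro _ N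
    simp
  | insert p D hpD ih =>
    intro hD N
    have hp : p.Prime := (hD p (Finset.mem_insert_self p D)).1
    have hp2 : |f p| < 1 / 2 := (hD p (Finset.mem_insert_self p D)).2
    have hD' : ∀ q ∈ D, q.Prime ∧ |f q| < 1 / 2 :=
      fun q hq => hD q (Finset.mem_insert_of_mem hq)
    have hc0 := coprime_prod hp (fun q hq => (hD' q hq).1) hpD
    rw [Finset.prod_insert hpD, Finset.card_insert_of_notMem hpD]
    set Q := ∏ q ∈ D, q with hQ
    have hc : Nat.Coprime p (Q ^ 2) := hc0.pow_right 2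
    have e0 : (p * Q) ^ 2 = p ^ 2 * Q ^ 2 := mul_pow p Q 2
    rw [e0]
    rw [reidx (p ^ 2) (Q ^ 2) N (pow_pos hp.pos 2)]
    have key : ∀ n ∈ (Finset.Icc 1 (N / p ^ 2)).filter (fun n => Q ^ 2 ∣ n),
        f (p ^ 2 * n) ^ 2 ≤ 2 * f n ^ 2 + 2 * (if p ∣ n then f (n / p) ^ 2 else 0) := by
      intro n hn
      rw [Finset.mem_filter, Finset.mem_Icc] at hn
      exact point f hf hp hn.1.1 hp2
    have e1 : ∑ n ∈ (Finset.Icc 1 (N / p ^ 2)).filter (fun n => Q ^ 2 ∣ n),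
        (2 * f n ^ 2 + 2 * (if p ∣ n then f (n / p) ^ 2 else 0)) =
        2 * ∑ n ∈ (Finset.Icc 1 (N / p ^ 2)).filter (fun n => Q ^ 2 ∣ n), f n ^ 2 +
        2 * ∑ n ∈ (Finset.Icc 1 (N / p ^ 2 / p)).filter (fun n => Q ^ 2 ∣ n), f n ^ 2 := by
      rw [Finset.sum_add_distrib, ← Finset.mul_sum, ← Finset.mul_sum,
        second p (Q ^ 2) (N / p ^ 2) hp.pos hc (fun n => f n ^ 2)]
    have i1 := ih hD' (N / p ^ 2)
    have i2 := ih hD' (N / p ^ 2 / p)
    have m1 : ∑ n ∈ Finset.Icc 1 (N / p ^ 2 / p / Q ^ 2), f n ^ 2 ≤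
        ∑ n ∈ Finset.Icc 1 (N / p ^ 2 / Q ^ 2), f n ^ 2 :=
      sum_mono f (Nat.div_le_div_right (Nat.div_le_self _ _))
    have e2 : N / p ^ 2 / Q ^ 2 = N / (p ^ 2 * Q ^ 2) := Nat.div_div_eq_div_mul N (p ^ 2) (Q ^ 2)
    rw [← e2]
    set S := ∑ n ∈ Finset.Icc 1 (N / p ^ 2 / Q ^ 2), f n ^ 2 with hS
    have hk0 : (0 : ℝ) ≤ 4 ^ D.card := by positivity
    calc ∑ n ∈ (Finset.Icc 1 (N / p ^ 2)).filter (fun n => Q ^ 2 ∣ n), f (p ^ 2 * n) ^ 2
        ≤ _ := Finset.sum_le_sum key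
      _ = _ := e1
      _ ≤ 2 * (4 ^ D.card * S) + 2 * (4 ^ D.card * S) := by
          have a2 : ∑ n ∈ (Finset.Icc 1 (N / p ^ 2 / p)).filter (fun n => Q ^ 2 ∣ n), f n ^ 2 ≤
              4 ^ D.card * S :=
            i2.trans (mul_le_mul_of_nonneg_left m1 hk0)
          linarith
      _ = 4 ^ (D.card + 1) * S := by ring

end Pool.Agent.A54.Ef.DvqM

namespace Pool.Agent.A54.Ef

open DvqM in
theorem stmtDvq : StmtDvq := by
  intro f hf D z hD
  have h := natDvq f hf D hD ⌊z⌋₊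
  have e : z / (((∏ p ∈ D, p : ℕ) : ℝ) ^ 2) = z / (((∏ p ∈ D, p) ^ 2 : ℕ) : ℝ) := by
    rw [Nat.cast_pow]
  rw [SF, e, Nat.floor_div_natCast]
  exact h

end Pool.Agent.A54.Ef
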