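import Pool.Agent.Lib.MP_a54f13_nt.Ef.SpecS

/-! Pigeonhole over the dyadic classes. -/

set_option autoImplicit false

namespace Pool.Agent.A54.Ef

open MeasureTheory Filter Topology Set
open scoped ContDiff ComplexConjugate UpperHalfPlane MatrixGroups ENNReal

noncomputable section

theorem stmtPig (hChQ : StmtChQ) : StmtPig := by
  classical
  obtain ⟨q0, hq0, hch⟩ := hChQ
  refine ⟨max q0 81, hq0.trans (le_max_left _ _), fun f q hq => ?_⟩
  have hqq0 : q0 ≤ q := (le_max_left _ _).trans hq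
  have hq81 : 81 ≤ q := (le_max_right _ _).trans hq
  have hqpos : 0 < q := by linarith
  by_contra hno
  rw [not_or, not_or] at hno
  obtain ⟨hA, hB, hC⟩ := hno
  have hcard := hch q hqq0
  set P := (Finset.Icc 1 ⌊4 * q⌋₊).filter (fun p : ℕ => p.Prime ∧ q < (p : ℝ)) with hP
  have hPmem : ∀ p ∈ P, p.Prime ∧ q < (p : ℝ) ∧ (p : ℝ) ≤ 4 * q := by
    intro p hp
    rw [hP, Finset.mem_filter, Finset.mem_Icc] at hp
    exact ⟨hp.2.1, hp.2.2, (Nat.cast_le.mpr hp.1.2).trans (Nat.floor_le (by linarith))⟩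
  have hsmall : ∀ p ∈ P, f p ^ 2 < q ^ (1 / 4 : ℝ) / 288 := by
    intro p hp
    by_contra h
    push Not at h
    exact hA ⟨p, (hPmem p hp).1, (hPmem p hp).2.1, (hPmem p hp).2.2, h⟩
  set v := q ^ (1 / 4 : ℝ) with hv
  have hv3 : 3 ≤ v := by
    calc (3 : ℝ) = (81 : ℝ) ^ (1 / 4 : ℝ) := by
          rw [show (81 : ℝ) = 3 ^ (4 : ℝ) by norm_num, ← Real.rpow_mul (by norm_num)]
          norm_num
      _ ≤ v := Real.rpow_le_rpow (by norm_num) hq81 (by norm_num)
  have hv2 : q ^ (1 / 2 : ℝ) = v ^ 2 := by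
    rw [hv, ← Real.rpow_natCast, ← Real.rpow_mul hqpos.le]
    norm_num
  have hv3' : q ^ (3 / 4 : ℝ) = v ^ 3 := by
    rw [hv, ← Real.rpow_natCast, ← Real.rpow_mul hqpos.le]
    norm_num
  set D0 := P.filter (fun p => |f p| < 1 / 2) with hD0
  have hD0c : (D0.card : ℝ) < v ^ 2 := by
    by_contra h
    push Not at h
    apply hB
    refine ⟨D0, fun p hp => ?_, by rw [hv2]; exact h⟩
    rw [hD0, Finset.mem_filter] at hp
    obtain ⟨h1, h2, h3⟩ := hPmem p hp.1
    exact ⟨h1, h2, h3, hp.2⟩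
  set D : ℕ → Finset ℕ := fun j => P.filter (fun p => (2 : ℝ) ^ j ≤ 4 * f p ^ 2 ∧
    4 * f p ^ 2 < 2 ^ (j + 1)) with hD
  have hDc : ∀ j, ((D j).card : ℝ) < v ^ 2 := by
    intro j
    by_contra h
    push Not at h
    apply hC
    have hne : (D j).Nonempty := by
      rw [← Finset.card_pos]
      have : (0 : ℝ) < (D j).card := lt_of_lt_of_le (by positivity) h
      exact_mod_cast this
    obtain ⟨p0, hp0⟩ := hne
    have hp0' := hp0
    rw [hD, Finset.mem_filter] at hp0'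
    have h1 := hsmall p0 hp0'.1
    have h2 := hp0'.2.1
    have h3 : (1 : ℝ) ≤ 2 ^ j := one_le_pow₀ (by norm_num)
    refine ⟨D j, 2 ^ j / 4, by linarith, by linarith, fun p hp => ?_, by rw [hv2]; exact h⟩
    rw [hD, Finset.mem_filter] at hp
    obtain ⟨h4, h5, h6⟩ := hPmem p hp.1
    refine ⟨h4, h5, h6, by linarith [hp.2.1], ?_⟩
    have h7 := hp.2.2
    have h8 : (2 : ℝ) ^ (j + 1) = 2 ^ j * 2 := pow_succ 2 j
    linarith
  set K := ⌈v / 72⌉₊ with hK
  have hKle : (K : ℝ) ≤ v / 72 + 1 := (Nat.ceil_lt_add_one (by positivity)).le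
  have hcover : P ⊆ D0 ∪ (Finset.range K).biUnion D := by
    intro p hp
    rw [Finset.mem_union]
    rcases lt_or_ge |f p| (1 / 2) with h | h
    · left
      rw [hD0, Finset.mem_filter]
      exact ⟨hp, h⟩
    · right
      have h1 : 1 / 4 ≤ f p ^ 2 := by
        rw [← sq_abs]
        nlinarith
      obtain ⟨j, hj1, hj2⟩ := exists_nat_pow_near (x := 4 * f p ^ 2) (y := 2) (by linarith)
        (by norm_num)
      rw [Finset.mem_biUnion]
      refine ⟨j, ?_, ?_⟩
      · rw [Finset.mem_range, hK, Nat.lt_ceil]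
        have h2 : (j : ℝ) < 2 ^ j := by exact_mod_cast Nat.lt_two_pow_self
        have h3 := hsmall p hp
        linarith
      · rw [hD, Finset.mem_filter]
        exact ⟨hp, hj1, hj2⟩
  have h1 := (Finset.card_le_card hcover).trans ((Finset.card_union_le _ _).trans
    (Nat.add_le_add_left Finset.card_biUnion_le _))
  have h2 : (P.card : ℝ) ≤ (D0.card : ℝ) + ∑ j ∈ Finset.range K, ((D j).card : ℝ) := by
    exact_mod_cast h1
  have h3 : ∑ j ∈ Finset.range K, ((D j).card : ℝ) ≤ K * v ^ 2 := by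
    calc ∑ j ∈ Finset.range K, ((D j).card : ℝ) ≤ ∑ _j ∈ Finset.range K, v ^ 2 :=
          Finset.sum_le_sum fun j _ => (hDc j).le
      _ = K * v ^ 2 := by rw [Finset.sum_const, Finset.card_range, nsmul_eq_mul]
  rw [hv3'] at hcard
  have h4 : v ^ 3 < v ^ 2 * (2 + v / 72) := by
    have h5 : (K : ℝ) * v ^ 2 ≤ (v / 72 + 1) * v ^ 2 :=
      mul_le_mul_of_nonneg_right hKle (by positivity)
    linarith
  have h5 : v ^ 3 = v ^ 2 * v := by ring
  rw [h5] at h4
  have h6 := lt_of_mul_lt_mul_left h4 (by positivity)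
  linarith

end

end Pool.Agent.A54.Ef
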