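import Pool.Agent.Lib.MP_a54f13_nt.Av.SpecN

/-!
# Package `Ef`, part S: no escape of mass (after Soundararajan), with a power of the height

GOAL (helper54): `StmtCus`: `∫_{fdo, im > Y} f² ≤ C Y^(-1/4)` for all Hecke–Maass forms of level one. The main
step is `StmtSnd`: for Hecke multiplicative `f`, `∑_{n ≤ x/y} f(n)² ≤ C y^(-1/4) ∑_{n ≤ x} f(n)²`.

Every module: file `Pool/Agent/Lib/MP_a54f13_nt/Ef/<Name>.lean`, importing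
`Pool.Agent.Lib.MP_a54f13_nt.Ef.SpecS` and what is named in the task, private names in
`namespace Pool.Agent.A54.Ef.<Name>M`, final theorem `Pool.Agent.A54.Ef.stmt<Name>`; the other Props used
are hypotheses of the theorem.
-/

set_option autoImplicit false

namespace Pool.Agent.A54.Ef

open MeasureTheory Filter Topology Set
open scoped ContDiff ComplexConjugate UpperHalfPlane MatrixGroups ENNReal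
open Pool.Agent.A54.Half (H0)

noncomputable section

/-- Hecke multiplicative functions (only the relations for primes) -/
structure HMul (f : ℕ → ℝ) : Prop where
  one : f 1 = 1
  rel : ∀ p n : ℕ, p.Prime → 1 ≤ n → f p * f n = f (p * n) + if p ∣ n then f (n / p) else 0

/-- `S(z) = ∑_{1 ≤ n ≤ z} f(n)²` -/
def SF (f : ℕ → ℝ) (z : ℝ) : ℝ := ∑ n ∈ Finset.Icc 1 ⌊z⌋₊, f n ^ 2

/-- **Dvd** multiples of a product of primes. Proof. Induction on `D`. Let `p ∉ D'`, `D = D' ∪ {p}`, `P' = ∏ D'`. If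
`p P' ∣ n`, `n = p n'` with `P' ∣ n'` and `f(n)² = (f(p) f(n') - 1_{p ∣ n'} f(n'/p))² ≤ 2 f(p)² f(n')² +
2 · 1_{p ∣ n'} f(n'/p)²`. Here `n' ≤ z/p`, and `n'/p ≤ z/p²` is divisible by `P'` (`p` does not divide `P'`). So by
induction the sum is at most `∏_{D'} (2f² + 2) [2 f(p)² S(z/(p P')) + 2 S(z/(p² P'))]`, and `S` is monotone. -/
def StmtDvd : Prop := ∀ f : ℕ → ℝ, HMul f → ∀ (D : Finset ℕ) (z : ℝ), (∀ p ∈ D, p.Prime) →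
  ∑ n ∈ (Finset.Icc 1 ⌊z⌋₊).filter (fun n => (∏ p ∈ D, p) ∣ n), f n ^ 2 ≤
    (∏ p ∈ D, (2 * f p ^ 2 + 2)) * SF f (z / ((∏ p ∈ D, p : ℕ) : ℝ))

/-- **Dvq** multiples of the square of a product of primes with `|f(p)| < 1/2`. Proof. As `Dvd`, with
`f(p² n') = f(p) (f(p) f(n') - 1_{p ∣ n'} f(n'/p)) - f(n') = (f(p)² - 1) f(n') - 1_{p ∣ n'} f(p) f(n'/p)` (apply `rel` to
`p n'` and to `n'`), so `f(p² n')² ≤ 2 f(n')² + 2 · 1_{p ∣ n'} f(n'/p)²`. -/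
def StmtDvq : Prop := ∀ f : ℕ → ℝ, HMul f → ∀ (D : Finset ℕ) (z : ℝ),
  (∀ p ∈ D, p.Prime ∧ |f p| < 1 / 2) →
  ∑ n ∈ (Finset.Icc 1 ⌊z⌋₊).filter (fun n => (∏ p ∈ D, p) ^ 2 ∣ n), f n ^ 2 ≤
    4 ^ D.card * SF f (z / (((∏ p ∈ D, p : ℕ) : ℝ) ^ 2))

/-- **Big** a prime with a large value. Proof. For `n = p^a m`, `p ∤ m`: `f(p^{j+1} m) = f(p) f(p^j m) - f(p^{j-1} m)`
(without the last term for `j = 0`), and by induction `|f(p^{j-1} m)| ≤ |f(p^j m)|` and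
`|f(p^{j+1} m)| ≥ (|f(p)| - 1) |f(p^j m)|`. So `f(p n)² ≥ (|f(p)| - 1)² f(n)²` for all `n ≥ 1`; sum over `n ≤ z/p`. -/
def StmtBig : Prop := ∀ f : ℕ → ℝ, HMul f → ∀ (p : ℕ) (z : ℝ), p.Prime → 3 ≤ |f p| →
  (|f p| - 1) ^ 2 * SF f (z / p) ≤ SF f z

/-- **ChQ** primes in `(q, 4q]` (Mathlib: `Chebyshev.theta_le_log4_mul_x`, `Chebyshev.theta_ge'`, in
`Mathlib/NumberTheory/Chebyshev.lean`). Proof. `θ(4q) - θ(q) ≥ 4q log 2 - o(q) - q log 4 = 2 q log 2 - o(q)`, and it is at most the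
number of these primes times `log(4q)`. -/
def StmtChQ : Prop := ∃ q0 : ℝ, 1 ≤ q0 ∧ ∀ q : ℝ, q0 ≤ q →
  q ^ (3 / 4 : ℝ) ≤ (((Finset.Icc 1 ⌊4 * q⌋₊).filter (fun p : ℕ => p.Prime ∧ q < (p : ℝ))).card : ℝ)

/-- the three cases for the primes in `(q, 4q]` -/
def CA (f : ℕ → ℝ) (q : ℝ) : Prop := ∃ p : ℕ, p.Prime ∧ q < p ∧ (p : ℝ) ≤ 4 * q ∧
  q ^ (1 / 4 : ℝ) / 288 ≤ f p ^ 2

def CB (f : ℕ → ℝ) (q : ℝ) : Prop := ∃ D : Finset ℕ, (∀ p ∈ D, p.Prime ∧ q < (p : ℝ) ∧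
  (p : ℝ) ≤ 4 * q ∧ |f p| < 1 / 2) ∧ q ^ (1 / 2 : ℝ) ≤ (D.card : ℝ)

def CC (f : ℕ → ℝ) (q : ℝ) : Prop := ∃ (D : Finset ℕ) (L : ℝ), 1 / 4 ≤ L ∧ 288 * L ≤ q ^ (1 / 4 : ℝ) ∧
  (∀ p ∈ D, p.Prime ∧ q < (p : ℝ) ∧ (p : ℝ) ≤ 4 * q ∧ L ≤ f p ^ 2 ∧ f p ^ 2 ≤ 2 * L) ∧
  q ^ (1 / 2 : ℝ) ≤ (D.card : ℝ)

/-- **Pig** (uses `ChQ`). Proof. If `CA` fails, every prime in `(q, 4q]` has `|f(p)| < 1/2` or
`2^j/4 ≤ f(p)² < 2^{j+1}/4` for some `0 ≤ j ≤ J` with `2^J/4 < q^{1/4}/288` (`J + 2 ≤ q^{1/4}` for large `q`). There are at least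
`q^{3/4}` primes, so one of these at most `q^{1/4}` classes has at least `q^{1/2}` elements; `L = 2^j/4`. -/
def StmtPig : Prop := ∃ q0 : ℝ, 1 ≤ q0 ∧ ∀ (f : ℕ → ℝ) (q : ℝ), q0 ≤ q → CA f q ∨ CB f q ∨ CC f q

/-- the hypothesis of the induction: `S(x/z) ≤ M z^(-1/4) S(x)` for all `z ≥ 1` -/
def Ind (f : ℕ → ℝ) (x M : ℝ) : Prop := ∀ z : ℝ, 1 ≤ z → SF f (x / z) ≤ M * z ^ (-(1 / 4 : ℝ)) * SF f x

/-- **CaA** (uses `Big`). Proof. For large `q`, `f(p)² ≥ q^{1/4}/288 ≥ 9`. `S(x/(16q²)) ≤ S(x/p²) ≤ (|f(p)|-1)⁻⁴ S(x)` (`Big`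
twice, `p² ≤ 16q²`), `|f(p)| - 1 ≥ (2/3)|f(p)|`, so it is at most `6 · 288² q^{-1/2} S(x)`, and
`q^{-1/2} = 2 (16q²)^{-1/4}`. -/
def StmtCaA : Prop := ∃ C q0 : ℝ, 0 ≤ C ∧ 1 ≤ q0 ∧ ∀ (f : ℕ → ℝ) (q x : ℝ), HMul f → q0 ≤ q → CA f q →
  SF f (x / (16 * q ^ 2)) ≤ C * (16 * q ^ 2) ^ (-(1 / 4 : ℝ)) * SF f x

/-- **CaB** (uses `Dvd`, `Dvq`). Proof. `y = 16q²`, `P = #D ≥ q^{1/2}`, `k + 1 = ⌈24 P q^{-1/2}⌉ ≥ 1`, `h = ⌊P/2⌋ + 1`. For `n ≤ x/y`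
let `ω(n) = #{p ∈ D : p ∣ n}`, `v(n) = #{p ∈ D : p² ∣ n}`; call `n` good if `ω(n) ≤ P/2` and `v(n) ≤ k`. If `n` is good, `p ∈ D`,
`p ∤ n`: `f(p² n)² = (f(p)² - 1)² f(n)² ≥ f(n)²/2` and `p² n ≤ x`; so
`(P/4) ∑_{good} f(n)² ≤ ∑_{N ≤ x} f(N)² #{p ∈ D : p² ∣ N, p ∤ N/p², v(N/p²) ≤ k} ≤ (k+1) S(x)` (if there is such a `p`,
then `v(N) ≤ k + 1`). Bad `n`: `ω(n) > P/2`: `n` is divisible by `∏ D'` for some `D' ⊆ D`, `#D' = h`; by `Dvd` and `Ind`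
(`z = y ∏ D'`, `∏ D' ≥ q^h`) the sum is at most `2^P (5/2)^h M y^{-1/4} q^{-h/4} S(x) ≤ (10 q^{-1/4})^h M y^{-1/4} S(x) ≤
(1/8) M y^{-1/4} S(x)` for large `q` (`2^P ≤ 4^h`). `v(n) ≥ k + 1`: by `Dvq` at most
`C(P,k+1) 4^{k+1} M y^{-1/4} q^{-(k+1)/2} S(x)` and `C(P,j) ≤ (3P/j)^j`, so at most
`(12 P q^{-1/2}/(k+1))^{k+1} M y^{-1/4} S(x) ≤ (1/2) M y^{-1/4} S(x)`. Good: `4(k+1)/P ≤ 4 (24 q^{-1/2} + 1/P) ≤ 100 q^{-1/2}`. -/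
def StmtCaB : Prop := ∃ C q0 : ℝ, 0 ≤ C ∧ 1 ≤ q0 ∧ ∀ (f : ℕ → ℝ) (q x M : ℝ), HMul f → q0 ≤ q →
  1 ≤ M → Ind f x M → CB f q →
    SF f (x / (16 * q ^ 2)) ≤ (C + 3 / 4 * M) * (16 * q ^ 2) ^ (-(1 / 4 : ℝ)) * SF f x

/-- **CaC** (uses `Dvd`). Proof. `y = 16q²`, `P = #D ≥ q^{1/2}`, `k + 1 = ⌈72 L P q^{-1/4}⌉`, so `k ≤ P/4`. `n ≤ x/y` is good if
`ω(n) ≤ k`. For good `n` and `p < p'` in `D` not dividing `n`: `f(p p' n)² = f(p)² f(p')² f(n)² ≥ L² f(n)²`, `p p' n ≤ x`; there are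
at least `P²/8` such pairs (`P` large); every `N ≤ x` occurs at most `(k+2)²/2` times (`ω(N) ≤ k + 2`, and `p p' ∣ N`). So
`∑_{good} f(n)² ≤ 4 ((k+2)/(L P))² S(x) ≤ C q^{-1/2} S(x)`, as `(k+2)/(LP) ≤ 72 q^{-1/4} + 8/P`. Bad `n`: divisible by `∏ D'`,
`#D' = k+1`; by `Dvd` (`2f(p)² + 2 ≤ 4L + 2 ≤ 12 L`) and `Ind` the sum is at most
`C(P,k+1) (12 L)^{k+1} M y^{-1/4} q^{-(k+1)/4} S(x) ≤ (36 L P q^{-1/4}/(k+1))^{k+1} M y^{-1/4} S(x) ≤ (1/2) M y^{-1/4} S(x)`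
(`C(P,j) ≤ (3P/j)^j`). -/
def StmtCaC : Prop := ∃ C q0 : ℝ, 0 ≤ C ∧ 1 ≤ q0 ∧ ∀ (f : ℕ → ℝ) (q x M : ℝ), HMul f → q0 ≤ q →
  1 ≤ M → Ind f x M → CC f q →
    SF f (x / (16 * q ^ 2)) ≤ (C + 3 / 4 * M) * (16 * q ^ 2) ^ (-(1 / 4 : ℝ)) * SF f x

/-- **Snd** (uses `Pig`, `CaA`, `CaB`, `CaC`). Proof. Fix `f, x`. `Ind f x M` holds for `M = max(1,x)^{1/4}` (`S(x/z) ≤ S(x)`, and
`S(x/z) = 0` for `z > x`). If `Ind f x M`, `M ≥ 1`, then `Ind f x (C + (3/4) M)` with `C` independent of `f, x, M`: for `z ≥ 16 q0²` put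
`q = √z/4` and use the three cases; for `z ≤ 16 q0²`, `S(x/z) ≤ S(x) ≤ (16q0²)^{1/4} z^{-1/4} S(x)`. Iterate `j` times and let
`j → ∞`: `Ind f x (4 C)` (take `C ≥ 1`, so that all constants are `≥ 1`). -/
def StmtSnd : Prop := ∃ C : ℝ, 0 ≤ C ∧ ∀ (f : ℕ → ℝ) (x y : ℝ), HMul f → 1 ≤ y →
  SF f (x / y) ≤ C * y ^ (-(1 / 4 : ℝ)) * SF f x

/-- **HkR** Hecke relations for the Fourier coefficients (uses `Av.StmtFo1`, `Av.StmtRho`, `Av.StmtKBf`). Proof. For `n ≥ 1` let `c(n)` be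
the eigenvalue (`hecke`), `λ(n) = c(n)/√n`, `λ(0) = 0`. `Fo1` (5): `a_n(y) = (c(n)/n) a_1(n y)`; `a_1(y1) ≠ 0` for some `y1 > 0` (`Rho`,
`KBf` (6)), so `c(1) = 1`. Prime relation: the `n`-th Fourier coefficient of `T_p f = c(p) f` at height `y`: the terms of `d = 1`
give `1_{p ∣ n} a_{n/p}(p y)`, the terms of `d = p`, summed over `b mod p`, give `p a_{pn}(y/p)`. Insert `Fo1` (5) and
divide by `a_1(n y)`, `n y = y1`: `1_{p ∣ n} p c(n/p)/n + c(pn)/n = c(p) c(n)/n`. (See the proof of `Fo1` (5) in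
`Av/Fo1.lean`.) -/
def StmtHkR : Prop := ∀ (f : ℍ → ℝ) (t : ℝ), IsHeckeMaass f t → ∃ l : ℕ → ℝ, HMul l ∧
  ∀ n : ℕ, 1 ≤ n → ∀ y : ℝ, 0 < y →
    ‖Av.an f n y‖ ^ 2 = l n ^ 2 / n * ‖Av.an f 1 (n * y)‖ ^ 2

/-- **Cus** no escape of mass (uses `Snd`, `HkR`, `Av.StmtFo1`). Proof. For `y > 1`, `fdo` is the strip `|x| < 1/2`, so with
`E(y) = ∫_0^1 f(x+iy)² dx = ∑_n |a_n(y)|² = 2 ∑_{n ≥ 1} |a_n(y)|²` (Parseval; `a_0 = 0`, `a_{-n} = conj a_n`) and `HkR`, for `Y ≥ 1`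
(all integrals of nonnegative functions, substitution `u = n y`):
`∫_{fdo, im > Y} f² = ∫_Y^∞ E(y) dy/y² = 2 ∑_n λ(n)² ∫_{nY}^∞ |a_1(u)|² du/u² = 2 ∫_0^∞ |a_1(u)|² S(u/Y) du/u²
≤ C Y^{-1/4} 2 ∫_0^∞ |a_1(u)|² S(u) du/u² = C Y^{-1/4} ∫_{fdo, im > 1} f² ≤ C Y^{-1/4} π/3`. -/
def StmtCus : Prop := ∃ C : ℝ, 0 ≤ C ∧ ∀ (f : ℍ → ℝ) (t : ℝ), IsHeckeMaass f t → ∀ Y : ℝ, 1 ≤ Y →
  ∫ z in ModularGroup.fdo ∩ {z : ℍ | Y < z.im}, f z ^ 2 ≤ C * Y ^ (-(1 / 4 : ℝ))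

end

end Pool.Agent.A54.Ef
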