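import Pool.Agent.Lib.MP_a54f13_nt.Ef.SpecS
import Pool.Agent.Lib.MP_a54f13_nt.Av.Fo1

/-! Hecke relations for the Fourier coefficients. -/

set_option autoImplicit false

namespace Pool.Agent.A54.Ef

open MeasureTheory Filter Topology Set
open scoped ContDiff ComplexConjugate UpperHalfPlane MatrixGroups ENNReal
open Pool.Agent.A54.Half (H0)
open Pool.Agent.A54.Av (ee an KB IsHk IsRho)

noncomputable section

namespace HkRM

open Pool.Agent.A54.Av.Fo1M (cf ee_add ee_int cont_ee cf_shift Fl an_eq Fl_smooth Fl_per)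

/-- the sum over a complete residue system -/
lemma gen {G : ℝ → ℂ} (hc : Continuous G) {d : ℕ} (hd : 0 < d) (n : ℤ) :
    ∑ b ∈ Finset.range d, ∫ x in (0 : ℝ)..1, G ((x + b) / d) * ee (-((n : ℂ) * x)) =
      (d : ℂ) * cf G (d * n) := by
  have hd' : (d : ℝ) ≠ 0 := by positivity
  have hdC : (d : ℂ) ≠ 0 := by exact_mod_cast hd'
  have hcont : Continuous fun x : ℝ => G (x / d) * ee (-((n : ℂ) * x)) := by
    have := cont_ee
    fun_prop
  have h1 : ∀ b : ℕ, ∫ x in (0 : ℝ)..1, G ((x + b) / d) * ee (-((n : ℂ) * x)) =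
      ∫ x in (b : ℝ)..((b + 1 : ℕ) : ℝ), G (x / d) * ee (-((n : ℂ) * x)) := by
    intro b
    have := intervalIntegral.integral_comp_add_right (a := (0 : ℝ)) (b := 1)
      (fun x : ℝ => G (x / d) * ee (-((n : ℂ) * x))) (b : ℝ)
    rw [zero_add, add_comm (1 : ℝ) (b : ℝ)] at this
    push_cast
    rw [← this]
    refine intervalIntegral.integral_congr fun x _ => ?_
    show G ((x + b) / d) * ee (-((n : ℂ) * x)) =
      G ((x + b) / d) * ee (-((n : ℂ) * ((x + b : ℝ) : ℂ)))
    congr 1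
    have : (-((n : ℂ) * ((x + b : ℝ) : ℂ))) = -((n : ℂ) * x) + ((-(n * (b : ℤ)) : ℤ) : ℂ) := by
      push_cast; ring
    rw [this, ee_add, ee_int, mul_one]
  have h2 : ∑ b ∈ Finset.range d, ∫ x in (0 : ℝ)..1, G ((x + b) / d) * ee (-((n : ℂ) * x)) =
      ∫ x in (0 : ℝ)..(d : ℝ), G (x / d) * ee (-((n : ℂ) * x)) := by
    rw [Finset.sum_congr rfl fun b _ => h1 b]
    have := intervalIntegral.sum_integral_adjacent_intervals (a := fun k : ℕ => (k : ℝ)) (n := d)
      (μ := volume) (f := fun x : ℝ => G (x / d) * ee (-((n : ℂ) * x)))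
      (fun k _ => hcont.intervalIntegrable _ _)
    rw [this]
    simp
  rw [h2]
  have h3 := intervalIntegral.integral_comp_mul_left (a := (0 : ℝ)) (b := 1)
    (fun x : ℝ => G (x / d) * ee (-((n : ℂ) * x))) hd'
  rw [mul_zero, mul_one] at h3
  have h4 : ∫ x in (0 : ℝ)..(d : ℝ), G (x / d) * ee (-((n : ℂ) * x)) =
      (d : ℂ) * ∫ x in (0 : ℝ)..1, G ((d : ℝ) * x / d) * ee (-((n : ℂ) * (((d : ℝ) * x : ℝ) : ℂ))) := by
    rw [h3, Complex.real_smul]
    push_cast
    rw [← mul_assoc, mul_inv_cancel₀ hdC, one_mul]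
  rw [h4]
  congr 1
  unfold cf
  refine intervalIntegral.integral_congr fun x _ => ?_
  show G ((d : ℝ) * x / d) * ee (-((n : ℂ) * (((d : ℝ) * x : ℝ) : ℂ))) =
    G x * ee (-((((d : ℤ) * n : ℤ) : ℂ) * x))
  rw [mul_div_cancel_left₀ _ hd']
  congr 2
  push_cast
  ring

/-- dilation -/
lemma dil {G : ℝ → ℂ} (hc : Continuous G) (hp : ∀ x, G (x + 1) = G x) {p : ℕ} (hp0 : 0 < p)
    (n : ℤ) : ∫ x in (0 : ℝ)..1, G (p * x) * ee (-((n : ℂ) * x)) =
      if (p : ℤ) ∣ n then cf G (n / p) else 0 := by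
  have hpR : (p : ℝ) ≠ 0 := by positivity
  have hpC : (p : ℂ) ≠ 0 := by exact_mod_cast hpR
  split_ifs with h
  · obtain ⟨m, rfl⟩ := h
    have hpZ : (p : ℤ) ≠ 0 := by positivity
    rw [Int.mul_ediv_cancel_left _ hpZ]
    have hper : Function.Periodic (fun x : ℝ => G x * ee (-((m : ℂ) * x))) 1 := by
      intro x
      show G (x + 1) * ee (-((m : ℂ) * ((x + 1 : ℝ) : ℂ))) = G x * ee (-((m : ℂ) * x))
      rw [hp x]
      congr 1
      have : (-((m : ℂ) * ((x + 1 : ℝ) : ℂ))) = -((m : ℂ) * x) + ((-m : ℤ) : ℂ) := by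
        push_cast; ring
      rw [this, ee_add, ee_int, mul_one]
    have hcH : Continuous fun x : ℝ => G x * ee (-((m : ℂ) * x)) := by
      have := cont_ee
      fun_prop
    have h1 := hper.intervalIntegral_add_zsmul_eq p 0 (fun a b => hcH.intervalIntegrable a b)
    have h3 := intervalIntegral.integral_comp_mul_left (a := (0 : ℝ)) (b := 1)
      (fun x : ℝ => G x * ee (-((m : ℂ) * x))) hpR
    rw [mul_zero, mul_one] at h3
    have h4 : ∫ x in (0 : ℝ)..1, G (p * x) * ee (-((((p : ℤ) * m : ℤ) : ℂ) * x)) =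
        ∫ x in (0 : ℝ)..1, G ((p : ℝ) * x) * ee (-((m : ℂ) * (((p : ℝ) * x : ℝ) : ℂ))) := by
      refine intervalIntegral.integral_congr fun x _ => ?_
      show G (p * x) * ee (-((((p : ℤ) * m : ℤ) : ℂ) * x)) =
        G ((p : ℝ) * x) * ee (-((m : ℂ) * (((p : ℝ) * x : ℝ) : ℂ)))
      congr 2
      push_cast
      ring
    rw [h4, h3]
    have h5 : (0 : ℝ) + (p : ℤ) • (1 : ℝ) = p := by simp
    rw [h5, zero_add] at h1
    rw [h1]
    have h6 : ((p : ℤ) • ∫ x in (0 : ℝ)..1, G x * ee (-((m : ℂ) * x))) =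
        (p : ℂ) * ∫ x in (0 : ℝ)..1, G x * ee (-((m : ℂ) * x)) := by
      rw [zsmul_eq_mul]
      push_cast
      rfl
    rw [h6, Complex.real_smul]
    push_cast
    rw [← mul_assoc, inv_mul_cancel₀ hpC, one_mul]
    rfl
  · set K : ℝ → ℂ := fun x => G (p * x) with hK
    have hKp : ∀ x, K (x + 1) = K x := by
      intro x
      have : ∀ k : ℕ, ∀ x : ℝ, G (x + k) = G x := by
        intro k
        induction k with
        | zero => intro x; simp
        | succ k ih =>
          intro x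
          have e : x + ((k + 1 : ℕ) : ℝ) = (x + k) + 1 := by push_cast; ring
          rw [e, hp, ih]
      show G (p * (x + 1)) = G (p * x)
      rw [mul_add, mul_one]
      exact this p _
    have hKs : ∀ x, K (x + 1 / p) = K x := by
      intro x
      show G (p * (x + 1 / p)) = G (p * x)
      have e : (p : ℝ) * (x + 1 / p) = p * x + 1 := by field_simp
      rw [e, hp]
    have h1 : ∫ x in (0 : ℝ)..1, K x * ee (-((n : ℂ) * x)) =
        ee (-(n / (p : ℂ))) * ∫ x in (0 : ℝ)..1, K x * ee (-((n : ℂ) * x)) := by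
      have s1 := cf_shift hKp n (1 / p)
      have s2 := intervalIntegral.integral_comp_add_right (a := (0 : ℝ)) (b := 1)
        (fun x : ℝ => K x * ee (-((n : ℂ) * x))) (1 / p : ℝ)
      rw [zero_add, add_comm (1 : ℝ) (1 / p : ℝ), s1] at s2
      change cf K n = _
      rw [← s2, ← intervalIntegral.integral_const_mul]
      refine intervalIntegral.integral_congr fun x _ => ?_
      show K (x + 1 / p) * ee (-((n : ℂ) * ((x + 1 / p : ℝ) : ℂ))) =
        ee (-(n / (p : ℂ))) * (K x * ee (-((n : ℂ) * x)))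
      rw [hKs]
      have : (-((n : ℂ) * ((x + 1 / p : ℝ) : ℂ))) = -(n / (p : ℂ)) + -((n : ℂ) * x) := by
        push_cast; ring
      rw [this, ee_add]
      ring
    have h2 : ee (-(n / (p : ℂ))) ≠ 1 := by
      intro h'
      unfold ee at h'
      rw [Complex.exp_eq_one_iff] at h'
      obtain ⟨m, hm⟩ := h'
      have hpi : (Real.pi : ℂ) ≠ 0 := by exact_mod_cast Real.pi_ne_zero
      have h3 : -(n / (p : ℂ)) = (m : ℂ) := by
        have hne : (2 * (Real.pi : ℂ) * Complex.I) ≠ 0 := by simp [hpi]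
        apply mul_left_cancel₀ hne
        rw [hm]; ring
      have h4 : (n : ℂ) = ((p : ℂ) * -(m : ℂ)) := by
        rw [← h3]; field_simp
      have h5 : n = (p : ℤ) * -m := by exact_mod_cast h4
      exact h ⟨-m, h5⟩
    have h3 : (1 - ee (-(n / (p : ℂ)))) * ∫ x in (0 : ℝ)..1, K x * ee (-((n : ℂ) * x)) = 0 := by
      rw [sub_mul, one_mul, ← h1, sub_self]
    rcases mul_eq_zero.1 h3 with h' | h'
    · exact absurd (sub_eq_zero.1 h').symm h2
    · exact h'

/-- the relation for the coefficients -/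
lemma coef {f : ℍ → ℝ} {t : ℝ} (hf : IsHeckeMaass f t) {p : ℕ} (hp : p.Prime) {c : ℝ}
    (hk : IsHk f p c) {Y : ℝ} (hY : 0 < Y) (n : ℤ) :
    (c : ℂ) * an f n Y = (if (p : ℤ) ∣ n then an f (n / p) (p * Y) else 0) +
      (p : ℂ) * an f (p * n) (Y / p) := by
  have hp0 := hp.pos
  have hpR : (0 : ℝ) < p := by exact_mod_cast hp0
  have hpC : (p : ℂ) ≠ 0 := by exact_mod_cast hpR.ne'
  have hid : ∀ x : ℝ, Fl f (p * Y) (p * x) + ∑ b ∈ Finset.range p, Fl f (Y / p) ((x + b) / p) =
      (c : ℂ) * Fl f Y x := by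
    intro x
    let w : ℍ := ⟨⟨x, Y⟩, hY⟩
    have h1 := hk w
    have h2 : f w = ext f ⟨x, Y⟩ := (Half.ext_coe f w).symm
    have hw : (w : ℂ) = ⟨x, Y⟩ := rfl
    rw [h2, hp.divisors, Finset.sum_insert (by simpa using hp.one_lt.ne),
      Finset.sum_singleton, Finset.sum_range_one, Nat.div_one, Nat.div_self hp0] at h1
    unfold Fl
    rw [← Complex.ofReal_mul, ← h1]
    push_cast
    congr 1
    · congr 2
      rw [hw]
      apply Complex.ext
      · simp
      · simp
    · refine Finset.sum_congr rfl fun b _ => ?_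
      congr 2
      rw [hw]
      have e : (p : ℂ) = ((p : ℝ) : ℂ) := by push_cast; rfl
      rw [e]
      apply Complex.ext
      · rw [Complex.div_ofReal_re]
        simp
      · rw [Complex.div_ofReal_im]
        simp
  have hc1 := (Fl_smooth hf (show 0 < p * Y by positivity)).continuous
  have hc2 := (Fl_smooth hf (show 0 < Y / p by positivity)).continuous
  have i1 : IntervalIntegrable (fun x : ℝ => Fl f (p * Y) (p * x) * ee (-((n : ℂ) * x)))
      volume 0 1 := by
    have := cont_ee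
    have hh : Continuous fun x : ℝ => Fl f (p * Y) (p * x) * ee (-((n : ℂ) * x)) := by fun_prop
    exact hh.intervalIntegrable _ _
  have i2 : ∀ b : ℕ, IntervalIntegrable
      (fun x : ℝ => Fl f (Y / p) ((x + b) / p) * ee (-((n : ℂ) * x))) volume 0 1 := by
    intro b
    have := cont_ee
    have hh : Continuous fun x : ℝ => Fl f (Y / p) ((x + b) / p) * ee (-((n : ℂ) * x)) := by
      fun_prop
    exact hh.intervalIntegrable _ _
  have h1 : (c : ℂ) * an f n Y = ∫ x in (0 : ℝ)..1, (Fl f (p * Y) (p * x) * ee (-((n : ℂ) * x)) +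
      ∑ b ∈ Finset.range p, Fl f (Y / p) ((x + b) / p) * ee (-((n : ℂ) * x))) := by
    rw [an_eq]
    unfold cf
    rw [← intervalIntegral.integral_const_mul]
    refine intervalIntegral.integral_congr fun x _ => ?_
    show (c : ℂ) * (Fl f Y x * ee (-((n : ℂ) * x))) = _
    rw [← mul_assoc, ← hid x, add_mul, Finset.sum_mul]
  have i3 : IntervalIntegrable (fun x : ℝ => ∑ b ∈ Finset.range p,
      Fl f (Y / p) ((x + b) / p) * ee (-((n : ℂ) * x))) volume 0 1 := by
    have := IntervalIntegrable.sum (μ := volume) (a := (0 : ℝ)) (b := 1) (Finset.range p)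
      (f := fun (b : ℕ) (x : ℝ) => Fl f (Y / p) ((x + b) / p) * ee (-((n : ℂ) * x)))
      (fun b _ => i2 b)
    refine this.congr fun x _ => ?_
    simp
  rw [h1, intervalIntegral.integral_add i1 i3,
    intervalIntegral.integral_finsetSum fun b _ => i2 b, gen hc2 hp0 n,
    dil hc1 (Fl_per hf (show 0 < p * Y by positivity)) hp0 n]
  rfl

/-- the first coefficient does not vanish identically -/
lemma nz (hR : Av.StmtRho) (hK : Av.StmtKBf) {f : ℍ → ℝ} {t : ℝ} (hf : IsHeckeMaass f t) :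
    ∃ y : ℝ, 0 < y ∧ an f 1 y ≠ 0 := by
  obtain ⟨ρ, hρ, h1⟩ := hR f t hf
  have h2 := (hK t).2.2.2.2
  have hpos : 0 < √(Real.pi / 2) := Real.sqrt_pos.2 (by positivity)
  have h3 := (h2.eventually (lt_mem_nhds hpos)).and (eventually_gt_atTop 0)
  obtain ⟨X, hX, hX0⟩ := h3.exists
  have hKX : KB t X ≠ 0 := by
    intro h
    rw [h, mul_zero] at hX
    exact lt_irrefl _ hX
  have hy : 0 < X / (2 * Real.pi) := by positivity
  refine ⟨X / (2 * Real.pi), hy, ?_⟩
  rw [h1 _ hy]
  have e : 2 * Real.pi * (X / (2 * Real.pi)) = X := by field_simp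
  rw [e]
  refine mul_ne_zero hρ ?_
  have : √(X / (2 * Real.pi)) * KB t X ≠ 0 := mul_ne_zero (Real.sqrt_pos.2 hy).ne' hKX
  exact_mod_cast this

end HkRM

theorem stmtHkR (hF : Av.StmtFo1) (hR : Av.StmtRho) (hK : Av.StmtKBf) : StmtHkR := by
  intro f t hf
  obtain ⟨y1, hy1, hne⟩ := HkRM.nz hR hK hf
  have hex : ∀ m : ℕ, ∃ c : ℝ, 1 ≤ m → IsHk f m c := by
    intro m
    by_cases hm : 1 ≤ m
    · obtain ⟨c, hc⟩ := hf.hecke m hm
      exact ⟨c, fun _ => hc⟩
    · exact ⟨0, fun h => absurd h hm⟩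
  choose c hc using hex
  have h5 := (hF f t hf).2.2.2.2
  have hco : ∀ n : ℕ, 1 ≤ n → ∀ y : ℝ, 0 < y →
      an f n y = ((c n / n : ℝ) : ℂ) * an f 1 (n * y) :=
    fun n hn y hy => h5 n (c n) hn (hc n hn) y hy
  -- the relation for the eigenvalues
  have hrel : ∀ p n : ℕ, p.Prime → 1 ≤ n →
      c p * c n = (if p ∣ n then p * c (n / p) else 0) + c (p * n) := by
    intro p n hp hn
    have hp0 := hp.pos
    have hnR : (0 : ℝ) < n := by exact_mod_cast hn
    have hpR : (0 : ℝ) < p := by exact_mod_cast hp0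
    have hY : 0 < y1 / n := by positivity
    have h := HkRM.coef hf hp (hc p hp0) hY (n : ℤ)
    have e1 : an f (n : ℤ) (y1 / n) = ((c n / n : ℝ) : ℂ) * an f 1 y1 := by
      rw [hco n hn _ hY]
      congr 2
      field_simp
    have e2 : an f ((p : ℤ) * n) (y1 / n / p) = ((c (p * n) / (p * n : ℕ) : ℝ) : ℂ) * an f 1 y1 := by
      have hpn : 1 ≤ p * n := Nat.mul_pos hp0 hn
      have := hco (p * n) hpn (y1 / n / p) (by positivity)
      push_cast at this
      push_cast
      rw [this]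
      congr 2
      field_simp
    have e3 : (if (p : ℤ) ∣ (n : ℤ) then an f ((n : ℤ) / p) (p * (y1 / n)) else 0) =
        (((if p ∣ n then p * c (n / p) / n else 0 : ℝ)) : ℂ) * an f 1 y1 := by
      by_cases hd : p ∣ n
      · have hd' : (p : ℤ) ∣ (n : ℤ) := by exact_mod_cast hd
        rw [if_pos hd', if_pos hd]
        obtain ⟨k, rfl⟩ := hd
        have hk : 1 ≤ k := by
          rcases Nat.eq_zero_or_pos k with h0 | h0
          · rw [h0, mul_zero] at hn; omega
          · exact h0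
        have hkR : (0 : ℝ) < k := by exact_mod_cast hk
        rw [Nat.mul_div_cancel_left _ hp0]
        have e4 : (((p * k : ℕ) : ℤ) / (p : ℤ)) = (k : ℤ) := by
          push_cast
          exact Int.mul_ediv_cancel_left _ (by positivity)
        rw [e4, hco k hk _ (by positivity)]
        have e5 : (k : ℝ) * (p * (y1 / ((p * k : ℕ) : ℝ))) = y1 := by
          push_cast
          field_simp
        rw [e5]
        congr 2
        push_cast
        field_simp
      · have hd' : ¬(p : ℤ) ∣ (n : ℤ) := by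
          intro h0
          exact hd (by exact_mod_cast h0)
        rw [if_neg hd', if_neg hd]
        simp
    rw [e1, e2, e3] at h
    have h6 : (((c p * (c n / n) : ℝ)) : ℂ) * an f 1 y1 =
        ((((if p ∣ n then p * c (n / p) / n else 0) + p * (c (p * n) / (p * n : ℕ)) : ℝ)) : ℂ) *
          an f 1 y1 := by
      push_cast at h ⊢
      linear_combination h
    have h7 := mul_right_cancel₀ hne h6
    have h8 : c p * (c n / n) = (if p ∣ n then p * c (n / p) / n else 0) +
        p * (c (p * n) / (p * n : ℕ)) := by exact_mod_cast h7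
    by_cases hd : p ∣ n
    · rw [if_pos hd] at h8 ⊢
      push_cast at h8
      field_simp at h8
      linarith
    · rw [if_neg hd] at h8 ⊢
      push_cast at h8
      field_simp at h8
      linarith
  have hone : c 1 = 1 := by
    have h := hco 1 le_rfl y1 hy1
    have e : ((1 : ℕ) : ℝ) * y1 = y1 := by simp
    rw [e] at h
    have h6 : ((1 : ℂ)) * an f 1 y1 = ((c 1 / (1 : ℕ) : ℝ) : ℂ) * an f 1 y1 := by
      rw [one_mul]
      exact_mod_cast h
    have h7 := mul_right_cancel₀ hne h6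
    have h8 : (1 : ℝ) = c 1 / (1 : ℕ) := by exact_mod_cast h7
    simpa using h8.symm
  refine ⟨fun n => c n / √n, ⟨by simp [hone], ?_⟩, ?_⟩
  · intro p n hp hn
    have hp0 := hp.pos
    have hnR : (0 : ℝ) < n := by exact_mod_cast hn
    have hpR : (0 : ℝ) < p := by exact_mod_cast hp0
    have hr := hrel p n hp hn
    have hsp : √(p : ℝ) * √(p : ℝ) = p := Real.mul_self_sqrt hpR.le
    have hsp0 : 0 < √(p : ℝ) := Real.sqrt_pos.2 hpR
    have hsn0 : 0 < √(n : ℝ) := Real.sqrt_pos.2 hnR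
    have hspn : √(((p * n : ℕ)) : ℝ) = √(p : ℝ) * √(n : ℝ) := by
      push_cast
      exact Real.sqrt_mul hpR.le _
    show c p / √(p : ℝ) * (c n / √(n : ℝ)) = c (p * n) / √(((p * n : ℕ)) : ℝ) +
      if p ∣ n then c (n / p) / √(((n / p : ℕ)) : ℝ) else 0
    rw [hspn]
    by_cases hd : p ∣ n
    · rw [if_pos hd] at hr ⊢
      obtain ⟨k, rfl⟩ := hd
      have hk : 1 ≤ k := by
        rcases Nat.eq_zero_or_pos k with h0 | h0
        · rw [h0, mul_zero] at hn; omega
        · exact h0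
      have hkR : (0 : ℝ) < k := by exact_mod_cast hk
      have hsk0 : 0 < √(k : ℝ) := Real.sqrt_pos.2 hkR
      rw [Nat.mul_div_cancel_left _ hp0] at hr ⊢
      have hspk : √(((p * k : ℕ)) : ℝ) = √(p : ℝ) * √(k : ℝ) := by
        push_cast
        exact Real.sqrt_mul hpR.le _
      rw [hspk]
      have e1 : c p / √(p : ℝ) * (c (p * k) / (√(p : ℝ) * √(k : ℝ))) =
          (c p * c (p * k)) / (p * √(k : ℝ)) := by
        rw [div_mul_div_comm, ← mul_assoc, hsp]
      have e2 : √(p : ℝ) * (√(p : ℝ) * √(k : ℝ)) = p * √(k : ℝ) := by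
        rw [← mul_assoc, hsp]
      rw [e1, e2, hr]
      field_simp
      ring
    · rw [if_neg hd] at hr ⊢
      rw [add_zero, div_mul_div_comm, hr, zero_add]
  · intro n hn y hy
    have hnR : (0 : ℝ) < n := by exact_mod_cast hn
    rw [hco n hn y hy, norm_mul, mul_pow, Complex.norm_real, Real.norm_eq_abs, sq_abs]
    congr 1
    show (c n / n) ^ 2 = (c n / √(n : ℝ)) ^ 2 / n
    rw [div_pow (c n) (√(n : ℝ)), Real.sq_sqrt hnR.le]
    field_simp

end

end Pool.Agent.A54.Ef
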