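import Pool.Agent.Lib.MP_a54f13_nt.Ef.Spec
import Pool.Agent.Lib.MP_a54f13_nt.Av.BP

/-! The geometric side, with explicit parameters. -/

set_option autoImplicit false

namespace Pool.Agent.A54.Ef

open MeasureTheory Filter Topology Set
open scoped ContDiff ComplexConjugate UpperHalfPlane MatrixGroups ENNReal
open Pool.Agent.A54.Half (H0 qq ff hh)
open Pool.Agent.A54.Pl (Ed)
open Pool.Agent.A54.Av (Mat VV Vd msq bet NonSc Bump es Sm' MN RN GR qs qT dl yo Aa DD Fam wf XX2)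
open Pool.Agent.A54.Sq (TestP)

noncomputable section

namespace BPM

lemma exps {T : ℝ} (hT : 2 ≤ T) :
    √(T ^ (-(42 / 100 : ℝ))) + √(T ^ (21 / 100 : ℝ)) / (T ^ (-(21 / 100 : ℝ)) * T) +
      ((T ^ (-(42 / 100 : ℝ))) ^ 4)⁻¹ * ((T ^ (-(51 / 100 : ℝ)) * T) ^ 4)⁻¹ +
      ((T ^ (-(42 / 100 : ℝ))) ^ 4)⁻¹ * ((T ^ (-(21 / 100 : ℝ))) ^ 2)⁻¹ * (T ^ 4)⁻¹ +
      (T ^ (21 / 100 : ℝ)) ^ 2 * ((T ^ (-(21 / 100 : ℝ))) ^ 2)⁻¹ *
        ((T ^ (-(42 / 100 : ℝ))) ^ 2)⁻¹ * (T ^ 2)⁻¹ ≤ 5 * T ^ (-(21 / 100 : ℝ)) := by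
  have hT0 : 0 < T := by linarith
  have hT1 : 1 ≤ T := by linarith
  have pw : ∀ (a : ℝ) (n : ℕ), (T ^ a) ^ n = T ^ (a * n) := fun a n => by
    rw [← Real.rpow_natCast, ← Real.rpow_mul hT0.le]
  have iv : ∀ a : ℝ, (T ^ a)⁻¹ = T ^ (-a) := fun a => (Real.rpow_neg hT0.le a).symm
  have nt : ∀ n : ℕ, T ^ n = T ^ (n : ℝ) := fun n => (Real.rpow_natCast T n).symm
  have ml : ∀ a b : ℝ, T ^ a * T ^ b = T ^ (a + b) := fun a b => (Real.rpow_add hT0 a b).symm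
  have mo : ∀ a : ℝ, a ≤ -(21 / 100 : ℝ) → T ^ a ≤ T ^ (-(21 / 100 : ℝ)) := fun a ha =>
    Real.rpow_le_rpow_of_exponent_le hT1 ha
  have sq : ∀ a : ℝ, √(T ^ a) = T ^ (a / 2) := fun a => by
    rw [Real.sqrt_eq_rpow, ← Real.rpow_mul hT0.le]
    congr 1
    ring
  have m1 : ∀ a : ℝ, T ^ a * T = T ^ (a + 1) := fun a => by
    rw [Real.rpow_add hT0, Real.rpow_one]
  have e1 : √(T ^ (-(42 / 100 : ℝ))) ≤ T ^ (-(21 / 100 : ℝ)) := by
    rw [sq]
    exact mo _ (by norm_num)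
  have e2 : √(T ^ (21 / 100 : ℝ)) / (T ^ (-(21 / 100 : ℝ)) * T) ≤ T ^ (-(21 / 100 : ℝ)) := by
    rw [sq, m1, div_eq_mul_inv, iv, ml]
    exact mo _ (by norm_num)
  have e3 : ((T ^ (-(42 / 100 : ℝ))) ^ 4)⁻¹ * ((T ^ (-(51 / 100 : ℝ)) * T) ^ 4)⁻¹ ≤
      T ^ (-(21 / 100 : ℝ)) := by
    rw [m1, pw, pw, iv, iv, ml]
    exact mo _ (by norm_num)
  have e4 : ((T ^ (-(42 / 100 : ℝ))) ^ 4)⁻¹ * ((T ^ (-(21 / 100 : ℝ))) ^ 2)⁻¹ * (T ^ 4)⁻¹ ≤
      T ^ (-(21 / 100 : ℝ)) := by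
    rw [pw, pw, nt 4, iv, iv, iv, ml, ml]
    exact mo _ (by norm_num)
  have e5 : (T ^ (21 / 100 : ℝ)) ^ 2 * ((T ^ (-(21 / 100 : ℝ))) ^ 2)⁻¹ *
        ((T ^ (-(42 / 100 : ℝ))) ^ 2)⁻¹ * (T ^ 2)⁻¹ ≤ T ^ (-(21 / 100 : ℝ)) := by
    rw [pw, pw, pw, nt 2, iv, iv, iv, ml, ml, ml]
    exact mo _ (by norm_num)
  linarith

lemma ev {c r : ℝ} (hc : 0 < c) (hr : 0 < r) : ∀ᶠ T : ℝ in atTop, T ^ (-c) ≤ r :=
  ((tendsto_rpow_neg_atTop hc).eventually (ge_mem_nhds hr))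

end BPM

open Av.BPM in
theorem stmtBP (hG1 : Av.StmtG1) (hG2 : StmtG2) (hDl : Av.StmtDl) : StmtBP := by
  intro η hη K hK hKH
  obtain ⟨C1, r1, hC1, hr1, hG1⟩ := hG1 η hη K hK hKH
  obtain ⟨C2, r0, hC2, hr0, hG2⟩ := hG2 η hη K hK hKH
  obtain ⟨hD, Cd, hCd, hDi⟩ := hDl
  obtain ⟨C5, hC5, h5⟩ := int_34
  obtain ⟨T0, hT0⟩ := eventually_atTop.mp
    ((BPM.ev (c := 51 / 100) (by norm_num) hr1).and (BPM.ev (c := 9 / 100) (by norm_num) hr0))
  refine ⟨70 * C2 + 23 * C1 + C1 * Cd * C5, max 2 T0, by positivity, le_max_left _ _,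
    fun T hT => ?_⟩
  have hT2 : 2 ≤ T := (le_max_left _ _).trans hT
  have hT00 := hT0 T ((le_max_right _ _).trans hT)
  obtain ⟨hr1', hr0'⟩ := hT00
  have hTp : 0 < T := by linarith
  have hT1 : 1 ≤ T := by linarith
  set r := T ^ (-(51 / 100 : ℝ)) with hrdef
  set ε := T ^ (-(42 / 100 : ℝ)) with hεdef
  set Y := T ^ (21 / 100 : ℝ) with hYdef
  set d := T ^ (-(21 / 100 : ℝ)) with hddef
  have hr : 0 < r := by positivity
  have hε : 0 < ε := by positivity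
  have hε1 : ε ≤ 1 := Real.rpow_le_one_of_one_le_of_nonpos hT1 (by norm_num)
  have hY1 : 1 ≤ Y := Real.one_le_rpow hT1 (by norm_num)
  have hd0 : 0 < d := by positivity
  have hd1 : d ≤ 1 := Real.rpow_le_one_of_one_le_of_nonpos hT1 (by norm_num)
  have hYd : Y⁻¹ = d := by rw [hYdef, hddef, Real.rpow_neg hTp.le]
  have hrr : r ≤ r0 * ε := by
    have h1 : r = T ^ (-(9 / 100 : ℝ)) * ε := by
      rw [hrdef, hεdef, ← Real.rpow_add hTp]
      norm_num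
    rw [h1]
    exact mul_le_mul_of_nonneg_right hr0' hε.le
  have hYT : √Y / d ≤ T := by
    have h1 : √Y = T ^ (21 / 200 : ℝ) := by
      rw [hYdef, Real.sqrt_eq_rpow, ← Real.rpow_mul hTp.le]
      norm_num
    rw [h1, hddef, div_eq_mul_inv, ← Real.rpow_neg hTp.le, ← Real.rpow_add hTp]
    calc T ^ (21 / 200 + -(-(21 / 100)) : ℝ) ≤ T ^ (1 : ℝ) :=
          Real.rpow_le_rpow_of_exponent_le hT1 (by norm_num)
      _ = T := Real.rpow_one T
  have hcont : Continuous η := hη.smooth.continuous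
  rw [swap η hcont r (qT T) K]
  set E : ℝ := C2 * (5 * d) with hE
  have hE0 : 0 ≤ E := by positivity
  have hDpos : ∀ θ : ℝ, |θ| ≤ Real.pi → 0 < dl T θ := by
    intro θ hθ
    exact lt_of_lt_of_le (by positivity) (hD T θ hT2 hθ).1
  refine (outer (fun y θ => ∫⁻ z0 in K, ∑' n : ℤ,
    ‖MN (es η r z0) (qs (qT T) θ) y n‖ₑ ^ 2) Cd T C1 E Y d C5 hT2 hC1 hCd hE0 hY1 hd0 hC5
    hDpos (hDi T hT2) h5 ?_).trans ?_
  · intro y hy θ hθ
    have hyh : 1 / 2 ≤ y := by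
      have : √3 / 2 < y := hy
      have := sqrt3
      linarith
    have hy0 : 0 < y := by linarith
    have hθ' : |θ| ≤ Real.pi := abs_le.2 ⟨hθ.1.le, hθ.2⟩
    have hdpos := hDpos θ hθ'
    have hyo : 0 ≤ yo T θ y := by
      unfold yo
      positivity
    have hyo' : 0 ≤ yo T θ y ^ (3 / 4 : ℝ) := Real.rpow_nonneg hyo _
    have key : ENNReal.ofReal (C1 * T ^ 6 * (1 + yo T θ y ^ (3 / 4 : ℝ))) =
        ENNReal.ofReal (T ^ 6) * (ENNReal.ofReal C1 +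
          ENNReal.ofReal (C1 * yo T θ y ^ (3 / 4 : ℝ))) := by
      rw [← ENNReal.ofReal_add hC1 (by positivity), ← ENNReal.ofReal_mul (by positivity)]
      congr 1
      ring
    by_cases h1 : Y < y
    · have b := hG1 T r y θ hT2 hr hr1' hyh hθ'
      rw [key] at b
      refine b.trans ?_
      gcongr
      have : i1 Y C1 y = ENNReal.ofReal C1 := by
        unfold i1
        exact indicator_of_mem h1 _
      rw [this, add_comm (ENNReal.ofReal E), add_assoc]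
      exact le_self_add
    · by_cases h2 : dl T θ < d
      · have b := hG1 T r y θ hT2 hr hr1' hyh hθ'
        rw [key] at b
        refine b.trans ?_
        gcongr
        have : i2 d C1 θ = ENNReal.ofReal C1 := by
          unfold i2
          refine indicator_of_mem ?_ _
          have := (hD T θ hT2 hθ').2.1
          simp only [Set.mem_ofPred_eq]
          linarith
        rw [this]
        exact le_add_self
      · have b := hG2 ε Y d r T y θ hε hε1 hY1 hd0 hd1 hr hrr hT2 hYT hyh (not_lt.1 h1) hθ'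
          (not_lt.1 h2)
        refine b.trans ?_
        have hx := BPM.exps hT2
        rw [← hεdef, ← hYdef, ← hddef, ← hrdef] at hx
        calc ENNReal.ofReal (C2 * T ^ 6 * (√ε + √Y / (d * T) + (ε ^ 4)⁻¹ * ((r * T) ^ 4)⁻¹ +
              (ε ^ 4)⁻¹ * (d ^ 2)⁻¹ * (T ^ 4)⁻¹ + Y ^ 2 * (d ^ 2)⁻¹ * (ε ^ 2)⁻¹ * (T ^ 2)⁻¹))
            ≤ ENNReal.ofReal (T ^ 6 * E) := by
              refine ENNReal.ofReal_le_ofReal ?_
              calc C2 * T ^ 6 * (√ε + √Y / (d * T) + (ε ^ 4)⁻¹ * ((r * T) ^ 4)⁻¹ +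
                    (ε ^ 4)⁻¹ * (d ^ 2)⁻¹ * (T ^ 4)⁻¹ +
                    Y ^ 2 * (d ^ 2)⁻¹ * (ε ^ 2)⁻¹ * (T ^ 2)⁻¹)
                  ≤ C2 * T ^ 6 * (5 * d) := mul_le_mul_of_nonneg_left hx (by positivity)
                _ = T ^ 6 * E := by rw [hE]; ring
          _ = ENNReal.ofReal (T ^ 6) * ENNReal.ofReal E := ENNReal.ofReal_mul (by positivity)
          _ ≤ _ := by
              gcongr
              rw [add_assoc, add_assoc]
              exact le_self_add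
  · refine ENNReal.ofReal_le_ofReal ?_
    have hsT : (√T)⁻¹ ≤ d := by
      rw [Real.sqrt_eq_rpow, ← Real.rpow_neg hTp.le, hddef]
      exact Real.rpow_le_rpow_of_exponent_le hT1 (by norm_num)
    have h6 : T ^ (6 - 21 / 100 : ℝ) = T ^ 6 * d := by
      rw [hddef, ← Real.rpow_natCast T 6, ← Real.rpow_add hTp]
      norm_num
    rw [h6]
    have h7 : 14 * E + 7 * (C1 / Y) + 16 * d * C1 + C1 * Cd * C5 * (√T)⁻¹ ≤
        (70 * C2 + 23 * C1 + C1 * Cd * C5) * d := by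
      have h8 : C1 / Y = C1 * d := by rw [div_eq_mul_inv, hYd]
      have h9 : C1 * Cd * C5 * (√T)⁻¹ ≤ C1 * Cd * C5 * d :=
        mul_le_mul_of_nonneg_left hsT (by positivity)
      rw [h8, hE]
      linarith
    calc T ^ 6 * (14 * E + 7 * (C1 / Y) + 16 * d * C1 + C1 * Cd * C5 * (√T)⁻¹)
        ≤ T ^ 6 * ((70 * C2 + 23 * C1 + C1 * Cd * C5) * d) :=
          mul_le_mul_of_nonneg_left h7 (by positivity)
      _ = _ := by ring

end

end Pool.Agent.A54.Ef
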