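import Pool.Agent.Lib.MP_a54f13_nt.Ef.SpecS
import Pool.Agent.Lib.MP_a54f13_nt.Av.Fo1

/-! No escape of mass. -/

set_option autoImplicit false

namespace Pool.Agent.A54.Ef

open MeasureTheory Filter Topology Set
open scoped ContDiff ComplexConjugate UpperHalfPlane MatrixGroups ENNReal NNReal
open Pool.Agent.A54.Half (H0)
open Pool.Agent.A54.Av (ee an)

noncomputable section

namespace CusM

open Pool.Agent.A54.Av.Fo1M (cf ee_add ee_int cont_ee cf_shift Fl an_eq Fl_smooth Fl_per)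

/-- a continuous modification of the form -/
def gx (f : ℍ → ℝ) (z : ℂ) : ℝ := ext f ⟨z.re, max z.im (1 / 2)⟩

lemma cont_mk : Continuous fun z : ℂ => (⟨z.re, max z.im (1 / 2)⟩ : ℂ) := by
  have h : (fun z : ℂ => (⟨z.re, max z.im (1 / 2)⟩ : ℂ)) =
      fun z : ℂ => (z.re : ℂ) + ((max z.im (1 / 2) : ℝ) : ℂ) * Complex.I := by
    funext z
    apply Complex.ext <;> simp
  rw [h]
  exact (Complex.continuous_ofReal.comp Complex.continuous_re).add
    ((Complex.continuous_ofReal.comp (Complex.continuous_im.max continuous_const)).mul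
      continuous_const)

lemma cont_gx {f : ℍ → ℝ} {t : ℝ} (hf : IsHeckeMaass f t) : Continuous (gx f) := by
  have h1 : ContinuousOn (ext f) {z : ℂ | 0 < z.im} := hf.smooth.continuousOn
  refine h1.comp_continuous cont_mk fun z => ?_
  show (0 : ℝ) < max z.im (1 / 2)
  exact lt_of_lt_of_le (by norm_num) (le_max_right _ _)

lemma gx_eq (f : ℍ → ℝ) {z : ℂ} (hz : 1 ≤ z.im) : gx f z = ext f z := by
  unfold gx
  rw [max_eq_left (by linarith)]

/-- integrals over the half-plane -/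
lemma lint_gen (G : ℂ → ℝ≥0∞) (hG : Measurable G) (h0 : ∀ z : ℂ, z.im ≤ 0 → G z = 0) :
    ∫⁻ z : ℍ, G z = ∫⁻ z : ℂ, ENNReal.ofReal (1 / z.im ^ 2) * G z := by
  have hmeas : Measurable (fun z : ℍ => (1 / NNReal.mk z.im z.im_pos.le : ℝ≥0) ^ 2) := by
    have h1 : Measurable (fun z : ℍ => NNReal.mk z.im z.im_pos.le) :=
      (UpperHalfPlane.continuous_im.subtype_mk _).measurable
    exact (h1.const_div 1).pow_const 2
  have hGm : Measurable fun z : ℍ => G (z : ℂ) := hG.comp UpperHalfPlane.measurable_coe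
  rw [UpperHalfPlane.volume_def, lintegral_withDensity_eq_lintegral_mul _
    hmeas.coe_nnreal_ennreal hGm]
  have h2 : ∀ z : ℍ, ((fun z : ℍ => (((1 / NNReal.mk z.im z.im_pos.le : ℝ≥0) ^ 2 : ℝ≥0) : ℝ≥0∞)) *
      fun z : ℍ => G (z : ℂ)) z = (fun w : ℂ => ENNReal.ofReal (1 / w.im ^ 2) * G w) (z : ℂ) := by
    intro z
    simp only [Pi.mul_apply]
    congr 1
    have h3 : ((1 / NNReal.mk z.im z.im_pos.le : ℝ≥0) ^ 2 : ℝ≥0) =
        Real.toNNReal (1 / (z : ℂ).im ^ 2) := by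
      apply NNReal.coe_injective
      rw [Real.coe_toNNReal _ (by positivity)]
      push_cast
      simp
    rw [h3]
    rfl
  simp_rw [h2]
  rw [← UpperHalfPlane.measurableEmbedding_coe.lintegral_map
    (fun w : ℂ => ENNReal.ofReal (1 / w.im ^ 2) * G w),
    UpperHalfPlane.measurableEmbedding_coe.map_comap]
  have h4 : Set.range UpperHalfPlane.coe = {z : ℂ | 0 < z.im} := by
    ext z
    constructor
    · rintro ⟨w, rfl⟩
      exact w.im_pos
    · intro hz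
      exact ⟨⟨z, hz⟩, rfl⟩
  rw [h4]
  refine setLIntegral_eq_of_support_subset ?_
  intro z hz
  by_contra hz0
  apply hz
  show ENNReal.ofReal (1 / z.im ^ 2) * G z = 0
  rw [h0 z (not_lt.mp hz0), mul_zero]

/-- the strip -/
def St (Y : ℝ) : Set ℂ := {w | Y < w.im ∧ |w.re| < 1 / 2}

lemma meas_St (Y : ℝ) : MeasurableSet (St Y) :=
  (isOpen_lt continuous_const Complex.continuous_im).measurableSet.inter
    (isOpen_lt (Complex.continuous_re.abs) continuous_const).measurableSet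

/-- the mass in the cusp -/
def LL (f : ℍ → ℝ) (Y : ℝ) : ℝ≥0∞ := ∫⁻ y in Ici Y, (∫⁻ x in Ioo (-(1 / 2) : ℝ) (1 / 2),
  ENNReal.ofReal (gx f ⟨x, y⟩ ^ 2)) * ENNReal.ofReal (1 / y ^ 2)

lemma cont_pair : Continuous fun p : ℝ × ℝ => (⟨p.1, p.2⟩ : ℂ) := by
  have h : (fun p : ℝ × ℝ => (⟨p.1, p.2⟩ : ℂ)) =
      fun p : ℝ × ℝ => (p.1 : ℂ) + (p.2 : ℂ) * Complex.I := by
    funext p
    apply Complex.ext <;> simp
  rw [h]
  fun_prop

lemma mass_eq {f : ℍ → ℝ} {t : ℝ} (hf : IsHeckeMaass f t) {Y : ℝ} (hY : 1 ≤ Y) :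
    ∫⁻ z in ModularGroup.fdo ∩ {z : ℍ | Y < z.im}, ENNReal.ofReal (f z ^ 2) = LL f Y := by
  have hg := cont_gx hf
  have hms : MeasurableSet (ModularGroup.fdo ∩ {z : ℍ | Y < z.im}) :=
    ModularGroup.isOpen_fdo.measurableSet.inter
      (isOpen_lt continuous_const UpperHalfPlane.continuous_im).measurableSet
  have h1 : ∀ z : ℍ, (ModularGroup.fdo ∩ {z : ℍ | Y < z.im}).indicator
      (fun z => ENNReal.ofReal (f z ^ 2)) z =
      (St Y).indicator (fun w => ENNReal.ofReal (gx f w ^ 2)) (z : ℂ) := by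
    intro z
    by_cases hz : (z : ℂ) ∈ St Y
    · have hz' : z ∈ ModularGroup.fdo ∩ {z : ℍ | Y < z.im} := by
        refine ⟨⟨?_, hz.2⟩, hz.1⟩
        rw [Complex.normSq_apply]
        have h3 : 1 < (z : ℂ).im := lt_of_le_of_lt hY hz.1
        nlinarith [mul_self_nonneg (z : ℂ).re]
      rw [indicator_of_mem hz', indicator_of_mem hz, gx_eq f (hY.trans hz.1.le), Half.ext_coe]
    · have hz' : z ∉ ModularGroup.fdo ∩ {z : ℍ | Y < z.im} := fun h => hz ⟨h.2, h.1.2⟩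
      rw [indicator_of_notMem hz', indicator_of_notMem hz]
  have hm1 : Measurable ((St Y).indicator (fun w => ENNReal.ofReal (gx f w ^ 2))) :=
    (ENNReal.measurable_ofReal.comp (hg.pow 2).measurable).indicator (meas_St Y)
  rw [← lintegral_indicator hms]
  simp_rw [h1]
  rw [lint_gen _ hm1 fun z hz => indicator_of_notMem (fun h => by
    have := h.1
    linarith) _]
  have hpre := Complex.volume_preserving_equiv_real_prod
  have key := hpre.lintegral_comp_emb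
    Complex.measurableEquivRealProd.measurableEmbedding
    (fun p : ℝ × ℝ => (Ioo (-(1 / 2) : ℝ) (1 / 2) ×ˢ Ioi Y).indicator
      (fun p : ℝ × ℝ => ENNReal.ofReal (gx f ⟨p.1, p.2⟩ ^ 2) * ENNReal.ofReal (1 / p.2 ^ 2)) p)
  have h2 : ∀ z : ℂ, ENNReal.ofReal (1 / z.im ^ 2) *
      (St Y).indicator (fun w => ENNReal.ofReal (gx f w ^ 2)) z =
      (Ioo (-(1 / 2) : ℝ) (1 / 2) ×ˢ Ioi Y).indicator
      (fun p : ℝ × ℝ => ENNReal.ofReal (gx f ⟨p.1, p.2⟩ ^ 2) * ENNReal.ofReal (1 / p.2 ^ 2))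
        (Complex.measurableEquivRealProd z) := by
    intro z
    rw [Complex.measurableEquivRealProd_apply]
    by_cases hz : z ∈ St Y
    · have hz' : (z.re, z.im) ∈ Ioo (-(1 / 2) : ℝ) (1 / 2) ×ˢ Ioi Y := ⟨abs_lt.mp hz.2, hz.1⟩
      rw [indicator_of_mem hz, indicator_of_mem hz', mul_comm]
    · have hz' : (z.re, z.im) ∉ Ioo (-(1 / 2) : ℝ) (1 / 2) ×ˢ Ioi Y :=
        fun h => hz ⟨h.2, abs_lt.mpr h.1⟩
      rw [indicator_of_notMem hz, indicator_of_notMem hz', mul_zero]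
  simp_rw [h2]
  rw [key]
  have hm2 : Measurable (fun p : ℝ × ℝ => ENNReal.ofReal (gx f ⟨p.1, p.2⟩ ^ 2) *
      ENNReal.ofReal (1 / p.2 ^ 2)) := by
    have h3 : Measurable fun p : ℝ × ℝ => gx f ⟨p.1, p.2⟩ ^ 2 :=
      ((hg.comp cont_pair).pow 2).measurable
    exact (ENNReal.measurable_ofReal.comp h3).mul
      (ENNReal.measurable_ofReal.comp (by fun_prop))
  have hm3 := hm2.indicator (measurableSet_Ioo.prod measurableSet_Ioi :
    MeasurableSet (Ioo (-(1 / 2) : ℝ) (1 / 2) ×ˢ Ioi Y))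
  rw [Measure.volume_eq_prod, lintegral_prod_symm _ hm3.aemeasurable]
  unfold LL
  rw [setLIntegral_congr Ioi_ae_eq_Ici.symm, ← lintegral_indicator measurableSet_Ioi]
  refine lintegral_congr fun y => ?_
  by_cases hy : y ∈ Ioi Y
  · rw [indicator_of_mem hy, ← lintegral_mul_const' _ _ ENNReal.ofReal_ne_top,
      ← lintegral_indicator measurableSet_Ioo]
    refine lintegral_congr fun x => ?_
    by_cases hx : x ∈ Ioo (-(1 / 2) : ℝ) (1 / 2)
    · have hxy : (x, y) ∈ Ioo (-(1 / 2) : ℝ) (1 / 2) ×ˢ Ioi Y := ⟨hx, hy⟩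
      rw [indicator_of_mem hx, indicator_of_mem hxy]
    · rw [indicator_of_notMem hx, indicator_of_notMem fun h => hx h.1]
  · rw [indicator_of_notMem hy]
    have h5 : ∀ x : ℝ, (Ioo (-(1 / 2) : ℝ) (1 / 2) ×ˢ Ioi Y).indicator
        (fun p : ℝ × ℝ => ENNReal.ofReal (gx f ⟨p.1, p.2⟩ ^ 2) *
          ENNReal.ofReal (1 / p.2 ^ 2)) (x, y) = 0 := fun x =>
      indicator_of_notMem (fun h => hy h.2) _
    simp_rw [h5]
    exact lintegral_zero

/-- Parseval -/
lemma pars {f : ℍ → ℝ} {t : ℝ} (hf : IsHeckeMaass f t) {y : ℝ} (hy : 0 < y) :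
    HasSum (fun n : ℤ => ‖an f n y‖ ^ 2) (∫ x in (-(1 / 2) : ℝ)..(1 / 2), ‖Fl f y x‖ ^ 2) := by
  have hab : (-(1 / 2) : ℝ) < 1 / 2 := by norm_num
  have hc := (Fl_smooth hf hy).continuous
  have hL2 : MemLp (Fl f y) 2 (volume.restrict (Ioc (-(1 / 2) : ℝ) (1 / 2))) := by
    obtain ⟨C, hC⟩ := (isCompact_Icc (a := (-(1 / 2) : ℝ)) (b := 1 / 2)).exists_bound_of_continuousOn
      hc.continuousOn
    refine MemLp.of_bound hc.aestronglyMeasurable C ?_
    rw [ae_restrict_iff' measurableSet_Ioc]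
    exact Filter.Eventually.of_forall fun x hx => hC x (Ioc_subset_Icc_self hx)
  have h := hasSum_sq_fourierCoeffOn hab hL2
  have h1 : ((1 / 2 : ℝ) - -(1 / 2))⁻¹ = 1 := by norm_num
  rw [h1, one_smul] at h
  have h2 : ∀ n : ℤ, fourierCoeffOn hab (Fl f y) n = an f n y := by
    intro n
    rw [fourierCoeffOn_eq_integral, an_eq, ← cf_shift (Fl_per hf hy) n (-(1 / 2))]
    have h3 : (1 / ((1 / 2 : ℝ) - -(1 / 2))) = 1 := by norm_num
    have h4 : (-(1 / 2) : ℝ) + 1 = 1 / 2 := by norm_num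
    rw [h3, one_smul, h4]
    refine intervalIntegral.integral_congr fun x _ => ?_
    show fourier (-n) (x : AddCircle ((1 / 2 : ℝ) - -(1 / 2))) • Fl f y x =
      Fl f y x * ee (-((n : ℂ) * x))
    rw [fourier_coe_apply, smul_eq_mul, mul_comm]
    congr 1
    unfold ee
    congr 1
    push_cast
    ring
  simp_rw [h2] at h
  exact h

lemma inner {f : ℍ → ℝ} {t : ℝ} (hf : IsHeckeMaass f t) {y : ℝ} (hy : 1 ≤ y) :
    ∫⁻ x in Ioo (-(1 / 2) : ℝ) (1 / 2), ENNReal.ofReal (gx f ⟨x, y⟩ ^ 2) =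
      ∑' n : ℤ, ENNReal.ofReal (‖an f n y‖ ^ 2) := by
  have hy0 : 0 < y := by linarith
  have hp := pars hf hy0
  have hc := (Fl_smooth hf hy0).continuous
  rw [← ENNReal.ofReal_tsum_of_nonneg (fun n => sq_nonneg _) hp.summable, hp.tsum_eq]
  have h1 : ∀ x : ℝ, gx f ⟨x, y⟩ ^ 2 = ‖Fl f y x‖ ^ 2 := by
    intro x
    rw [gx_eq f (show 1 ≤ (⟨x, y⟩ : ℂ).im from hy)]
    unfold Fl
    rw [Complex.norm_real, Real.norm_eq_abs, sq_abs]
  simp_rw [h1]
  rw [intervalIntegral.integral_of_le (by norm_num), integral_Ioc_eq_integral_Ioo,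
    ofReal_integral_eq_lintegral_ofReal]
  · exact ((hc.norm.pow 2).continuousOn.integrableOn_Icc (a := (-(1 / 2) : ℝ))
      (b := 1 / 2)).mono_set Ioo_subset_Icc_self
  · exact Filter.Eventually.of_forall fun x => sq_nonneg _

/-- a continuous modification of the first coefficient -/
def Af (f : ℍ → ℝ) (u : ℝ) : ℝ≥0∞ := ENNReal.ofReal (‖an f 1 (max u (1 / 2))‖ ^ 2)

lemma meas_Af {f : ℍ → ℝ} {t : ℝ} (hf : IsHeckeMaass f t) : Measurable (Af f) := by
  have hc : Continuous fun u : ℝ => an f 1 (max u (1 / 2)) := by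
    unfold an
    have h1 : Continuous (Function.uncurry fun (u x : ℝ) =>
        (ext f ⟨x, max u (1 / 2)⟩ : ℂ) * ee (-(((1 : ℤ) : ℂ) * x))) := by
      have h2 : Continuous fun p : ℝ × ℝ => ext f ⟨p.2, max p.1 (1 / 2)⟩ := by
        have h3 : Continuous fun p : ℝ × ℝ => (⟨p.2, p.1⟩ : ℂ) :=
          cont_pair.comp continuous_swap
        exact (cont_gx hf).comp h3
      have h4 : Continuous fun p : ℝ × ℝ => ee (-(((1 : ℤ) : ℂ) * (p.2 : ℂ))) := by
        have := cont_ee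
        fun_prop
      exact (Complex.continuous_ofReal.comp h2).mul h4
    exact intervalIntegral.continuous_parametric_intervalIntegral_of_continuous' h1 0 1
  exact ENNReal.measurable_ofReal.comp (hc.norm.pow 2).measurable

/-- the sum over all coefficients -/
lemma coeffs (hFo : Av.StmtFo1) {f : ℍ → ℝ} {t : ℝ} (hf : IsHeckeMaass f t) {l : ℕ → ℝ}
    (hl : ∀ n : ℕ, 1 ≤ n → ∀ y : ℝ, 0 < y →
      ‖an f n y‖ ^ 2 = l n ^ 2 / n * ‖an f 1 (n * y)‖ ^ 2) {y : ℝ} (hy : 1 ≤ y) :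
    ∑' n : ℤ, ENNReal.ofReal (‖an f n y‖ ^ 2) =
      2 * ∑' n : ℕ, ENNReal.ofReal (l (n + 1) ^ 2 / ((n : ℝ) + 1)) * Af f (((n : ℝ) + 1) * y) := by
  have hy0 : 0 < y := by linarith
  obtain ⟨-, h2, -, h4, -⟩ := hFo f t hf
  have hpos : ∀ n : ℕ, ENNReal.ofReal (‖an f ((n : ℤ) + 1) y‖ ^ 2) =
      ENNReal.ofReal (l (n + 1) ^ 2 / ((n : ℝ) + 1)) * Af f (((n : ℝ) + 1) * y) := by
    intro n
    have h := hl (n + 1) (by omega) y hy0
    push_cast at h
    rw [h, ENNReal.ofReal_mul (by positivity)]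
    congr 1
    unfold Af
    have h5 : 1 / 2 ≤ ((n : ℝ) + 1) * y := by nlinarith [(Nat.cast_nonneg n : (0 : ℝ) ≤ n)]
    rw [max_eq_left h5]
  rw [tsum_of_add_one_of_neg_add_one ENNReal.summable ENNReal.summable, h4 y hy0]
  have h6 : ∀ n : ℕ, ENNReal.ofReal (‖an f (-((n : ℤ) + 1)) y‖ ^ 2) =
      ENNReal.ofReal (‖an f ((n : ℤ) + 1) y‖ ^ 2) := by
    intro n
    rw [h2, RCLike.norm_conj]
  simp_rw [h6, hpos]
  rw [norm_zero, zero_pow two_ne_zero, ENNReal.ofReal_zero, add_zero, two_mul]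

lemma scale {c : ℝ} (hc : 0 < c) {F : ℝ → ℝ≥0∞} (hF : Measurable F) :
    ∫⁻ y, F (c * y) = ENNReal.ofReal c⁻¹ * ∫⁻ u, F u := by
  have h := lintegral_map (μ := (volume : Measure ℝ)) hF (measurable_const_mul c)
  rw [← h]
  have h2 : Measure.map (fun x : ℝ => c * x) volume = ENNReal.ofReal |c⁻¹| • volume :=
    Real.map_volume_mul_left hc.ne'
  rw [h2, lintegral_smul_measure, abs_of_pos (inv_pos.mpr hc)]
  rfl

/-- the sum over the indices -/
lemma sumS (l : ℕ → ℝ) {Y : ℝ} (hY : 0 < Y) (u : ℝ) :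
    ∑' n : ℕ, (Ici (((n : ℝ) + 1) * Y)).indicator (fun _ => ENNReal.ofReal (l (n + 1) ^ 2)) u =
      ENNReal.ofReal (SF l (u / Y)) := by
  have h1 : ∀ n : ℕ, (Ici (((n : ℝ) + 1) * Y)).indicator
      (fun _ => ENNReal.ofReal (l (n + 1) ^ 2)) u =
      if n < ⌊u / Y⌋₊ then ENNReal.ofReal (l (n + 1) ^ 2) else 0 := by
    intro n
    have h2 : u ∈ Ici (((n : ℝ) + 1) * Y) ↔ n < ⌊u / Y⌋₊ := by
      rw [mem_Ici, ← le_div_iff₀ hY, ← Nat.succ_le_iff, Nat.le_floor_iff' (Nat.succ_ne_zero n)]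
      push_cast
      rfl
    by_cases h : n < ⌊u / Y⌋₊
    · rw [if_pos h, indicator_of_mem (h2.mpr h)]
    · rw [if_neg h, indicator_of_notMem fun h' => h (h2.mp h')]
  simp_rw [h1]
  rw [tsum_eq_sum (s := Finset.range ⌊u / Y⌋₊) (fun n hn => if_neg (by simpa using hn))]
  have h3 : ∀ n ∈ Finset.range ⌊u / Y⌋₊,
      (if n < ⌊u / Y⌋₊ then ENNReal.ofReal (l (n + 1) ^ 2) else 0) =
        ENNReal.ofReal (l (n + 1) ^ 2) := fun n hn => if_pos (Finset.mem_range.mp hn)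
  rw [Finset.sum_congr rfl h3, ← ENNReal.ofReal_sum_of_nonneg fun n _ => sq_nonneg _]
  congr 1
  unfold SF
  rw [Finset.range_eq_Ico, Finset.sum_Ico_add' (fun k => l k ^ 2) 0 ⌊u / Y⌋₊ 1, zero_add]
  rfl

/-- the formula for the mass in the cusp -/
lemma LL_eq (hFo : Av.StmtFo1) {f : ℍ → ℝ} {t : ℝ} (hf : IsHeckeMaass f t) {l : ℕ → ℝ}
    (hl : ∀ n : ℕ, 1 ≤ n → ∀ y : ℝ, 0 < y →
      ‖an f n y‖ ^ 2 = l n ^ 2 / n * ‖an f 1 (n * y)‖ ^ 2) {Y : ℝ} (hY : 1 ≤ Y) :
    LL f Y = 2 * ∫⁻ u, ENNReal.ofReal (SF l (u / Y)) * (Af f u * ENNReal.ofReal (1 / u ^ 2)) := by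
  have hY0 : 0 < Y := by linarith
  have hA := meas_Af hf
  have hw : Measurable fun u : ℝ => Af f u * ENNReal.ofReal (1 / u ^ 2) :=
    hA.mul (ENNReal.measurable_ofReal.comp (by fun_prop))
  unfold LL
  have h1 : ∫⁻ y in Ici Y, (∫⁻ x in Ioo (-(1 / 2) : ℝ) (1 / 2),
      ENNReal.ofReal (gx f ⟨x, y⟩ ^ 2)) * ENNReal.ofReal (1 / y ^ 2) =
      ∫⁻ y in Ici Y, 2 * ∑' n : ℕ, (ENNReal.ofReal (l (n + 1) ^ 2 / ((n : ℝ) + 1)) *
        (Af f (((n : ℝ) + 1) * y) * ENNReal.ofReal (1 / y ^ 2))) := by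
    refine setLIntegral_congr_fun measurableSet_Ici fun y hy => ?_
    have hy1 : 1 ≤ y := hY.trans hy
    show (∫⁻ x in Ioo (-(1 / 2) : ℝ) (1 / 2),
      ENNReal.ofReal (gx f ⟨x, y⟩ ^ 2)) * ENNReal.ofReal (1 / y ^ 2) = _
    rw [inner hf hy1, coeffs hFo hf hl hy1, mul_assoc, ← ENNReal.tsum_mul_right]
    simp_rw [mul_assoc]
  have hmn : ∀ n : ℕ, Measurable fun y : ℝ => ENNReal.ofReal (l (n + 1) ^ 2 / ((n : ℝ) + 1)) *
      (Af f (((n : ℝ) + 1) * y) * ENNReal.ofReal (1 / y ^ 2)) := by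
    intro n
    exact measurable_const.mul ((hA.comp (measurable_const_mul _)).mul
      (ENNReal.measurable_ofReal.comp (by fun_prop)))
  rw [h1, lintegral_const_mul' _ _ (by norm_num), lintegral_tsum fun n => (hmn n).aemeasurable]
  congr 1
  have h2 : ∀ n : ℕ, ∫⁻ y in Ici Y, ENNReal.ofReal (l (n + 1) ^ 2 / ((n : ℝ) + 1)) *
      (Af f (((n : ℝ) + 1) * y) * ENNReal.ofReal (1 / y ^ 2)) =
      ∫⁻ u, (Ici (((n : ℝ) + 1) * Y)).indicator (fun _ => ENNReal.ofReal (l (n + 1) ^ 2)) u *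
        (Af f u * ENNReal.ofReal (1 / u ^ 2)) := by
    intro n
    have hm0 : (0 : ℝ) < (n : ℝ) + 1 := by positivity
    set m : ℝ := (n : ℝ) + 1 with hm
    set F : ℝ → ℝ≥0∞ := fun u => (Ici (m * Y)).indicator
      (fun u => ENNReal.ofReal (m * l (n + 1) ^ 2) * (Af f u * ENNReal.ofReal (1 / u ^ 2))) u
      with hF
    have hFm : Measurable F := (measurable_const.mul hw).indicator measurableSet_Ici
    have e1 : ∫⁻ y in Ici Y, ENNReal.ofReal (l (n + 1) ^ 2 / m) *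
        (Af f (m * y) * ENNReal.ofReal (1 / y ^ 2)) = ∫⁻ y, F (m * y) := by
      rw [← lintegral_indicator measurableSet_Ici]
      refine lintegral_congr fun y => ?_
      by_cases hy : y ∈ Ici Y
      · have hy' : m * y ∈ Ici (m * Y) := mul_le_mul_of_nonneg_left hy hm0.le
        have hy0 : 0 < y := lt_of_lt_of_le hY0 hy
        rw [indicator_of_mem hy]
        simp only [hF]
        rw [indicator_of_mem hy']
        have e2 : ENNReal.ofReal (1 / (m * y) ^ 2) =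
            ENNReal.ofReal (m ^ 2)⁻¹ * ENNReal.ofReal (1 / y ^ 2) := by
          rw [← ENNReal.ofReal_mul (by positivity)]
          congr 1
          field_simp
        have e3 : ENNReal.ofReal (l (n + 1) ^ 2 / m) =
            ENNReal.ofReal (m * l (n + 1) ^ 2) * ENNReal.ofReal (m ^ 2)⁻¹ := by
          rw [← ENNReal.ofReal_mul (by positivity)]
          congr 1
          field_simp
        rw [e2, e3]
        ring
      · have hy' : m * y ∉ Ici (m * Y) := fun h => hy (le_of_mul_le_mul_left h hm0)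
        rw [indicator_of_notMem hy]
        simp only [hF]
        rw [indicator_of_notMem hy']
    rw [e1, scale hm0 hFm, ← lintegral_const_mul' _ _ ENNReal.ofReal_ne_top]
    refine lintegral_congr fun u => ?_
    simp only [hF]
    by_cases hu : u ∈ Ici (m * Y)
    · rw [indicator_of_mem hu, indicator_of_mem hu, ← mul_assoc,
        ← ENNReal.ofReal_mul (by positivity)]
      congr 2
      field_simp
    · rw [indicator_of_notMem hu, indicator_of_notMem hu, mul_zero, zero_mul]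
  simp_rw [h2]
  have h3 := lintegral_tsum (μ := (volume : Measure ℝ)) (f := fun (n : ℕ) (u : ℝ) =>
    (Ici (((n : ℝ) + 1) * Y)).indicator (fun _ => ENNReal.ofReal (l (n + 1) ^ 2)) u *
        (Af f u * ENNReal.ofReal (1 / u ^ 2)))
    fun n => ((measurable_const.indicator measurableSet_Ici).mul hw).aemeasurable
  rw [← h3]
  refine lintegral_congr fun u => ?_
  rw [ENNReal.tsum_mul_right, sumS l hY0 u]

end CusM

open CusM in
theorem stmtCus (hSnd : StmtSnd) (hHkR : StmtHkR) (hFo : Av.StmtFo1) : StmtCus := by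
  obtain ⟨C, hC, hS⟩ := hSnd
  refine ⟨C * (Real.pi / 3), by positivity, fun f t hf Y hY => ?_⟩
  have hY0 : 0 < Y := by linarith
  obtain ⟨l, hmul, hl⟩ := hHkR f t hf
  have hint : IntegrableOn (fun z : ℍ => f z ^ 2) ModularGroup.fdo := by
    by_contra hcon
    have h1 := hf.normalised
    rw [integral_undef hcon] at h1
    have := Real.pi_pos
    linarith
  -- the mass above one
  have h1 : LL f 1 ≤ ENNReal.ofReal (Real.pi / 3) := by
    rw [← mass_eq hf le_rfl, ← hf.normalised,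
      ofReal_integral_eq_lintegral_ofReal hint (Filter.Eventually.of_forall fun z => sq_nonneg _)]
    exact lintegral_mono_set inter_subset_left
  have hYp : 0 ≤ C * Y ^ (-(1 / 4 : ℝ)) := mul_nonneg hC (Real.rpow_nonneg hY0.le _)
  have h2 : LL f Y ≤ ENNReal.ofReal (C * Y ^ (-(1 / 4 : ℝ))) * LL f 1 := by
    rw [LL_eq hFo hf hl hY, LL_eq hFo hf hl le_rfl, mul_left_comm,
      ← lintegral_const_mul' _ _ ENNReal.ofReal_ne_top]
    refine mul_le_mul_right (lintegral_mono fun u => ?_) 2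
    show ENNReal.ofReal (SF l (u / Y)) * (Af f u * ENNReal.ofReal (1 / u ^ 2)) ≤
      ENNReal.ofReal (C * Y ^ (-(1 / 4 : ℝ))) *
        (ENNReal.ofReal (SF l (u / 1)) * (Af f u * ENNReal.ofReal (1 / u ^ 2)))
    have h4 : ENNReal.ofReal (SF l (u / Y)) ≤
        ENNReal.ofReal (C * Y ^ (-(1 / 4 : ℝ))) * ENNReal.ofReal (SF l (u / 1)) := by
      rw [div_one, ← ENNReal.ofReal_mul hYp]
      exact ENNReal.ofReal_le_ofReal (hS l u Y hmul hY)
    calc ENNReal.ofReal (SF l (u / Y)) * (Af f u * ENNReal.ofReal (1 / u ^ 2))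
        ≤ (ENNReal.ofReal (C * Y ^ (-(1 / 4 : ℝ))) * ENNReal.ofReal (SF l (u / 1))) *
          (Af f u * ENNReal.ofReal (1 / u ^ 2)) := by gcongr
      _ = _ := by ring
  have h3 : ∫⁻ z in ModularGroup.fdo ∩ {z : ℍ | Y < z.im}, ENNReal.ofReal (f z ^ 2) ≤
      ENNReal.ofReal (C * (Real.pi / 3) * Y ^ (-(1 / 4 : ℝ))) := by
    rw [mass_eq hf hY]
    refine h2.trans ?_
    calc ENNReal.ofReal (C * Y ^ (-(1 / 4 : ℝ))) * LL f 1
        ≤ ENNReal.ofReal (C * Y ^ (-(1 / 4 : ℝ))) * ENNReal.ofReal (Real.pi / 3) := by gcongr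
      _ = ENNReal.ofReal (C * (Real.pi / 3) * Y ^ (-(1 / 4 : ℝ))) := by
          rw [← ENNReal.ofReal_mul hYp]
          congr 1
          ring
  have hint' : IntegrableOn (fun z : ℍ => f z ^ 2) (ModularGroup.fdo ∩ {z : ℍ | Y < z.im}) :=
    hint.mono_set inter_subset_left
  rw [← ofReal_integral_eq_lintegral_ofReal hint'
    (Filter.Eventually.of_forall fun z => sq_nonneg _)] at h3
  exact (ENNReal.ofReal_le_ofReal_iff (by positivity)).mp h3

end

end Pool.Agent.A54.Ef
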