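import Pool.Agent.Lib.MP_a54f13_nt.Ef.Spec
import Pool.Agent.Lib.MP_a54f13_nt.Av.F2

/-!
# Module `F2`: most forms are good, with a power saving
-/

set_option autoImplicit false

namespace Pool.Agent.A54.Ef

open MeasureTheory Filter Topology Set
open scoped ContDiff ComplexConjugate UpperHalfPlane MatrixGroups ENNReal
open Pool.Agent.A54.Half (H0 qq ff hh)
open Pool.Agent.A54.Av (Mat VV Vd msq bet NonSc Bump es Sm' MN RN GR qs qT dl yo Aa DD Fam wf XX2)
open Pool.Agent.A54.Av.F2M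

theorem stmtF2 (hF1 : StmtF1) (hRS : Av.StmtRS) : StmtF2 := by
  intro η hη K hK hK'
  obtain ⟨C, T0, hC, hT0, h2⟩ := hF1 η hη K hK hK'
  refine ⟨24 * √C, max T0 200, by positivity, hT0.trans (le_max_left _ _), fun T hT => ?_⟩
  intro ι _ F t ρ hF ht hX
  have hTT0 : T0 ≤ T := (le_max_left _ _).trans hT
  have hT200 : 200 ≤ T := (le_max_right _ _).trans hT
  have h3 := h2 T hTT0 ι F t ρ hF ht
  have h4 := hRS ι F t ρ T hF hT200 ht
  have hw : ∀ i, 0 < wf (t i) (ρ i) := by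
    intro i
    unfold wf
    have : ρ i ≠ 0 := (hF.rho i).1
    have h5 := Real.cosh_pos (Real.pi * t i)
    positivity
  have hTpos : 0 < T := by linarith
  set r : ℝ := T ^ (-(51 / 100 : ℝ)) with hr
  set ε' : ℝ := T ^ (-(1 / 200 : ℝ)) with hε'def
  have hε' : 0 < ε' := by positivity
  set S : ι → ℂ → ℝ := fun i => Sm' η r (fun w => ext (F i) w ^ 2) with hS
  have h5 : ENNReal.ofReal (∑ i, wf (t i) (ρ i) * XX2 η r K (F i)) ≤
      ENNReal.ofReal (C * T ^ (2 - 21 / 100 : ℝ)) := by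
    refine le_trans ?_ h3
    have h60 : ∀ i ∈ Finset.univ, 0 ≤ wf (t i) (ρ i) * XX2 η r K (F i) := fun i _ =>
      mul_nonneg (hw i).le (hε'.le.trans (hX i).le)
    rw [ENNReal.ofReal_sum_of_nonneg h60]
    have h6 : ∀ i, ENNReal.ofReal (wf (t i) (ρ i) * XX2 η r K (F i)) ≤
        ∫⁻ z in K, ∫⁻ z' in K, ENNReal.ofReal (wf (t i) (ρ i) * (S i z - S i z') ^ 2) := by
      intro i
      have h7 : wf (t i) (ρ i) * XX2 η r K (F i) =
          ∫ z in K, ∫ z' in K, wf (t i) (ρ i) * (S i z - S i z') ^ 2 := by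
        unfold XX2
        rw [← integral_const_mul]
        congr 1
        funext z
        rw [← integral_const_mul]
      rw [h7]
      refine (ofReal_int_le _ _ fun z => integral_nonneg fun z' =>
        mul_nonneg (hw i).le (sq_nonneg _)).trans ?_
      refine lintegral_mono fun z => ?_
      exact ofReal_int_le _ _ fun z' => mul_nonneg (hw i).le (sq_nonneg _)
    refine (Finset.sum_le_sum fun i _ => h6 i).trans ?_
    refine (sum_lint_le _ _ _).trans ?_
    refine lintegral_mono fun z => ?_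
    refine (sum_lint_le _ _ _).trans ?_
    refine lintegral_mono fun z' => ?_
    simp only
    rw [ENNReal.ofReal_sum_of_nonneg (fun i _ => mul_nonneg (hw i).le (sq_nonneg _))]
  have h6 : ∑ i, wf (t i) (ρ i) * XX2 η r K (F i) ≤ C * T ^ (2 - 21 / 100 : ℝ) :=
    (ENNReal.ofReal_le_ofReal_iff (by positivity)).mp h5
  have h7 : ε' * ∑ i, wf (t i) (ρ i) ≤ C * T ^ (2 - 21 / 100 : ℝ) := by
    refine le_trans ?_ h6
    rw [Finset.mul_sum]
    refine Finset.sum_le_sum fun i _ => ?_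
    rw [mul_comm]
    exact mul_le_mul_of_nonneg_left (hX i).le (hw i).le
  have h8 : ∑ i, wf (t i) (ρ i) ≤ C * T ^ (359 / 200 : ℝ) := by
    have e1 : ε' * (C * T ^ (359 / 200 : ℝ)) = C * T ^ (2 - 21 / 100 : ℝ) := by
      have e2 : T ^ (2 - 21 / 100 : ℝ) = T ^ (-(1 / 200 : ℝ)) * T ^ (359 / 200 : ℝ) := by
        rw [← Real.rpow_add hTpos]
        norm_num
      rw [e2, hε'def]
      ring
    refine le_of_mul_le_mul_left ?_ hε'
    rw [e1]
    exact h7
  have h9 : (∑ _i : ι, (1 : ℝ)) ^ 2 ≤ (∑ i, wf (t i) (ρ i)) * ∑ i, (wf (t i) (ρ i))⁻¹ := by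
    refine Finset.sum_sq_le_sum_mul_sum_of_sq_le_mul _ (fun i _ => (hw i).le)
      (fun i _ => inv_nonneg.mpr (hw i).le) fun i _ => ?_
    rw [mul_inv_cancel₀ (hw i).ne', one_pow]
  have h10 : (∑ _i : ι, (1 : ℝ)) = (Fintype.card ι : ℝ) := by simp
  rw [h10] at h9
  have h11 : (Fintype.card ι : ℝ) ^ 2 ≤ (24 * √C * T ^ (759 / 400 : ℝ)) ^ 2 := by
    refine h9.trans ?_
    calc (∑ i, wf (t i) (ρ i)) * ∑ i, (wf (t i) (ρ i))⁻¹
        ≤ (C * T ^ (359 / 200 : ℝ)) * (576 * T ^ 2) :=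
          mul_le_mul h8 h4 (Finset.sum_nonneg fun i _ => inv_nonneg.mpr (hw i).le) (by positivity)
      _ = (24 * √C * T ^ (759 / 400 : ℝ)) ^ 2 := by
        have e1 : (T ^ (759 / 400 : ℝ)) ^ 2 = T ^ (359 / 200 : ℝ) * T ^ 2 := by
          rw [← Real.rpow_natCast (T ^ (759 / 400 : ℝ)) 2, ← Real.rpow_mul hTpos.le,
            ← Real.rpow_natCast T 2, ← Real.rpow_add hTpos]
          norm_num
        have e2 : (24 * √C * T ^ (759 / 400 : ℝ)) ^ 2 =
            576 * (√C) ^ 2 * (T ^ (759 / 400 : ℝ)) ^ 2 := by ring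
        rw [e2, e1, Real.sq_sqrt hC]
        ring
  exact le_of_sq_le_sq h11 (by positivity)

end Pool.Agent.A54.Ef
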