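import Pool.Agent.Lib.MP_a54f13_nt.Ef.Spec
import Pool.Agent.Lib.MP_a54f13_nt.LocGen

/-!
# Package `Ef`, module `Fa1`: the mean value
-/

set_option autoImplicit false

namespace Pool.Agent.A54.Ef

open MeasureTheory Filter Topology Set
open scoped ContDiff ComplexConjugate UpperHalfPlane MatrixGroups ENNReal
open Pool.Agent.A54.Half (H0 qq ff hh)
open Pool.Agent.A54.Av (Bump es Sm')
open Pool.Agent.A54.Sq (TestP)

noncomputable section

namespace Fa1M

private lemma bump_zero {η : ℂ → ℝ} (hη : Bump η) {z : ℂ} (hz : 1 < ‖z‖) : η z = 0 := by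
  by_contra h
  have h1 : z ∈ tsupport η := subset_tsupport _ h
  have h2 := hη.sub h1
  rw [mem_closedBall_zero_iff] at h2
  linarith

/-- moves a point up to `im z ≥ b` -/
private def up (b : ℝ) (z : ℂ) : ℂ := ⟨z.re, max z.im b⟩

private lemma up_cont (b : ℝ) : Continuous (up b) := by
  have : up b = fun z => ((z.re : ℂ) + ((max z.im b : ℝ) : ℂ) * Complex.I) := by
    funext z
    apply Complex.ext <;> simp [up]
  rw [this]
  fun_prop

private lemma up_eq {b : ℝ} {z : ℂ} (h : b ≤ z.im) : up b z = z := by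
  apply Complex.ext
  · rfl
  · exact max_eq_left h

private lemma Fup_cont {F : ℂ → ℝ} (hF : ContinuousOn F H0) {b : ℝ} (hb : 0 < b) :
    Continuous fun z => F (up b z) := by
  apply hF.comp_continuous (up_cont b)
  intro z
  change 0 < max z.im b
  exact lt_max_of_lt_right hb

/-- the scaled bump -/
private def Er (η : ℂ → ℝ) (r : ℝ) (u : ℂ) : ℝ := (r ^ 2)⁻¹ * η ((r : ℂ)⁻¹ * u)

private lemma Er_zero {η : ℂ → ℝ} (hη : Bump η) {r : ℝ} (hr : 0 < r) {u : ℂ} (hu : r < ‖u‖) :
    Er η r u = 0 := by
  unfold Er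
  rw [bump_zero hη, mul_zero]
  rw [norm_mul, norm_inv, Complex.norm_real, Real.norm_eq_abs, abs_of_pos hr,
    inv_mul_eq_div, lt_div_iff₀ hr]
  linarith

private lemma Er_nonneg {η : ℂ → ℝ} (hη : Bump η) (r : ℝ) (u : ℂ) : 0 ≤ Er η r u :=
  mul_nonneg (by positivity) (hη.nonneg _)

private lemma Er_cont {η : ℂ → ℝ} (hη : Bump η) (r : ℝ) : Continuous (Er η r) := by
  have h3 : Continuous η := hη.smooth.continuous
  exact continuous_const.mul (h3.comp (continuous_const.mul continuous_id))

private lemma Er_supp {η : ℂ → ℝ} (hη : Bump η) {r : ℝ} (hr : 0 < r) {u : ℂ}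
    (hu : u ∉ Metric.closedBall (0 : ℂ) r) : Er η r u = 0 := by
  apply Er_zero hη hr
  rw [mem_closedBall_zero_iff, not_le] at hu
  exact hu

private lemma Er_cpt {η : ℂ → ℝ} (hη : Bump η) {r : ℝ} (hr : 0 < r) :
    HasCompactSupport (Er η r) :=
  HasCompactSupport.intro (isCompact_closedBall (0 : ℂ) r) fun _ hu => Er_supp hη hr hu

private lemma Er_int {η : ℂ → ℝ} (hη : Bump η) {r : ℝ} (hr : 0 < r) : ∫ u, Er η r u = 1 := by
  unfold Er
  rw [integral_const_mul]
  have h := MeasureTheory.Measure.integral_comp_inv_smul (volume : Measure ℂ) η r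
  rw [Complex.finrank_real_complex, abs_of_pos (by positivity), hη.one, smul_eq_mul, mul_one] at h
  have h2 : ∫ a, η ((r : ℂ)⁻¹ * a) = ∫ x, η (r⁻¹ • x) := by
    congr 1
    funext x
    rw [Complex.real_smul, Complex.ofReal_inv]
  rw [h2, h]
  exact inv_mul_cancel₀ (by positivity)

private lemma Sm_eq {η : ℂ → ℝ} (hη : Bump η) {F : ℂ → ℝ} {b r : ℝ} (hr : 0 < r) (hrb : r ≤ b)
    {z0 : ℂ} (hz : 2 * b ≤ z0.im) :
    Sm' η r F z0 = ∫ u, Er η r u * F (up b (z0 + u)) := by
  unfold Sm'
  rw [← integral_add_left_eq_self (μ := (volume : Measure ℂ)) (fun z => es η r z0 z * F z) z0]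
  congr 1
  funext u
  have h0 : es η r z0 (z0 + u) = Er η r u := by
    unfold es Er
    rw [add_sub_cancel_left]
  rw [h0]
  by_cases hu : u ∈ Metric.closedBall (0 : ℂ) r
  · rw [mem_closedBall_zero_iff] at hu
    have h1 : |u.im| ≤ r := (Complex.abs_im_le_norm u).trans hu
    rw [abs_le] at h1
    rw [up_eq]
    rw [Complex.add_im]
    linarith [h1.1]
  · rw [Er_supp hη hr hu]
    simp

private lemma Sm_cont {η : ℂ → ℝ} (hη : Bump η) {F : ℂ → ℝ} (hF : ContinuousOn F H0) {b r : ℝ}
    (hr : 0 < r) (hrb : r ≤ b) : ContinuousOn (Sm' η r F) {z : ℂ | 2 * b ≤ z.im} := by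
  have hb : 0 < b := hr.trans_le hrb
  have h1 : Continuous fun z => F (up b z) := Fup_cont hF hb
  have h2 : Continuous fun z0 : ℂ => ∫ u in Metric.closedBall (0 : ℂ) r,
      Er η r u * F (up b (z0 + u)) := by
    apply continuous_parametric_integral_of_continuous
    · have h4 : Continuous fun p : ℂ × ℂ => F (up b (p.1 + p.2)) :=
        h1.comp (continuous_fst.add continuous_snd)
      exact ((Er_cont hη r).comp continuous_snd).mul h4
    · exact isCompact_closedBall _ _
  apply h2.continuousOn.congr
  intro z hz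
  rw [Sm_eq hη hr hrb hz]
  symm
  apply setIntegral_eq_integral_of_forall_compl_eq_zero
  intro u hu
  rw [Er_supp hη hr hu, zero_mul]

/-- the mean value of the smooth mean -/
private lemma mean_close {η : ℂ → ℝ} (hη : Bump η) {F : ℂ → ℝ} (hF : ContinuousOn F H0)
    (hF0 : ∀ z, 0 ≤ F z) {b r : ℝ} (hr : 0 < r) (hrb : r ≤ b) {φ0 : ℂ → ℝ} (hφ : TestR H0 φ0)
    {L : NNReal} (hL : LipschitzWith L φ0) (hK : ∀ z ∈ tsupport φ0, 3 * b ≤ z.im) {B : ℝ}
    (hB : ∫ z in Metric.cthickening b (tsupport φ0), F z ≤ B) :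
    |(∫ z, φ0 z * Sm' η r F z) - ∫ z, φ0 z * F z| ≤ L * r * B := by
  have hb : 0 < b := hr.trans_le hrb
  have hG : Continuous fun z => F (up b z) := Fup_cont hF hb
  set G : ℂ → ℝ := fun z => F (up b z) with hGdef
  have hφc : Continuous φ0 := hφ.smooth.continuous
  have hE := Er_cont hη r
  have hKc : IsCompact (Metric.cthickening b (tsupport φ0)) := hφ.cpt.isCompact.cthickening
  have hKim : ∀ z ∈ Metric.cthickening b (tsupport φ0), b ≤ z.im := by
    intro z hz
    rw [hφ.cpt.isCompact.cthickening_eq_biUnion_closedBall hb.le] at hz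
    simp only [mem_iUnion] at hz
    obtain ⟨w, hw, hzw⟩ := hz
    rw [mem_closedBall_iff_norm] at hzw
    have h1 : |(z - w).im| ≤ b := (Complex.abs_im_le_norm _).trans hzw
    rw [abs_le, Complex.sub_im] at h1
    linarith [h1.1, hK w hw]
  have hGF : ∀ z ∈ Metric.cthickening b (tsupport φ0), G z = F z := by
    intro z hz
    simp only [hGdef]
    rw [up_eq (hKim z hz)]
  have hsubK : tsupport φ0 ⊆ Metric.cthickening b (tsupport φ0) :=
    Metric.self_subset_cthickening _
  -- rewrite with `G`
  have e1 : ∫ z, φ0 z * F z = ∫ z, φ0 z * G z := by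
    congr 1
    funext z
    by_cases hz : z ∈ tsupport φ0
    · rw [hGF z (hsubK hz)]
    · rw [image_eq_zero_of_notMem_tsupport hz]
      simp
  have hEint : Integrable (Er η r) := hE.integrable_of_hasCompactSupport (Er_cpt hη hr)
  have e2 : ∫ z, φ0 z * Sm' η r F z = ∫ z, φ0 z * ∫ u, Er η r u * G (z + u) := by
    congr 1
    funext z
    by_cases hz : z ∈ tsupport φ0
    · rw [Sm_eq hη hr hrb (by linarith [hK z hz])]
    · rw [image_eq_zero_of_notMem_tsupport hz]
      simp
  have hφint : Integrable (fun z => φ0 z * G z) :=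
    (hφc.mul hG).integrable_of_hasCompactSupport hφ.cpt.mul_right
  have hEG : ∀ z, Integrable (fun u => Er η r u * G (z + u)) := by
    intro z
    apply Continuous.integrable_of_hasCompactSupport
    · exact hE.mul (hG.comp (continuous_const.add continuous_id))
    · exact (Er_cpt hη hr).mul_right
  have hinner : ∀ z, (∫ u, Er η r u * G (z + u)) - G z =
      ∫ u, Er η r u * (G (z + u) - G z) := by
    intro z
    have h1 : ∫ u, Er η r u * G z = G z := by
      rw [integral_mul_const, Er_int hη hr, one_mul]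
    calc (∫ u, Er η r u * G (z + u)) - G z
        = (∫ u, Er η r u * G (z + u)) - ∫ u, Er η r u * G z := by rw [h1]
      _ = ∫ u, (Er η r u * G (z + u) - Er η r u * G z) :=
        (integral_sub (hEG z) (hEint.mul_const _)).symm
      _ = _ := by
        congr 1
        funext u
        ring
  have hScont : Continuous fun z => ∫ u, Er η r u * G (z + u) := by
    have h2 : Continuous fun z0 : ℂ => ∫ u in Metric.closedBall (0 : ℂ) r,
        Er η r u * G (z0 + u) := by
      apply continuous_parametric_integral_of_continuous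
      · exact (hE.comp continuous_snd).mul (hG.comp (continuous_fst.add continuous_snd))
      · exact isCompact_closedBall _ _
    have h3 : (fun z => ∫ u, Er η r u * G (z + u)) = fun z0 : ℂ =>
        ∫ u in Metric.closedBall (0 : ℂ) r, Er η r u * G (z0 + u) := by
      funext z
      symm
      apply setIntegral_eq_integral_of_forall_compl_eq_zero
      intro u hu
      rw [Er_supp hη hr hu, zero_mul]
    rw [h3]
    exact h2
  have hφSint : Integrable (fun z => φ0 z * ∫ u, Er η r u * G (z + u)) :=
    (hφc.mul hScont).integrable_of_hasCompactSupport hφ.cpt.mul_right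
  have e3 : (∫ z, φ0 z * Sm' η r F z) - ∫ z, φ0 z * F z =
      ∫ z, ∫ u, φ0 z * (Er η r u * (G (z + u) - G z)) := by
    rw [e1, e2, ← integral_sub hφSint hφint]
    congr 1
    funext z
    rw [← mul_sub, hinner z, integral_const_mul]
  have e4 : ∫ z, ∫ u, φ0 z * (Er η r u * (G (z + u) - G z)) =
      ∫ u, ∫ z, φ0 z * (Er η r u * (G (z + u) - G z)) := by
    apply integral_integral_swap_of_hasCompactSupport
    · have h4 : Continuous fun p : ℂ × ℂ => G (p.1 + p.2) :=
        hG.comp (continuous_fst.add continuous_snd)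
      have h5 : Continuous fun p : ℂ × ℂ => G p.1 := hG.comp continuous_fst
      exact (hφc.comp continuous_fst).mul ((hE.comp continuous_snd).mul (h4.sub h5))
    · apply HasCompactSupport.intro (hφ.cpt.isCompact.prod (isCompact_closedBall (0 : ℂ) r))
      rintro ⟨z, u⟩ hp
      rw [mem_prod, not_and_or] at hp
      change φ0 z * (Er η r u * (G (z + u) - G z)) = 0
      rcases hp with hp | hp
      · rw [image_eq_zero_of_notMem_tsupport hp, zero_mul]
      · rw [Er_supp hη hr hp]
        ring
  have hdiff : ∀ u ∈ Metric.closedBall (0 : ℂ) r, |∫ z, φ0 z * (G (z + u) - G z)| ≤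
      L * r * B := by
    intro u hu
    rw [mem_closedBall_zero_iff] at hu
    have i1 : Integrable fun z => φ0 z * G (z + u) :=
      (hφc.mul (hG.comp (continuous_id.add continuous_const))).integrable_of_hasCompactSupport
        hφ.cpt.mul_right
    have i2 : Integrable fun z => φ0 (z - u) * G z := by
      have := i1.comp_sub_right u
      simpa using this
    have h1 : ∫ z, φ0 z * (G (z + u) - G z) = ∫ z, (φ0 (z - u) - φ0 z) * G z := by
      calc ∫ z, φ0 z * (G (z + u) - G z) = ∫ z, (φ0 z * G (z + u) - φ0 z * G z) := by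
            congr 1
            funext z
            ring
        _ = (∫ z, φ0 z * G (z + u)) - ∫ z, φ0 z * G z := integral_sub i1 hφint
        _ = (∫ z, φ0 (z - u) * G z) - ∫ z, φ0 z * G z := by
            congr 1
            rw [← integral_sub_right_eq_self (fun z => φ0 z * G (z + u)) u]
            congr 1
            funext z
            rw [sub_add_cancel]
        _ = ∫ z, (φ0 (z - u) * G z - φ0 z * G z) := (integral_sub i2 hφint).symm
        _ = _ := by
            congr 1
            funext z
            ring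
    have h2 : ∫ z, (φ0 (z - u) - φ0 z) * G z =
        ∫ z in Metric.cthickening b (tsupport φ0), (φ0 (z - u) - φ0 z) * G z := by
      symm
      apply setIntegral_eq_integral_of_forall_compl_eq_zero
      intro z hz
      have h3 : z ∉ tsupport φ0 := fun h => hz (hsubK h)
      have h4 : z - u ∉ tsupport φ0 := by
        intro h
        apply hz
        apply Metric.mem_cthickening_of_dist_le z (z - u) _ _ h
        rw [dist_eq_norm]
        rw [sub_sub_cancel]
        exact hu.trans hrb
      rw [image_eq_zero_of_notMem_tsupport h3, image_eq_zero_of_notMem_tsupport h4]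
      ring
    have hGint : IntegrableOn G (Metric.cthickening b (tsupport φ0)) :=
      hG.continuousOn.integrableOn_compact hKc
    rw [h1, h2]
    calc |∫ z in Metric.cthickening b (tsupport φ0), (φ0 (z - u) - φ0 z) * G z|
        ≤ ∫ z in Metric.cthickening b (tsupport φ0), (L * r) * G z := by
          rw [← Real.norm_eq_abs]
          apply norm_integral_le_of_norm_le (hGint.const_mul _)
          apply ae_of_all
          intro z
          rw [norm_mul, Real.norm_eq_abs (G z), abs_of_nonneg (hF0 _)]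
          apply mul_le_mul_of_nonneg_right _ (hF0 _)
          have h5 := hL.dist_le_mul (z - u) z
          rw [dist_eq_norm, dist_eq_norm] at h5
          refine h5.trans ?_
          apply mul_le_mul_of_nonneg_left _ L.coe_nonneg
          rw [sub_sub_cancel_left, norm_neg]
          exact hu
      _ = (L * r) * ∫ z in Metric.cthickening b (tsupport φ0), F z := by
          rw [integral_const_mul]
          congr 1
          exact setIntegral_congr_fun hKc.measurableSet hGF
      _ ≤ (L * r) * B := mul_le_mul_of_nonneg_left hB (by positivity)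
  rw [e3, e4]
  have hB0 : 0 ≤ L * r * B := (abs_nonneg _).trans (hdiff 0 (by simp [hr.le]))
  calc |∫ u, ∫ z, φ0 z * (Er η r u * (G (z + u) - G z))|
      ≤ ∫ u, Er η r u * (L * r * B) := by
        rw [← Real.norm_eq_abs]
        apply norm_integral_le_of_norm_le (hEint.mul_const _)
        apply ae_of_all
        intro u
        have h1 : ∫ z, φ0 z * (Er η r u * (G (z + u) - G z)) =
            Er η r u * ∫ z, φ0 z * (G (z + u) - G z) := by
          rw [← integral_const_mul]
          congr 1
          funext z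
          ring
        rw [h1, norm_mul, Real.norm_eq_abs, abs_of_nonneg (Er_nonneg hη r u), Real.norm_eq_abs]
        by_cases hu : u ∈ Metric.closedBall (0 : ℂ) r
        · exact mul_le_mul_of_nonneg_left (hdiff u hu) (Er_nonneg hη r u)
        · rw [Er_supp hη hr hu]
          simp
    _ = L * r * B := by
        rw [integral_mul_const, Er_int hη hr, one_mul]

/-- the mean square deviation from the mean value -/
private lemma dev {S : ℂ → ℝ} {K : Set ℂ} (hK : IsCompact K) (hS : ContinuousOn S K)
    {φ φ0 : ℂ → ℝ} (hφ : Continuous φ) (hφ0 : Continuous φ0) (h1 : tsupport φ ⊆ K)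
    (h2 : tsupport φ0 ⊆ K) (p : ∀ z, 0 ≤ φ z) (p0 : ∀ z, 0 ≤ φ0 z) (hint : ∫ z, φ0 z = 1)
    {A A0 : ℝ} (hA : ∀ z, φ z ≤ A) (hA0 : ∀ z, φ0 z ≤ A0) :
    ∫ z, φ z * (S z - ∫ w, φ0 w * S w) ^ 2 ≤
      A * A0 * ∫ z in K, ∫ z' in K, (S z - S z') ^ 2 := by
  have hA00 : 0 ≤ A0 := (p0 0).trans (hA0 0)
  have hAp : 0 ≤ A := (p 0).trans (hA 0)
  set s : ℝ := ∫ w, φ0 w * S w with hs
  have out : ∀ {ψ : ℂ → ℝ}, tsupport ψ ⊆ K → ∀ g : ℂ → ℝ, ∫ z, ψ z * g z =
      ∫ z in K, ψ z * g z := by
    intro ψ hψ g
    symm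
    apply setIntegral_eq_integral_of_forall_compl_eq_zero
    intro z hz
    rw [image_eq_zero_of_notMem_tsupport (fun h => hz (hψ h)), zero_mul]
  have hI : ∀ {g : ℂ → ℝ}, ContinuousOn g K → IntegrableOn g K := fun h =>
    h.integrableOn_compact hK
  have c0 : ContinuousOn φ0 K := hφ0.continuousOn
  have cφ : ContinuousOn φ K := hφ.continuousOn
  have hone : ∫ z in K, φ0 z = 1 := by
    have := out h2 (fun _ => 1)
    simp only [mul_one] at this
    rw [← this, hint]
  have hsK : ∫ z in K, φ0 z * S z = s := (out h2 S).symm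
  -- the second moment
  have hexp : ∀ a : ℝ, ∫ z in K, φ0 z * (a - S z) ^ 2 =
      a ^ 2 - 2 * a * s + ∫ z in K, φ0 z * S z ^ 2 := by
    intro a
    have i1 : IntegrableOn (fun z => a ^ 2 * φ0 z) K := hI (continuousOn_const.mul c0)
    have i2 : IntegrableOn (fun z => 2 * a * (φ0 z * S z)) K :=
      hI (continuousOn_const.mul (c0.mul hS))
    have i3 : IntegrableOn (fun z => φ0 z * S z ^ 2) K := hI (c0.mul (hS.pow 2))
    have i4 : IntegrableOn (fun z => a ^ 2 * φ0 z - 2 * a * (φ0 z * S z)) K := i1.sub i2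
    calc ∫ z in K, φ0 z * (a - S z) ^ 2
        = ∫ z in K, ((a ^ 2 * φ0 z - 2 * a * (φ0 z * S z)) + φ0 z * S z ^ 2) := by
          congr 1
          funext z
          ring
      _ = (∫ z in K, (a ^ 2 * φ0 z - 2 * a * (φ0 z * S z))) + ∫ z in K, φ0 z * S z ^ 2 :=
          integral_add i4 i3
      _ = ((∫ z in K, a ^ 2 * φ0 z) - ∫ z in K, 2 * a * (φ0 z * S z)) +
          ∫ z in K, φ0 z * S z ^ 2 := by
          rw [integral_sub i1 i2]
      _ = a ^ 2 - 2 * a * s + ∫ z in K, φ0 z * S z ^ 2 := by
          rw [integral_const_mul, integral_const_mul, hone, hsK]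
          ring
  have hsq : s ^ 2 ≤ ∫ z in K, φ0 z * S z ^ 2 := by
    have h3 : 0 ≤ ∫ z in K, φ0 z * (s - S z) ^ 2 :=
      integral_nonneg fun z => mul_nonneg (p0 z) (sq_nonneg _)
    rw [hexp s] at h3
    nlinarith
  have hinner : ∀ z ∈ K, (S z - s) ^ 2 ≤ A0 * ∫ z' in K, (S z - S z') ^ 2 := by
    intro z _
    calc (S z - s) ^ 2 ≤ ∫ z' in K, φ0 z' * (S z - S z') ^ 2 := by
          rw [hexp (S z)]
          nlinarith
      _ ≤ ∫ z' in K, A0 * (S z - S z') ^ 2 := by
          apply integral_mono
          · exact hI (c0.mul ((continuousOn_const.sub hS).pow 2))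
          · exact hI (continuousOn_const.mul ((continuousOn_const.sub hS).pow 2))
          · intro z'
            exact mul_le_mul_of_nonneg_right (hA0 z') (sq_nonneg _)
      _ = A0 * ∫ z' in K, (S z - S z') ^ 2 := integral_const_mul _ _
  have hdc : ContinuousOn (fun z => ∫ z' in K, (S z - S z') ^ 2) K := by
    have key : ∀ z, ∫ z' in K, (S z - S z') ^ 2 =
        S z ^ 2 * volume.real K - 2 * S z * (∫ z' in K, S z') + ∫ z' in K, S z' ^ 2 := by
      intro z
      have i1 : IntegrableOn (fun _ : ℂ => S z ^ 2) K := hI continuousOn_const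
      have i2 : IntegrableOn (fun z' => 2 * S z * S z') K := hI (continuousOn_const.mul hS)
      have i3 : IntegrableOn (fun z' => S z' ^ 2) K := hI (hS.pow 2)
      have i4 : IntegrableOn (fun z' => S z ^ 2 - 2 * S z * S z') K := i1.sub i2
      calc ∫ z' in K, (S z - S z') ^ 2 = ∫ z' in K, ((S z ^ 2 - 2 * S z * S z') + S z' ^ 2) := by
            congr 1
            funext z'
            ring
        _ = (∫ z' in K, (S z ^ 2 - 2 * S z * S z')) + ∫ z' in K, S z' ^ 2 := integral_add i4 i3
        _ = ((∫ _z' in K, S z ^ 2) - ∫ z' in K, 2 * S z * S z') + ∫ z' in K, S z' ^ 2 := by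
            rw [integral_sub i1 i2]
        _ = _ := by
            rw [integral_const_mul, setIntegral_const, smul_eq_mul]
            ring
    simp only [key]
    exact (((hS.pow 2).mul continuousOn_const).sub
      ((continuousOn_const.mul hS).mul continuousOn_const)).add continuousOn_const
  calc ∫ z, φ z * (S z - s) ^ 2 = ∫ z in K, φ z * (S z - s) ^ 2 := out h1 _
    _ ≤ ∫ z in K, A * A0 * ∫ z' in K, (S z - S z') ^ 2 := by
        apply setIntegral_mono_on _ _ hK.measurableSet
        · intro z hz
          have h4 := hinner z hz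
          calc φ z * (S z - s) ^ 2 ≤ A * (A0 * ∫ z' in K, (S z - S z') ^ 2) :=
                mul_le_mul (hA z) h4 (sq_nonneg _) hAp
            _ = A * A0 * ∫ z' in K, (S z - S z') ^ 2 := by ring
        · exact hI (cφ.mul ((hS.sub continuousOn_const).pow 2))
        · exact hI (continuousOn_const.mul hdc)
    _ = A * A0 * ∫ z in K, ∫ z' in K, (S z - S z') ^ 2 := integral_const_mul _ _

private lemma bdd {φ : ℂ → ℝ} (hφ : TestR H0 φ) : ∃ A : ℝ, ∀ z, φ z ≤ A := by
  obtain ⟨A, hA⟩ := hφ.cpt.exists_bound_of_continuous hφ.smooth.continuous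
  refine ⟨A, fun z => ?_⟩
  have := hA z
  rw [Real.norm_eq_abs] at this
  exact (le_abs_self _).trans this

/-- products with a test function are integrable -/
private lemma intg {K : Set ℂ} (hK : IsCompact K) {φ g : ℂ → ℝ} (hφ : Continuous φ)
    (h : tsupport φ ⊆ K) (hg : ContinuousOn g K) : Integrable fun z => φ z * g z := by
  have h1 : IntegrableOn (fun z => φ z * g z) K :=
    (hφ.continuousOn.mul hg).integrableOn_compact hK
  refine (integrableOn_iff_integrable_of_support_subset ?_).1 h1
  intro z hz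
  by_contra h2
  apply hz
  show φ z * g z = 0
  rw [image_eq_zero_of_notMem_tsupport (fun h3 => h2 (h h3)), zero_mul]

end Fa1M

open Fa1M in
/-- **Fa1** the mean value -/
theorem stmtFa1 : StmtFa1 := by
  intro η hη F r hF hF0 hr hr0 hB hX φ0 c hφ0 hint hlim φ hφ
  obtain ⟨A, hA⟩ := bdd hφ.test
  obtain ⟨A0, hA0⟩ := bdd hφ0.test
  set K : Set ℂ := tsupport φ ∪ tsupport φ0 with hKdef
  have hK : IsCompact K := hφ.test.cpt.isCompact.union hφ0.test.cpt.isCompact
  have hKH : K ⊆ H0 := union_subset hφ.test.sub hφ0.test.sub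
  obtain ⟨b, hb, hKb⟩ : ∃ b : ℝ, 0 < b ∧ ∀ z ∈ K, 3 * b ≤ z.im := by
    rcases K.eq_empty_or_nonempty with h | h
    · exact ⟨1, one_pos, by simp [h]⟩
    · obtain ⟨z0, hz0, hmin⟩ := hK.exists_isMinOn h Complex.continuous_im.continuousOn
      have h1 : 0 < z0.im := hKH hz0
      refine ⟨z0.im / 3, by positivity, fun z hz => ?_⟩
      have h2 : z0.im ≤ z.im := hmin hz
      linarith
  have hrb : ∀ᶠ i in atTop, r i ≤ b := (hr0.eventually_lt_const hb).mono fun _ h => h.le
  -- the mean values of the smooth mean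
  have mc : ∀ ψ : ℂ → ℝ, TestP H0 ψ → tsupport ψ ⊆ K →
      Tendsto (fun i => (∫ z, ψ z * Sm' η (r i) (F i) z) - ∫ z, ψ z * F i z) atTop (𝓝 0) := by
    intro ψ hψ hψK
    obtain ⟨L, hL⟩ := ContDiff.lipschitzWith_of_hasCompactSupport hψ.test.cpt hψ.test.smooth
      (by simp)
    have hK'c : IsCompact (Metric.cthickening b (tsupport ψ)) :=
      hψ.test.cpt.isCompact.cthickening
    have hK'H : Metric.cthickening b (tsupport ψ) ⊆ H0 := by
      intro z hz
      rw [hψ.test.cpt.isCompact.cthickening_eq_biUnion_closedBall hb.le] at hz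
      simp only [mem_iUnion] at hz
      obtain ⟨w, hw, hzw⟩ := hz
      rw [mem_closedBall_iff_norm] at hzw
      have h1 : |(z - w).im| ≤ b := (Complex.abs_im_le_norm _).trans hzw
      rw [abs_le, Complex.sub_im] at h1
      have h2 := hKb w (hψK hw)
      change 0 < z.im
      linarith [h1.1]
    obtain ⟨B, hB⟩ := hB _ hK'c hK'H
    have h2 : Tendsto (fun i => (L : ℝ) * (r i) * B) atTop (𝓝 0) := by
      have := (hr0.const_mul (L : ℝ)).mul_const B
      simpa using this
    apply squeeze_zero_norm' _ h2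
    filter_upwards [hrb] with i h4
    rw [Real.norm_eq_abs]
    exact mean_close hη (hF i) (hF0 i) (hr i) h4 hψ.test hL
      (fun z hz => hKb z (hψK hz)) (hB i)
  have hs : Tendsto (fun i => ∫ z, φ0 z * Sm' η (r i) (F i) z) atTop (𝓝 c) := by
    have h5 := (mc φ0 hφ0 subset_union_right).add hlim
    simpa using h5
  have hScont : ∀ᶠ i in atTop, ContinuousOn (Sm' η (r i) (F i)) K := by
    filter_upwards [hrb] with i h3
    exact (Sm_cont hη (hF i) (hr i) h3).mono fun z hz => by
      have := hKb z hz
      change 2 * b ≤ z.im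
      linarith
  have hfirst : Tendsto (fun i => ∫ z, φ z * (Sm' η (r i) (F i) z - c) ^ 2) atTop (𝓝 0) := by
    have hup : Tendsto (fun i => 2 * (A * A0 * ∫ z in K, ∫ z' in K,
        (Sm' η (r i) (F i) z - Sm' η (r i) (F i) z') ^ 2) +
        2 * ((∫ z, φ0 z * Sm' η (r i) (F i) z) - c) ^ 2 * (∫ z, φ z)) atTop (𝓝 0) := by
      have h1 := ((hX K hK hKH).const_mul (A * A0)).const_mul 2
      have h2 := (((hs.sub_const c).pow 2).const_mul 2).mul_const (∫ z, φ z)
      have h3 := h1.add h2
      simpa using h3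
    refine squeeze_zero' (Eventually.of_forall fun i => integral_nonneg fun z =>
      mul_nonneg (hφ.nonneg z) (sq_nonneg _)) ?_ hup
    filter_upwards [hScont] with i hS
    have hd := dev hK hS hφ.test.smooth.continuous hφ0.test.smooth.continuous subset_union_left
      subset_union_right hφ.nonneg hφ0.nonneg hint hA hA0
    set S : ℂ → ℝ := Sm' η (r i) (F i) with hSdef
    set s : ℝ := ∫ w, φ0 w * S w with hsdef
    have cφ := hφ.test.smooth.continuous
    have i1 : Integrable (fun z => φ z * (S z - c) ^ 2) :=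
      intg hK cφ subset_union_left ((hS.sub continuousOn_const).pow 2)
    have i2 : Integrable (fun z => φ z * (S z - s) ^ 2) :=
      intg hK cφ subset_union_left ((hS.sub continuousOn_const).pow 2)
    have i3 : Integrable φ := hφ.test.integrable
    calc ∫ z, φ z * (S z - c) ^ 2
        ≤ ∫ z, (2 * (φ z * (S z - s) ^ 2) + 2 * (s - c) ^ 2 * φ z) := by
          apply integral_mono i1 ((i2.const_mul 2).add (i3.const_mul _))
          intro z
          have h5 : (S z - c) ^ 2 ≤ 2 * (S z - s) ^ 2 + 2 * (s - c) ^ 2 := by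
            nlinarith [sq_nonneg ((S z - s) - (s - c))]
          have h6 := mul_le_mul_of_nonneg_left h5 (hφ.nonneg z)
          change φ z * (S z - c) ^ 2 ≤ 2 * (φ z * (S z - s) ^ 2) + 2 * (s - c) ^ 2 * φ z
          linarith
      _ = 2 * (∫ z, φ z * (S z - s) ^ 2) + 2 * (s - c) ^ 2 * ∫ z, φ z := by
          rw [integral_add (i2.const_mul 2) (i3.const_mul _), integral_const_mul,
            integral_const_mul]
      _ ≤ _ := by linarith
  refine ⟨hfirst, ?_⟩
  -- the weak limit
  have hsecond : Tendsto (fun i => ∫ z, φ z * (Sm' η (r i) (F i) z - c)) atTop (𝓝 0) := by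
    have h5 : Tendsto (fun i => √((∫ z, φ z * (Sm' η (r i) (F i) z - c) ^ 2) *
        ∫ z, φ z)) atTop (𝓝 0) := by
      have h6 := hfirst.mul_const (∫ z, φ z)
      rw [zero_mul] at h6
      have h7 := (Real.continuous_sqrt.tendsto 0).comp h6
      rw [Real.sqrt_zero] at h7
      exact h7
    refine squeeze_zero_norm' ?_ h5
    filter_upwards [hScont] with i hS
    rw [Real.norm_eq_abs]
    apply Real.abs_le_sqrt
    have cφ := hφ.test.smooth.continuous
    have h3 := LocGen.cs (w := φ) (a := fun z => Sm' η (r i) (F i) z - c)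
      (b := fun _ => 1) hφ.nonneg
      (intg hK cφ subset_union_left ((hS.sub continuousOn_const).pow 2))
      (intg hK cφ subset_union_left continuousOn_const)
      (intg hK cφ subset_union_left ((hS.sub continuousOn_const).mul continuousOn_const))
    simp only [mul_one, one_pow] at h3
    exact h3
  have h8 := (hsecond.add (tendsto_const_nhds (x := c * ∫ z, φ z))).sub
    (mc φ hφ subset_union_left)
  rw [zero_add, sub_zero] at h8
  refine h8.congr' ?_
  filter_upwards [hScont] with i hS
  have cφ := hφ.test.smooth.continuous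
  have i1 : Integrable (fun z => φ z * Sm' η (r i) (F i) z) :=
    intg hK cφ subset_union_left hS
  have h9 : ∫ z, φ z * (Sm' η (r i) (F i) z - c) =
      (∫ z, φ z * Sm' η (r i) (F i) z) - c * ∫ z, φ z := by
    rw [← integral_const_mul, ← integral_sub i1 (hφ.test.integrable.const_mul _)]
    refine integral_congr_ae (Eventually.of_forall fun z => ?_)
    simp only
    ring
  rw [h9]
  ring

end

end Pool.Agent.A54.Ef
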