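import Pool.Agent.Lib.MP_a54f13_nt.Ef.Spec
import Pool.Agent.Lib.MP_a54f13_nt.Av.Far

/-!
# Package `Ef`, module `Far`: the other matrices, explicit in `ε`
-/

set_option autoImplicit false

namespace Pool.Agent.A54.Ef

open MeasureTheory Filter Topology Set
open scoped ContDiff ComplexConjugate UpperHalfPlane MatrixGroups ENNReal
open Pool.Agent.A54.Half (H0 qq ff hh)
open Pool.Agent.A54.Av (Mat VV Vd msq bet)
open Pool.Agent.A54.Av.FarM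

theorem stmtFar (hQF : Av.StmtQF) (hGe : Av.StmtGe) : StmtFar := by
  intro K hK hKH
  obtain ⟨m0, M0, hm0, hM0, hb⟩ := cpt K hK hKH
  -- bounds on the discs
  set m : ℝ := m0 / 2 with hm
  set M : ℝ := M0 + 1 with hM
  have hmp : 0 < m := by positivity
  have hMp : 0 ≤ M := by positivity
  set K' : Set ℂ := Metric.closedBall (0 : ℂ) M ∩ {z : ℂ | m ≤ z.im} with hK'
  have hK'c : IsCompact K' := (isCompact_closedBall _ _).inter_right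
    (isClosed_le continuous_const Complex.continuous_im)
  have hK'H : K' ⊆ H0 := fun z hz => hmp.trans_le hz.2
  obtain ⟨C, hC, hG⟩ := hGe K' hK'c hK'H
  set D : ℝ := (M ^ 2 + 1) / m with hD
  have hDp : 0 < D := by positivity
  set C2 : ℝ := 2 * (16 / m ^ 2 + 2) * D ^ 2 with hC2
  have hC2p : 0 < C2 := by positivity
  set L : ℝ := (M + 1) / m + (M + 1) ^ 2 / (2 * m ^ 2) with hL
  have hLp : 0 < L := by positivity
  have hsC : 0 < √C2 := Real.sqrt_pos.2 hC2p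
  set Q : ℝ := 64 / m ^ 2 + (2 + 16 * M / m) ^ 2 + (C + 8 * M ^ 2 / m) ^ 2 +
    16 * (16 / m ^ 2 + 1) with hQ
  have hQp : 0 < Q := by positivity
  refine ⟨1 / Q, min (min 1 m) (1 / (4 * L * √C2)), by positivity, by positivity, ?_⟩
  intro ε hε hε1 z0 hz0 r hr hr0 γ hdet hc hex z hz
  obtain ⟨z1, hz1, hV1⟩ := hex
  have hr00 : r ≤ min (min 1 m) (1 / (4 * L * √C2)) := hr0.trans (by
    have : 0 < min (min 1 m) (1 / (4 * L * √C2)) := by positivity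
    nlinarith)
  have hr1 : r ≤ 1 := hr00.trans ((min_le_left _ _).trans (min_le_left _ _))
  have hrm : r ≤ m := hr00.trans ((min_le_left _ _).trans (min_le_right _ _))
  have hrL : r ≤ 1 / (4 * L * √C2) * ε := hr0.trans
    (mul_le_mul_of_nonneg_right (min_le_right _ _) hε.le)
  obtain ⟨hb1, hb2⟩ := hb z0 hz0
  have disc : ∀ w ∈ Metric.closedBall z0 r, m ≤ w.im ∧ ‖w‖ ≤ M := by
    intro w hw
    rw [Metric.mem_closedBall, dist_eq_norm] at hw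
    constructor
    · have h1 := Complex.abs_im_le_norm (w - z0)
      have h2 : |w.im - z0.im| ≤ r := by simpa using h1.trans hw
      have := (abs_le.1 h2).1
      linarith
    · have : ‖w‖ ≤ ‖w - z0‖ + ‖z0‖ := by
        have := norm_add_le (w - z0) z0
        simpa using this
      linarith
  obtain ⟨hzi, hzn⟩ := disc z hz
  obtain ⟨hwi, hwn⟩ := disc z1 hz1
  have hzi0 : 0 < z.im := by linarith
  have hwi0 : 0 < z1.im := by linarith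
  have hzH : z ∈ H0 := hzi0
  have hwH : z1 ∈ H0 := hwi0
  have sq' : ∀ w : ℂ, w ∈ H0 → Vd γ w = SS γ w ^ 2 := by
    intro w hw
    rw [(hQF γ w w hw hw).2.2.2.2.1]
    unfold SS NN
    rw [div_pow]
    congr 1
    ring
  have hVn : 0 ≤ Vd γ z1 := by rw [sq' z1 hwH]; positivity
  have hVz : 0 ≤ Vd γ z := by rw [sq' z hzH]; positivity
  have hd1 : (1 : ℝ) ≤ ((γ.det : ℤ) : ℝ) := by exact_mod_cast hdet
  have h7 : ((γ 1 0 : ℤ) : ℝ) ^ 2 * m ^ 2 ≤ 16 * Vd γ z1 := by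
    have : ((γ 1 0 : ℤ) : ℝ) ^ 2 * m ^ 2 ≤ ((γ 1 0 : ℤ) : ℝ) ^ 2 * z1.im ^ 2 := by
      gcongr
    nlinarith
  have h7' : ((γ 1 0 : ℤ) : ℝ) ^ 2 ≤ 16 / m ^ 2 * Vd γ z1 := by
    rw [div_mul_eq_mul_div, le_div_iff₀ (by positivity)]
    exact h7
  have h6' : ε ^ 2 * ((γ.det : ℤ) : ℝ) ≤ 16 / m ^ 2 * Vd γ z1 := hc.trans h7'
  have hms : ε ^ 2 * msq γ ≤ C2 * Vd γ z1 := by
    have h4 := (hQF γ z1 z1 hwH hwH).2.2.2.1
    change msq γ ≤ 2 * (((γ.det : ℤ) : ℝ) + 2 * Vd γ z1) * ((‖z1‖ ^ 2 + 1) / z1.im) *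
      ((‖z1‖ ^ 2 + 1) / z1.im) at h4
    have h5 : (‖z1‖ ^ 2 + 1) / z1.im ≤ D := by
      rw [hD]
      gcongr
    have h8 : 0 ≤ (‖z1‖ ^ 2 + 1) / z1.im := by positivity
    have hε2 : ε ^ 2 ≤ 1 := by nlinarith
    calc ε ^ 2 * msq γ ≤ ε ^ 2 * (2 * (((γ.det : ℤ) : ℝ) + 2 * Vd γ z1) *
          ((‖z1‖ ^ 2 + 1) / z1.im) * ((‖z1‖ ^ 2 + 1) / z1.im)) := by
          gcongr
      _ ≤ ε ^ 2 * (2 * (((γ.det : ℤ) : ℝ) + 2 * Vd γ z1) * D * D) := by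
          gcongr
      _ = 2 * (ε ^ 2 * ((γ.det : ℤ) : ℝ) + 2 * (ε ^ 2 * Vd γ z1)) * D * D := by ring
      _ ≤ 2 * (16 / m ^ 2 * Vd γ z1 + 2 * (1 * Vd γ z1)) * D * D := by
          gcongr
      _ = C2 * Vd γ z1 := by rw [hC2]; ring
  have hGn := GG_nonneg γ
  have hS1 : 0 ≤ SS γ z1 := by unfold SS; positivity
  have hSz : 0 ≤ SS γ z := by unfold SS; positivity
  have h9 : ε * GG γ ≤ √C2 * SS γ z1 := by
    refine le_of_sq_le_sq ?_ (by positivity)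
    rw [mul_pow, GG_sq, mul_pow, Real.sq_sqrt hC2p.le, ← sq' z1 hwH]
    exact hms
  have hlip := lip m M hmp hMp γ z1 z hwn hzn hwi hzi
  rw [← hL] at hlip
  have hdist : ‖z1 - z‖ ≤ 2 * r := by
    have hz' := hz
    have hz1' := hz1
    rw [Metric.mem_closedBall, dist_eq_norm] at hz' hz1'
    have : z1 - z = (z1 - z0) - (z - z0) := by ring
    rw [this]
    have := norm_sub_le (z1 - z0) (z - z0)
    linarith
  have h10 : GG γ * L * ‖z1 - z‖ ≤ SS γ z1 / 2 := by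
    calc GG γ * L * ‖z1 - z‖ ≤ GG γ * L * (2 * (1 / (4 * L * √C2) * ε)) := by
          have := hdist.trans (mul_le_mul_of_nonneg_left hrL (by norm_num : (0 : ℝ) ≤ 2))
          gcongr
      _ = (ε * GG γ) / √C2 / 2 := by
          field_simp
          ring
      _ ≤ (√C2 * SS γ z1) / √C2 / 2 := by gcongr
      _ = SS γ z1 / 2 := by
          field_simp
  have h14 : SS γ z1 ≤ 2 * SS γ z := by linarith
  have h15 : Vd γ z1 ≤ 4 * Vd γ z := by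
    rw [sq' z1 hwH, sq' z hzH]
    nlinarith
  -- the four entries
  have e1 : ((γ 1 0 : ℤ) : ℝ) ^ 2 ≤ 64 / m ^ 2 * Vd γ z := by
    calc ((γ 1 0 : ℤ) : ℝ) ^ 2 ≤ 16 / m ^ 2 * Vd γ z1 := h7'
      _ ≤ 16 / m ^ 2 * (4 * Vd γ z) := by gcongr
      _ = 64 / m ^ 2 * Vd γ z := by ring
  obtain ⟨g1, g2, -, g4⟩ := hG z ⟨by simpa using hzn, hzi⟩ γ (SS γ z) hSz (by rw [sq' z hzH])
  obtain ⟨-, -, -, g4'⟩ := hG z1 ⟨by simpa using hwn, hwi⟩ γ (SS γ z1) hS1 (by rw [sq' z1 hwH])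
  have e2 : ε ^ 2 * ((γ 0 0 + γ 1 1 : ℤ) : ℝ) ^ 2 ≤ 16 * (16 / m ^ 2 + 1) * Vd γ z := by
    have hε2 : ε ^ 2 ≤ 1 := by nlinarith
    calc ε ^ 2 * ((γ 0 0 + γ 1 1 : ℤ) : ℝ) ^ 2 ≤
          ε ^ 2 * (4 * (((γ.det : ℤ) : ℝ) + Vd γ z1)) := by gcongr
      _ = 4 * (ε ^ 2 * ((γ.det : ℤ) : ℝ) + ε ^ 2 * Vd γ z1) := by ring
      _ ≤ 4 * (16 / m ^ 2 * Vd γ z1 + 1 * Vd γ z1) := by gcongr
      _ = 4 * (16 / m ^ 2 + 1) * Vd γ z1 := by ring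
      _ ≤ 4 * (16 / m ^ 2 + 1) * (4 * Vd γ z) := by gcongr
      _ = 16 * (16 / m ^ 2 + 1) * Vd γ z := by ring
  have hc8 : |((γ 1 0 : ℤ) : ℝ)| ≤ 8 / m * SS γ z := by
    refine abs_le_of_sq_le_sq ?_ (by positivity)
    refine e1.trans (le_of_eq ?_)
    rw [sq' z hzH]
    ring
  have hre : |z.re| ≤ M := (Complex.abs_re_le_norm z).trans hzn
  have e3 : ((γ 0 0 - γ 1 1 : ℤ) : ℝ) ^ 2 ≤ (2 + 16 * M / m) ^ 2 * Vd γ z := by
    have h1 : |((γ 0 0 - γ 1 1 : ℤ) : ℝ)| ≤ (2 + 16 * M / m) * SS γ z := by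
      have h2 : |2 * ((γ 1 0 : ℤ) : ℝ) * z.re| ≤ 16 * M / m * SS γ z := by
        rw [abs_mul, abs_mul, abs_of_pos (by norm_num : (0 : ℝ) < 2)]
        calc 2 * |((γ 1 0 : ℤ) : ℝ)| * |z.re| ≤ 2 * (8 / m * SS γ z) * M := by gcongr
          _ = 16 * M / m * SS γ z := by ring
      have h3 := abs_add_le (((γ 0 0 - γ 1 1 : ℤ) : ℝ) - 2 * ((γ 1 0 : ℤ) : ℝ) * z.re)
        (2 * ((γ 1 0 : ℤ) : ℝ) * z.re)
      rw [sub_add_cancel] at h3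
      calc |((γ 0 0 - γ 1 1 : ℤ) : ℝ)| ≤ 2 * SS γ z + 16 * M / m * SS γ z := by linarith
        _ = (2 + 16 * M / m) * SS γ z := by ring
    rw [← sq_abs, sq' z hzH, ← mul_pow]
    exact pow_le_pow_left₀ (abs_nonneg _) h1 2
  have e4 : ((γ 0 1 : ℤ) : ℝ) ^ 2 ≤ (C + 8 * M ^ 2 / m) ^ 2 * Vd γ z := by
    have h1 : |((γ 0 1 : ℤ) : ℝ)| ≤ (C + 8 * M ^ 2 / m) * SS γ z := by
      have h2 : |((γ 1 0 : ℤ) : ℝ) * ‖z‖ ^ 2| ≤ 8 * M ^ 2 / m * SS γ z := by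
        rw [abs_mul, abs_of_nonneg (by positivity : (0 : ℝ) ≤ ‖z‖ ^ 2)]
        calc |((γ 1 0 : ℤ) : ℝ)| * ‖z‖ ^ 2 ≤ (8 / m * SS γ z) * M ^ 2 := by gcongr
          _ = 8 * M ^ 2 / m * SS γ z := by ring
      have h3 := abs_add_le (-((γ 0 1 : ℤ) : ℝ) - ((γ 1 0 : ℤ) : ℝ) * ‖z‖ ^ 2)
        (((γ 1 0 : ℤ) : ℝ) * ‖z‖ ^ 2)
      rw [sub_add_cancel, abs_neg] at h3
      calc |((γ 0 1 : ℤ) : ℝ)| ≤ C * SS γ z + 8 * M ^ 2 / m * SS γ z := by linarith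
        _ = (C + 8 * M ^ 2 / m) * SS γ z := by ring
    rw [← sq_abs, sq' z hzH, ← mul_pow]
    exact pow_le_pow_left₀ (abs_nonneg _) h1 2
  rw [div_mul_eq_mul_div, one_mul, div_le_iff₀ hQp]
  unfold qe
  calc ((γ 1 0 : ℤ) : ℝ) ^ 2 + ((γ 0 0 - γ 1 1 : ℤ) : ℝ) ^ 2 + ((γ 0 1 : ℤ) : ℝ) ^ 2 +
        ε ^ 2 * ((γ 0 0 + γ 1 1 : ℤ) : ℝ) ^ 2
      ≤ 64 / m ^ 2 * Vd γ z + (2 + 16 * M / m) ^ 2 * Vd γ z + (C + 8 * M ^ 2 / m) ^ 2 * Vd γ z +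
        16 * (16 / m ^ 2 + 1) * Vd γ z := by
        linarith
    _ = Vd γ z * Q := by rw [hQ]; ring

end Pool.Agent.A54.Ef
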