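import Pool.Agent.Lib.MP_a54f13_nt.Ef.Spec
import Pool.Agent.Lib.MP_a54f13_nt.Av.Fin2
import Pool.Agent.Lib.MP_a54f13_nt.Pl.Fin

/-!
# Package `Ef`, module `Fin`: the main theorem
-/

set_option autoImplicit false

namespace Pool.Agent.A54.Ef.FinM

open MeasureTheory Filter Topology Set
open scoped ContDiff ComplexConjugate UpperHalfPlane MatrixGroups ENNReal
open Pool.Agent.A54.Half (H0)
open Pool.Agent.A54.Av (Bump XX2)

noncomputable section

lemma unique {f : ℍ → ℝ} {t t' : ℝ} (h : IsHeckeMaass f t) (h' : IsHeckeMaass f t') : t = t' := by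
  obtain ⟨z, hz⟩ : ∃ z, f z ≠ 0 := by
    by_contra hno
    push Not at hno
    have h1 := h.normalised
    simp only [hno] at h1
    have := Real.pi_pos
    simp at h1
    linarith
  have h1 := h.eigen z
  rw [h'.eigen z] at h1
  have h2 := mul_right_cancel₀ hz h1
  have h3 : t' ^ 2 = t ^ 2 := by linarith
  exact (abs_eq_abs.1 ((sq_eq_sq_iff_abs_eq_abs _ _).1 h3)).elim
    (fun h4 => h4.symm) (fun h4 => by
      have h5 := h.pos
      have h6 := h'.pos
      linarith)

/-- a compact exhaustion of the half-plane -/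
def KK (j : ℕ) : Set ℂ := Metric.closedBall (0 : ℂ) ((j : ℝ) + 1) ∩
      {z : ℂ | 1 / ((j : ℝ) + 1) ≤ z.im}

lemma kk_compact (j : ℕ) : IsCompact (KK j) :=
  (isCompact_closedBall _ _).inter_right (isClosed_le continuous_const Complex.continuous_im)

lemma kk_sub (j : ℕ) : KK j ⊆ H0 := by
  intro z hz
  have h1 : (0 : ℝ) < 1 / ((j : ℝ) + 1) := by positivity
  exact h1.trans_le hz.2

lemma exists_kk {L : Set ℂ} (hL : IsCompact L) (hLs : L ⊆ H0) : ∃ j : ℕ, L ⊆ KK j := by
  obtain ⟨B, hB⟩ := hL.isBounded.exists_norm_le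
  obtain ⟨m, hm, hmL⟩ : ∃ m : ℝ, 0 < m ∧ ∀ z ∈ L, m ≤ z.im := by
    rcases L.eq_empty_or_nonempty with rfl | hne
    · exact ⟨1, one_pos, by simp⟩
    · obtain ⟨z0, hz0, hz0'⟩ := hL.exists_isMinOn hne Complex.continuous_im.continuousOn
      exact ⟨z0.im, hLs hz0, fun z hz => hz0' hz⟩
  obtain ⟨j, hj⟩ := exists_nat_ge (max B (1 / m))
  have h1 : B ≤ j := (le_max_left _ _).trans hj
  have h2 : 1 / m ≤ j := (le_max_right _ _).trans hj
  refine ⟨j, fun z hz => ?_⟩
  refine ⟨by rw [mem_closedBall_zero_iff]; linarith [hB z hz], ?_⟩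
  refine le_trans ?_ (hmL z hz)
  rw [div_le_iff₀ (by positivity)]
  rw [div_le_iff₀ hm] at h2
  nlinarith

end

end Pool.Agent.A54.Ef.FinM

namespace Pool.Agent.A54.Ef

open MeasureTheory Filter Topology Set
open scoped ContDiff ComplexConjugate UpperHalfPlane MatrixGroups ENNReal
open Pool.Agent.A54.Half (H0)
open Pool.Agent.A54.Av (Bump XX2)

/-- **Fin** the main theorem -/
theorem stmtFin (hCnt : StmtCnt) (hDen : StmtDen) (hSeq : StmtSeq) (hFou : Sq.StmtFou)
    (hU2 : Pl.StmtU2) : StmtFin := by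
  obtain ⟨η, hη⟩ := Av.Fin2M.exists_bump
  obtain ⟨E, ⟨C, hC⟩, hE⟩ := hDen (ℍ → ℝ) IsHeckeMaass
    (fun j f T => T ^ (-(1 / 200 : ℝ)) < XX2 η (T ^ (-(51 / 100 : ℝ))) (FinM.KK j) f)
    (fun f t t' h h' => FinM.unique h h')
    (fun j => hCnt η hη (FinM.KK j) (FinM.kk_compact j) (FinM.kk_sub j))
  refine ⟨E, C, hC, fun f t hf hfE ht ψ hψ n hn1 hn4 => ?_⟩
  obtain ⟨T, hT, hB⟩ := hE f t hf hfE ht
  have hTt : Tendsto T atTop atTop := tendsto_atTop_mono' _ (hT.mono fun i h => h.2) ht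
  have hH : Pl.CondH f := by
    refine hSeq η hη f t T hf ht hT fun L hL hLs => ?_
    obtain ⟨j, hLj⟩ := FinM.exists_kk hL hLs
    have hH : IsOpen H0 := isOpen_lt continuous_const Complex.continuous_im
    obtain ⟨r0, hr0, hr0'⟩ := (FinM.kk_compact j).exists_cthickening_subset_open hH (FinM.kk_sub j)
    have h1 : Tendsto (fun i => T i ^ (-(51 / 100 : ℝ))) atTop (𝓝 0) :=
      (tendsto_rpow_neg_atTop (by norm_num)).comp hTt
    have h2 : Tendsto (fun i => T i ^ (-(1 / 200 : ℝ))) atTop (𝓝 0) :=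
      (tendsto_rpow_neg_atTop (by norm_num)).comp hTt
    refine squeeze_zero' (Eventually.of_forall fun i => ?_) ?_ h2
    · exact integral_nonneg fun _ => integral_nonneg fun _ => sq_nonneg _
    · filter_upwards [h1.eventually (gt_mem_nhds hr0), hTt.eventually_gt_atTop 0, hB j]
        with i hi hTi hBi
      refine le_trans (Av.Fin2M.xx2_mono hη (hf i).smooth.continuousOn hL (FinM.kk_compact j) hLj
        (Real.rpow_pos_of_pos hTi _) ((Metric.cthickening_mono hi.le _).trans hr0')) ?_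
      exact not_lt.1 hBi
  exact hFou f t hf ht (Pl.condA_of_condH hU2 hf hH) ψ hψ n hn1 hn4

end Pool.Agent.A54.Ef
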