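import Pool.Agent.Lib.MP_a54f13_nt.Ef.Spec
import Pool.Agent.Lib.MP_a54f13_nt.Av.G2

/-!
# Package `Ef`, module `G2`: the refined bound, explicit in all parameters (adapted from `Av/G2.lean`)
-/

set_option autoImplicit false

namespace Pool.Agent.A54.Ef.G2M

open MeasureTheory Filter Topology Set
open scoped ContDiff ComplexConjugate UpperHalfPlane MatrixGroups ENNReal
open Pool.Agent.A54.Half (H0)
open Pool.Agent.A54.Av
open Pool.Agent.A54.Av.G2M (ind ind_pos ind_neg sW_eq meas_ind meas_sW es_cont es_nonneg es_supp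
  sq_add_le tsum_int sum_sq_le sum_det_le term_le term_le_sm meas_av meas_ball pull MN_le PA PB PC neg_le)

noncomputable section

/-! ### the final computation -/

lemma final_real {CM C1 C3 CS CG vv gg ε Y δ0 T y δ u r : ℝ} (hC1 : 0 ≤ C1)
    (hC3 : 0 ≤ C3) (hvv : 0 ≤ vv) (hε : 0 < ε) (hgg0 : 0 ≤ gg) (hgg : gg ≤ CG / ε) (hT : 2 ≤ T)
    (hy : 1 / 2 ≤ y) (hyY : y ≤ Y) (hδ0 : 0 < δ0) (hδ : δ0 ≤ δ) (hu : u = y / (T ^ 2 * δ ^ 2))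
    (hr : 0 < r) (hTY : √Y / δ0 ≤ T) :
    4 * ((CM * T ^ 2 * (y / δ)) ^ 2 * (4 * (C1 / y * (1 / √u + √ε / u) + vv * gg ^ 2)) +
      (CS / ε ^ 2 * (y / δ) * ((r ^ 2)⁻¹ + 2 / δ0)) ^ 2 * (10 * (C1 / (y * u)))) +
      (CM * T ^ 2 * (y / δ)) ^ 2 * (C3 / y * u ^ (-(1 / 4 : ℝ))) ≤
    (16 * CM ^ 2 * C1 + 16 * CM ^ 2 * vv * CG ^ 2 + 320 * CS ^ 2 * C1 + CM ^ 2 * C3) * T ^ 6 *
      (√ε + √Y / (δ0 * T) + (ε ^ 4)⁻¹ * ((r * T) ^ 4)⁻¹ +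
          (ε ^ 4)⁻¹ * (δ0 ^ 2)⁻¹ * (T ^ 4)⁻¹ + Y ^ 2 * (δ0 ^ 2)⁻¹ * (ε ^ 2)⁻¹ * (T ^ 2)⁻¹) := by
  have hT0 : 0 < T := by linarith
  have hδp : 0 < δ := by linarith
  have hy0 : 0 < y := by linarith
  have hY0 : 0 < Y := by linarith
  have hup : 0 < u := by rw [hu]; positivity
  have hyd : (y / δ) ^ 2 = y * u * T ^ 2 := by rw [hu]; field_simp
  set v := √u with hv
  have hvp : 0 < v := Real.sqrt_pos.2 hup
  have hvu : v ^ 2 = u := Real.sq_sqrt hup.le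
  have hsY : 0 ≤ √Y := Real.sqrt_nonneg Y
  have hsY2 : √Y ^ 2 = Y := Real.sq_sqrt hY0.le
  have hu2 : u ≤ Y / (T ^ 2 * δ0 ^ 2) := by
    rw [hu]
    gcongr
  have hv1 : v ≤ √Y / (δ0 * T) := by
    rw [hv]
    apply Real.sqrt_le_iff.2
    refine ⟨by positivity, ?_⟩
    rw [div_pow, hsY2, mul_pow, mul_comm (δ0 ^ 2)]
    exact hu2
  have hv3 : v ≤ 1 := by
    refine hv1.trans ?_
    rw [div_le_one (by positivity)]
    rw [div_le_iff₀ hδ0] at hTY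
    linarith
  have huv : u ≤ v := by rw [← hvu]; nlinarith
  have hu1 : u ≤ 1 := huv.trans hv3
  -- term 1
  have t1 : 4 * ((CM * T ^ 2 * (y / δ)) ^ 2 * (4 * (C1 / y * (1 / v + √ε / u)))) ≤
      16 * CM ^ 2 * C1 * T ^ 6 * (√ε + √Y / (δ0 * T)) := by
    have h1 : 4 * ((CM * T ^ 2 * (y / δ)) ^ 2 * (4 * (C1 / y * (1 / v + √ε / u)))) =
        16 * CM ^ 2 * C1 * T ^ 6 * (√ε + v) := by
      rw [mul_pow, hyd, ← hvu]
      field_simp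
      ring
    rw [h1]
    gcongr
  have t2 : 4 * ((CM * T ^ 2 * (y / δ)) ^ 2 * (4 * (vv * gg ^ 2))) ≤
      16 * CM ^ 2 * vv * CG ^ 2 * T ^ 6 * (Y ^ 2 * (δ0 ^ 2)⁻¹ * (ε ^ 2)⁻¹ * (T ^ 2)⁻¹) := by
    rw [mul_pow, hyd]
    have h1 : y * u ≤ Y * (Y / (T ^ 2 * δ0 ^ 2)) := mul_le_mul hyY hu2 hup.le hY0.le
    have h2 : gg ^ 2 ≤ (CG / ε) ^ 2 := pow_le_pow_left₀ hgg0 hgg 2
    calc 4 * ((CM * T ^ 2) ^ 2 * (y * u * T ^ 2) * (4 * (vv * gg ^ 2)))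
        = 16 * CM ^ 2 * vv * gg ^ 2 * T ^ 6 * (y * u) := by ring
      _ ≤ 16 * CM ^ 2 * vv * (CG / ε) ^ 2 * T ^ 6 * (Y * (Y / (T ^ 2 * δ0 ^ 2))) := by gcongr
      _ = _ := by ring
  have t3 : 4 * ((CS / ε ^ 2 * (y / δ) * ((r ^ 2)⁻¹ + 2 / δ0)) ^ 2 * (10 * (C1 / (y * u)))) ≤
      320 * CS ^ 2 * C1 * T ^ 6 * ((ε ^ 4)⁻¹ * ((r * T) ^ 4)⁻¹ +
          (ε ^ 4)⁻¹ * (δ0 ^ 2)⁻¹ * (T ^ 4)⁻¹) := by
    have h1 : 4 * ((CS / ε ^ 2 * (y / δ) * ((r ^ 2)⁻¹ + 2 / δ0)) ^ 2 * (10 * (C1 / (y * u)))) =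
        40 * CS ^ 2 * C1 * (ε ^ 4)⁻¹ * T ^ 2 * ((r ^ 2)⁻¹ + 2 / δ0) ^ 2 := by
      rw [mul_pow, mul_pow, hyd]
      field_simp
      ring
    have h3 : ((r ^ 2)⁻¹ + 2 / δ0) ^ 2 ≤ 8 * ((r ^ 4)⁻¹ + (δ0 ^ 2)⁻¹) := by
      have h4 : ((r ^ 2)⁻¹) ^ 2 = (r ^ 4)⁻¹ := by rw [← inv_pow]; ring
      have h5 : (2 / δ0) ^ 2 = 4 * (δ0 ^ 2)⁻¹ := by
        field_simp
        norm_num
      have h6 : 0 ≤ (r ^ 4)⁻¹ := by positivity
      nlinarith [sq_nonneg ((r ^ 2)⁻¹ - 2 / δ0)]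
    rw [h1]
    calc 40 * CS ^ 2 * C1 * (ε ^ 4)⁻¹ * T ^ 2 * ((r ^ 2)⁻¹ + 2 / δ0) ^ 2
        ≤ 40 * CS ^ 2 * C1 * (ε ^ 4)⁻¹ * T ^ 2 * (8 * ((r ^ 4)⁻¹ + (δ0 ^ 2)⁻¹)) := by gcongr
      _ = 320 * CS ^ 2 * C1 * ((ε ^ 4)⁻¹ * (T ^ 2 * (r ^ 4)⁻¹) +
          (ε ^ 4)⁻¹ * (δ0 ^ 2)⁻¹ * T ^ 2) := by ring
      _ = 320 * CS ^ 2 * C1 * ((ε ^ 4)⁻¹ * (T ^ 6 * ((r * T) ^ 4)⁻¹) +
          (ε ^ 4)⁻¹ * (δ0 ^ 2)⁻¹ * (T ^ 6 * (T ^ 4)⁻¹)) := by
        have q1 : T ^ 6 * (T ^ 4)⁻¹ = T ^ 2 := by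
          rw [← div_eq_mul_inv, div_eq_iff (by positivity)]
          ring
        have q2 : T ^ 6 * ((r * T) ^ 4)⁻¹ = T ^ 2 * (r ^ 4)⁻¹ := by
          rw [mul_pow, mul_inv, ← q1]
          ring
        rw [q1, q2]
      _ = _ := by ring
  have t4 : (CM * T ^ 2 * (y / δ)) ^ 2 * (C3 / y * u ^ (-(1 / 4 : ℝ))) ≤
      CM ^ 2 * C3 * T ^ 6 * (√Y / (δ0 * T)) := by
    have h1 : u * u ^ (-(1 / 4 : ℝ)) ≤ v := by
      have : u * u ^ (-(1 / 4 : ℝ)) = u ^ (3 / 4 : ℝ) := by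
        conv_lhs => rw [← Real.rpow_one u]
        rw [← Real.rpow_mul hup.le, ← Real.rpow_add hup]
        norm_num
      rw [this, hv, Real.sqrt_eq_rpow]
      exact Real.rpow_le_rpow_of_exponent_ge hup hu1 (by norm_num)
    rw [mul_pow, hyd]
    calc (CM * T ^ 2) ^ 2 * (y * u * T ^ 2) * (C3 / y * u ^ (-(1 / 4 : ℝ)))
        = CM ^ 2 * C3 * T ^ 6 * (u * u ^ (-(1 / 4 : ℝ))) := by field_simp
      _ ≤ CM ^ 2 * C3 * T ^ 6 * (√Y / (δ0 * T)) := by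
        gcongr
        exact h1.trans hv1
  have hsum : 4 * ((CM * T ^ 2 * (y / δ)) ^ 2 * (4 * (C1 / y * (1 / v + √ε / u) + vv * gg ^ 2)) +
      (CS / ε ^ 2 * (y / δ) * ((r ^ 2)⁻¹ + 2 / δ0)) ^ 2 * (10 * (C1 / (y * u)))) +
      (CM * T ^ 2 * (y / δ)) ^ 2 * (C3 / y * u ^ (-(1 / 4 : ℝ))) =
      4 * ((CM * T ^ 2 * (y / δ)) ^ 2 * (4 * (C1 / y * (1 / v + √ε / u)))) +
      4 * ((CM * T ^ 2 * (y / δ)) ^ 2 * (4 * (vv * gg ^ 2))) +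
      4 * ((CS / ε ^ 2 * (y / δ) * ((r ^ 2)⁻¹ + 2 / δ0)) ^ 2 * (10 * (C1 / (y * u)))) +
      (CM * T ^ 2 * (y / δ)) ^ 2 * (C3 / y * u ^ (-(1 / 4 : ℝ))) := by ring
  rw [hsum]
  set X1 := √ε
  set X2 := √Y / (δ0 * T)
  set X3 := (ε ^ 4)⁻¹ * ((r * T) ^ 4)⁻¹
  set X4 := (ε ^ 4)⁻¹ * (δ0 ^ 2)⁻¹ * (T ^ 4)⁻¹
  set X5 := Y ^ 2 * (δ0 ^ 2)⁻¹ * (ε ^ 2)⁻¹ * (T ^ 2)⁻¹
  have x1 : 0 ≤ X1 := Real.sqrt_nonneg _
  have x2 : 0 ≤ X2 := by positivity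
  have x3 : 0 ≤ X3 := by positivity
  have x4 : 0 ≤ X4 := by positivity
  have x5 : 0 ≤ X5 := by positivity
  have k1 : 16 * CM ^ 2 * C1 * T ^ 6 * (X1 + X2) ≤
      16 * CM ^ 2 * C1 * T ^ 6 * (X1 + X2 + X3 + X4 + X5) :=
    mul_le_mul_of_nonneg_left (by linarith) (by positivity)
  have k2 : 16 * CM ^ 2 * vv * CG ^ 2 * T ^ 6 * X5 ≤
      16 * CM ^ 2 * vv * CG ^ 2 * T ^ 6 * (X1 + X2 + X3 + X4 + X5) :=
    mul_le_mul_of_nonneg_left (by linarith) (by positivity)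
  have k3 : 320 * CS ^ 2 * C1 * T ^ 6 * (X3 + X4) ≤
      320 * CS ^ 2 * C1 * T ^ 6 * (X1 + X2 + X3 + X4 + X5) :=
    mul_le_mul_of_nonneg_left (by linarith) (by positivity)
  have k4 : CM ^ 2 * C3 * T ^ 6 * X2 ≤
      CM ^ 2 * C3 * T ^ 6 * (X1 + X2 + X3 + X4 + X5) :=
    mul_le_mul_of_nonneg_left (by linarith) (by positivity)
  calc _ ≤ 16 * CM ^ 2 * C1 * T ^ 6 * (X1 + X2 + X3 + X4 + X5) +
        16 * CM ^ 2 * vv * CG ^ 2 * T ^ 6 * (X1 + X2 + X3 + X4 + X5) +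
        320 * CS ^ 2 * C1 * T ^ 6 * (X1 + X2 + X3 + X4 + X5) +
        CM ^ 2 * C3 * T ^ 6 * (X1 + X2 + X3 + X4 + X5) :=
        add_le_add (add_le_add (add_le_add (t1.trans k1) (t2.trans k2)) (t3.trans k3)) (t4.trans k4)
    _ = _ := by ring

/-- the Gaussian weight -/
def gE (c ε : ℝ) (γ : Mat) : ℝ≥0∞ := ENNReal.ofReal (Real.exp (-(Real.pi / 2 * c * qe ε γ)))

lemma qe_nonneg (ε : ℝ) (γ : Mat) : 0 ≤ qe ε γ := by unfold qe; positivity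

/-- sum over a fixed positive determinant -/
lemma pos_le {c1 cC ε y1 y r : ℝ} {g : Mat → ℝ≥0∞} (η : ℂ → ℝ) (hη : Bump η) (z0 : ℂ) (m : ℕ)
    (X : Mat → ℝ≥0∞)
    (hX : ∀ γ : Mat, PC m γ → X γ ≤
      ENNReal.ofReal c1 * (∫⁻ z, ENNReal.ofReal (es η r z0 z) *
        (ind (PB ε m γ) (WW y1 y γ z) + g γ)) +
      ENNReal.ofReal cC * (ENNReal.ofReal (r ^ 2)⁻¹ *
        ∫⁻ z in Metric.closedBall z0 r, WW y1 y γ z)) :
    ∑' γ : Mat, ind (PC m γ) (X γ) ≤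
      ENNReal.ofReal c1 * (∫⁻ z, ENNReal.ofReal (es η r z0 z) *
        (sW (PB ε m) y1 y z + ∑' γ : Mat, ind (PC m γ) (g γ))) +
      ENNReal.ofReal cC * (ENNReal.ofReal (r ^ 2)⁻¹ *
        ∫⁻ z in Metric.closedBall z0 r, sW (PC m) y1 y z) := by
  have hes : Measurable fun z => ENNReal.ofReal (es η r z0 z) :=
    ENNReal.measurable_ofReal.comp ((es_cont η hη r).measurable.comp measurable_prodMk_left)
  have h1 : ∀ z, sW (PB ε m) y1 y z + ∑' γ : Mat, ind (PC m γ) (g γ) =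
      ∑' γ : Mat, (ind (PB ε m γ) (WW y1 y γ z) + ind (PC m γ) (g γ)) := fun z => by
    rw [sW_eq, ENNReal.tsum_add]
  have h2 : ∀ z, sW (PC m) y1 y z = ∑' γ : Mat, ind (PC m γ) (WW y1 y γ z) := fun z =>
    sW_eq _ _ _ _
  simp_rw [h1, h2]
  rw [← pull volume (fun z => ENNReal.ofReal (es η r z0 z)) hes
    (fun γ z => ind (PB ε m γ) (WW y1 y γ z) + ind (PC m γ) (g γ))
    (fun γ => (meas_ind (PB ε m) y1 y γ).add measurable_const)]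
  have h3 : ENNReal.ofReal cC * (ENNReal.ofReal (r ^ 2)⁻¹ *
      ∫⁻ z in Metric.closedBall z0 r, ∑' γ : Mat, ind (PC m γ) (WW y1 y γ z)) =
      ∑' γ : Mat, ENNReal.ofReal cC * ENNReal.ofReal (r ^ 2)⁻¹ *
        ∫⁻ z in Metric.closedBall z0 r, (1 : ℝ≥0∞) * ind (PC m γ) (WW y1 y γ z) := by
    rw [pull (volume.restrict (Metric.closedBall z0 r)) (fun _ => 1) measurable_const
      (fun γ z => ind (PC m γ) (WW y1 y γ z)) (fun γ => meas_ind (PC m) y1 y γ)]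
    simp only [one_mul]
    rw [mul_assoc]
  rw [h3, ← ENNReal.tsum_add]
  refine ENNReal.tsum_le_tsum fun γ => ?_
  by_cases h : PC m γ
  · simp only [ind_pos h, one_mul]
    rw [mul_assoc]
    exact hX γ h
  · rw [ind_neg h]
    exact zero_le

/-- the pointwise bound of the whole sum over `n` -/
lemma point_le {c1 cC ε y1 y r : ℝ} {g : Mat → ℝ≥0∞} (η : ℂ → ℝ) (hη : Bump η) (z0 : ℂ) (s : ℂ)
    (hpos : ∀ (m : ℕ) (γ : Mat), PC m γ →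
      ‖∫ z, (es η r z0 z : ℂ) * mm s y ((m : ℤ) + 1 : ℤ) (Vd γ z)‖ₑ ≤
      ENNReal.ofReal c1 * (∫⁻ z, ENNReal.ofReal (es η r z0 z) *
        (ind (PB ε m γ) (WW y1 y γ z) + g γ)) +
      ENNReal.ofReal cC * (ENNReal.ofReal (r ^ 2)⁻¹ *
        ∫⁻ z in Metric.closedBall z0 r, WW y1 y γ z))
    (hneg : ∀ γ : Mat, PA γ →
      ‖∫ z, (es η r z0 z : ℂ) * mm s y ((γ.det : ℤ) : ℝ) (Vd γ z)‖ₑ ≤
      ENNReal.ofReal c1 * (∫⁻ z, ENNReal.ofReal (es η r z0 z) * WW y1 y γ z)) :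
    ∑' n : ℤ, ‖MN (es η r z0) s y n‖ₑ ^ 2 ≤
      (∑' m : ℕ, 4 * ((ENNReal.ofReal c1 * (∫⁻ z, ENNReal.ofReal (es η r z0 z) *
        (sW (PB ε m) y1 y z + ∑' γ : Mat, ind (PC m γ) (g γ)))) ^ 2 +
      (ENNReal.ofReal cC * (ENNReal.ofReal (r ^ 2)⁻¹ *
        ∫⁻ z in Metric.closedBall z0 r, sW (PC m) y1 y z)) ^ 2)) +
      (ENNReal.ofReal c1 * (∫⁻ z, ENNReal.ofReal (es η r z0 z) * sW PA y1 y z)) ^ 2 := by
  rw [tsum_int]
  refine add_le_add (ENNReal.tsum_le_tsum fun m => ?_) ?_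
  · refine le_trans ?_ (sq_add_le _ _)
    gcongr
    refine (MN_le _ _ _ _).trans ?_
    exact pos_le η hη z0 m _ (hpos m)
  · refine (sum_sq_le _).trans ?_
    gcongr
    calc ∑' m : ℕ, ‖MN (es η r z0) s y (-(m : ℤ))‖ₑ
        ≤ ∑' m : ℕ, ∑' γ : Mat, ind (γ.det = -(m : ℤ) ∧ NonSc γ)
            ‖∫ z, (es η r z0 z : ℂ) * mm s y ((γ.det : ℤ) : ℝ) (Vd γ z)‖ₑ := by
          refine ENNReal.tsum_le_tsum fun m => (MN_le _ _ _ _).trans ?_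
          refine ENNReal.tsum_le_tsum fun γ => ?_
          by_cases h : γ.det = -(m : ℤ) ∧ NonSc γ
          · rw [ind_pos h, ind_pos h, h.1]
          · rw [ind_neg h, ind_neg h]
      _ ≤ ∑' γ : Mat, ind (PA γ)
            ‖∫ z, (es η r z0 z : ℂ) * mm s y ((γ.det : ℤ) : ℝ) (Vd γ z)‖ₑ := by
          apply sum_det_le (fun m => -(m : ℤ)) (fun a b h => by simpa using h)
          intro γ m h1 h2
          exact ⟨by rw [h1]; simp, h2⟩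
      _ ≤ _ := neg_le η hη z0 _ hneg

/-- integration of the pointwise bound -/
lemma integ {c1 cC ε y1 y r C1 C3 vv gg : ℝ} {g : Mat → ℝ≥0∞} (hc1 : 0 ≤ c1) (hcC : 0 ≤ cC) (hε : 0 < ε)
    (hε1 : ε ≤ 1) (hy1 : 0 < y1) (hy : 1 / 2 ≤ y) (hr : 0 < r) (hC1 : 0 ≤ C1) (hC3 : 0 ≤ C3)
    (hvv : 0 ≤ vv) (hgg : 0 ≤ gg)
    (η : ℂ → ℝ) (hη : Bump η) (K K' : Set ℂ) (hK : IsCompact K) (hK' : MeasurableSet K')
    (hsub : ∀ z ∈ K, Metric.closedBall z r ⊆ K') (hvol : volume K' = ENNReal.ofReal vv)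
    (hG : ∑' γ : Mat, g γ ≤ ENNReal.ofReal gg)
    (hAvg : StmtAvg)
    (hW1 : (∫⁻ z in K', ∑' n : ℕ, sW (fun γ => γ.det = (n : ℤ) + 1 ∧ NonSc γ) y1 y z ^ 2 ≤
        ENNReal.ofReal (C1 / (y * y1))) ∧
      ∀ ε : ℝ, 0 < ε → ε ≤ 1 →
      ∫⁻ z in K', ∑' n : ℕ, sW (fun γ => γ.det = (n : ℤ) + 1 ∧ NonSc γ ∧
        ((γ 1 0 : ℤ) : ℝ) ^ 2 ≤ ε ^ 2 * ((γ.det : ℤ) : ℝ)) y1 y z ^ 2 ≤
          ENNReal.ofReal (C1 / y * (1 / √y1 + √ε / y1)))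
    (hW3 : ∫⁻ z in K', sW (fun γ => γ.det ≤ 0 ∧ NonSc γ) y1 y z ^ 2 ≤
        ENNReal.ofReal (C3 / y * y1 ^ (-(1 / 4 : ℝ)))) :
    ∫⁻ z0 in K, ((∑' m : ℕ, 4 * ((ENNReal.ofReal c1 * (∫⁻ z, ENNReal.ofReal (es η r z0 z) *
        (sW (PB ε m) y1 y z + ∑' γ : Mat, ind (PC m γ) (g γ)))) ^ 2 +
      (ENNReal.ofReal cC * (ENNReal.ofReal (r ^ 2)⁻¹ *
        ∫⁻ z in Metric.closedBall z0 r, sW (PC m) y1 y z)) ^ 2)) +
      (ENNReal.ofReal c1 * (∫⁻ z, ENNReal.ofReal (es η r z0 z) * sW PA y1 y z)) ^ 2) ≤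
    ENNReal.ofReal (4 * (c1 ^ 2 * (4 * (C1 / y * (1 / √y1 + √ε / y1) + vv * gg ^ 2)) +
      cC ^ 2 * (10 * (C1 / (y * y1)))) + c1 ^ 2 * (C3 / y * y1 ^ (-(1 / 4 : ℝ)))) := by
  have hy0 : 0 < y := by linarith
  set G : ℕ → ℝ≥0∞ := fun m => ∑' γ : Mat, ind (PC m γ) (g γ) with hGdef
  have hFX : ∀ m, Measurable fun z => sW (PB ε m) y1 y z + G m := fun m =>
    (meas_sW (PB ε m) y1 y).add measurable_const
  have mX : ∀ m, Measurable fun z0 => ENNReal.ofReal c1 *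
      (∫⁻ z, ENNReal.ofReal (es η r z0 z) * (sW (PB ε m) y1 y z + G m)) := fun m =>
    (meas_av η hη r _ (hFX m)).const_mul _
  have mY : ∀ m, Measurable fun z0 => ENNReal.ofReal cC * (ENNReal.ofReal (r ^ 2)⁻¹ *
      ∫⁻ z in Metric.closedBall z0 r, sW (PC m) y1 y z) := fun m =>
    ((meas_ball r _ (meas_sW (PC m) y1 y)).const_mul _).const_mul _
  have mA : Measurable fun z0 => ENNReal.ofReal c1 *
      (∫⁻ z, ENNReal.ofReal (es η r z0 z) * sW PA y1 y z) :=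
    (meas_av η hη r _ (meas_sW PA y1 y)).const_mul _
  have mX2 : ∀ m, Measurable fun z0 => (ENNReal.ofReal c1 *
      (∫⁻ z, ENNReal.ofReal (es η r z0 z) * (sW (PB ε m) y1 y z + G m))) ^ 2 := fun m =>
    (mX m).pow_const 2
  have mY2 : ∀ m, Measurable fun z0 => (ENNReal.ofReal cC * (ENNReal.ofReal (r ^ 2)⁻¹ *
      ∫⁻ z in Metric.closedBall z0 r, sW (PC m) y1 y z)) ^ 2 := fun m => (mY m).pow_const 2
  have mA2 : Measurable fun z0 => (ENNReal.ofReal c1 *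
      (∫⁻ z, ENNReal.ofReal (es η r z0 z) * sW PA y1 y z)) ^ 2 := mA.pow_const 2
  -- the averages
  have aX : ∀ m, ∫⁻ z0 in K, (ENNReal.ofReal c1 *
      (∫⁻ z, ENNReal.ofReal (es η r z0 z) * (sW (PB ε m) y1 y z + G m))) ^ 2 ≤
      ENNReal.ofReal (c1 ^ 2) * (4 * ((∫⁻ z in K', sW (PB ε m) y1 y z ^ 2) +
        G m ^ 2 * ENNReal.ofReal vv)) := by
    intro m
    simp_rw [mul_pow]
    rw [lintegral_const_mul _ ((meas_av η hη r _ (hFX m)).pow_const 2), ENNReal.ofReal_pow hc1]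
    gcongr
    refine (hAvg η hη K K' hK hK' r hr hsub _ (hFX m)).1.trans ?_
    calc ∫⁻ z in K', (sW (PB ε m) y1 y z + G m) ^ 2
        ≤ ∫⁻ z in K', 4 * (sW (PB ε m) y1 y z ^ 2 + G m ^ 2) :=
          lintegral_mono fun z => sq_add_le _ _
      _ = _ := by
          have q1 : Measurable fun z => sW (PB ε m) y1 y z ^ 2 :=
            (meas_sW (PB ε m) y1 y).pow_const 2
          have q2 : Measurable fun z => sW (PB ε m) y1 y z ^ 2 + G m ^ 2 :=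
            q1.add measurable_const
          rw [lintegral_const_mul _ q2, lintegral_add_left q1, lintegral_const,
            Measure.restrict_apply_univ, hvol]
  have aY : ∀ m, ∫⁻ z0 in K, (ENNReal.ofReal cC * (ENNReal.ofReal (r ^ 2)⁻¹ *
      ∫⁻ z in Metric.closedBall z0 r, sW (PC m) y1 y z)) ^ 2 ≤
      ENNReal.ofReal (cC ^ 2) * (10 * ∫⁻ z in K', sW (PC m) y1 y z ^ 2) := by
    intro m
    have e1 : ∀ z0, (ENNReal.ofReal cC * (ENNReal.ofReal (r ^ 2)⁻¹ *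
      ∫⁻ z in Metric.closedBall z0 r, sW (PC m) y1 y z)) ^ 2 = ENNReal.ofReal cC ^ 2 *
      (ENNReal.ofReal (r ^ 2)⁻¹ *
        ∫⁻ z in Metric.closedBall z0 r, sW (PC m) y1 y z) ^ 2 := fun z0 => mul_pow _ _ 2
    simp_rw [e1]
    rw [lintegral_const_mul _ (((meas_ball r _ (meas_sW (PC m) y1 y)).const_mul _).pow_const 2),
      ENNReal.ofReal_pow hcC]
    gcongr
    exact (hAvg η hη K K' hK hK' r hr hsub _ (meas_sW (PC m) y1 y)).2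
  have aA : ∫⁻ z0 in K, (ENNReal.ofReal c1 *
      (∫⁻ z, ENNReal.ofReal (es η r z0 z) * sW PA y1 y z)) ^ 2 ≤
      ENNReal.ofReal (c1 ^ 2) * ∫⁻ z in K', sW PA y1 y z ^ 2 := by
    simp_rw [mul_pow]
    rw [lintegral_const_mul _ ((meas_av η hη r _ (meas_sW PA y1 y)).pow_const 2),
      ENNReal.ofReal_pow hc1]
    exact mul_le_mul' le_rfl (hAvg η hη K K' hK hK' r hr hsub _ (meas_sW PA y1 y)).1
  -- sums of the constants
  have sG : ∑' m, G m ^ 2 ≤ ENNReal.ofReal (gg ^ 2) := by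
    refine (sum_sq_le G).trans ?_
    rw [ENNReal.ofReal_pow hgg]
    gcongr
    refine le_trans ?_ hG
    rw [hGdef]
    refine (sum_det_le (fun m : ℕ => (m : ℤ) + 1) (fun a b h => by simpa using h) NonSc
      (fun _ => True) (fun _ _ _ _ => trivial) g).trans ?_
    refine ENNReal.tsum_le_tsum fun γ => ?_
    rw [ind_pos trivial]
  have sB : ∑' m, ∫⁻ z in K', sW (PB ε m) y1 y z ^ 2 ≤
      ENNReal.ofReal (C1 / y * (1 / √y1 + √ε / y1)) := by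
    rw [← lintegral_tsum fun m => ((meas_sW (PB ε m) y1 y).pow_const 2).aemeasurable]
    exact hW1.2 ε hε hε1
  have sC : ∑' m, ∫⁻ z in K', sW (PC m) y1 y z ^ 2 ≤ ENNReal.ofReal (C1 / (y * y1)) := by
    rw [← lintegral_tsum fun m => ((meas_sW (PC m) y1 y).pow_const 2).aemeasurable]
    exact hW1.1
  have mXY : ∀ m, Measurable fun z0 => (ENNReal.ofReal c1 *
      (∫⁻ z, ENNReal.ofReal (es η r z0 z) * (sW (PB ε m) y1 y z + G m))) ^ 2 +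
      (ENNReal.ofReal cC * (ENNReal.ofReal (r ^ 2)⁻¹ *
      ∫⁻ z in Metric.closedBall z0 r, sW (PC m) y1 y z)) ^ 2 := fun m => (mX2 m).add (mY2 m)
  change ∫⁻ z0 in K, ((∑' m : ℕ, 4 * ((ENNReal.ofReal c1 *
      (∫⁻ z, ENNReal.ofReal (es η r z0 z) * (sW (PB ε m) y1 y z + G m))) ^ 2 +
      (ENNReal.ofReal cC * (ENNReal.ofReal (r ^ 2)⁻¹ *
        ∫⁻ z in Metric.closedBall z0 r, sW (PC m) y1 y z)) ^ 2)) +
      (ENNReal.ofReal c1 * (∫⁻ z, ENNReal.ofReal (es η r z0 z) * sW PA y1 y z)) ^ 2) ≤ _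
  rw [lintegral_add_right _ mA2, lintegral_tsum fun m => ((mXY m).const_mul 4).aemeasurable]
  have hb1 : 0 ≤ C1 / y * (1 / √y1 + √ε / y1) := by positivity
  have hb2 : 0 ≤ C1 / (y * y1) := by positivity
  have hb3 : 0 ≤ C3 / y * y1 ^ (-(1 / 4 : ℝ)) := by positivity
  calc (∑' m : ℕ, ∫⁻ z0 in K, 4 * ((ENNReal.ofReal c1 * (∫⁻ z, ENNReal.ofReal (es η r z0 z) *
        (sW (PB ε m) y1 y z + G m))) ^ 2 +
      (ENNReal.ofReal cC * (ENNReal.ofReal (r ^ 2)⁻¹ *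
        ∫⁻ z in Metric.closedBall z0 r, sW (PC m) y1 y z)) ^ 2)) +
      ∫⁻ z0 in K, (ENNReal.ofReal c1 *
        (∫⁻ z, ENNReal.ofReal (es η r z0 z) * sW PA y1 y z)) ^ 2
      ≤ (∑' m : ℕ, 4 * (ENNReal.ofReal (c1 ^ 2) * (4 * ((∫⁻ z in K', sW (PB ε m) y1 y z ^ 2) +
        G m ^ 2 * ENNReal.ofReal vv)) +
        ENNReal.ofReal (cC ^ 2) * (10 * ∫⁻ z in K', sW (PC m) y1 y z ^ 2))) +
        ENNReal.ofReal (c1 ^ 2) * ∫⁻ z in K', sW PA y1 y z ^ 2 := by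
        refine add_le_add (ENNReal.tsum_le_tsum fun m => ?_) aA
        rw [lintegral_const_mul _ (mXY m), lintegral_add_left (mX2 m)]
        gcongr
        · exact aX m
        · exact aY m
    _ = 4 * (ENNReal.ofReal (c1 ^ 2) * (4 * ((∑' m : ℕ, ∫⁻ z in K', sW (PB ε m) y1 y z ^ 2) +
        (∑' m, G m ^ 2) * ENNReal.ofReal vv)) +
        ENNReal.ofReal (cC ^ 2) * (10 * ∑' m : ℕ, ∫⁻ z in K', sW (PC m) y1 y z ^ 2)) +
        ENNReal.ofReal (c1 ^ 2) * ∫⁻ z in K', sW PA y1 y z ^ 2 := by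
        rw [ENNReal.tsum_mul_left, ENNReal.tsum_add, ENNReal.tsum_mul_left, ENNReal.tsum_mul_left,
          ENNReal.tsum_add, ENNReal.tsum_mul_right, ENNReal.tsum_mul_left, ENNReal.tsum_mul_left]
    _ ≤ 4 * (ENNReal.ofReal (c1 ^ 2) * (4 * (ENNReal.ofReal (C1 / y * (1 / √y1 + √ε / y1)) +
        ENNReal.ofReal (gg ^ 2) * ENNReal.ofReal vv)) +
        ENNReal.ofReal (cC ^ 2) * (10 * ENNReal.ofReal (C1 / (y * y1)))) +
        ENNReal.ofReal (c1 ^ 2) * ENNReal.ofReal (C3 / y * y1 ^ (-(1 / 4 : ℝ))) := by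
        gcongr
        exact hW3
    _ = _ := by
        have e4 : (4 : ℝ≥0∞) = ENNReal.ofReal 4 := by simp
        have e10 : (10 : ℝ≥0∞) = ENNReal.ofReal 10 := by simp
        rw [e4, e10, ← ENNReal.ofReal_mul (sq_nonneg gg), ← ENNReal.ofReal_add hb1 (by positivity),
          ← ENNReal.ofReal_mul (by norm_num), ← ENNReal.ofReal_mul (sq_nonneg c1),
          ← ENNReal.ofReal_mul (by norm_num), ← ENNReal.ofReal_mul (sq_nonneg cC),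
          ← ENNReal.ofReal_add (by positivity) (by positivity), ← ENNReal.ofReal_mul (by norm_num),
          ← ENNReal.ofReal_mul (sq_nonneg c1), ← ENNReal.ofReal_add (by positivity) (by positivity)]
        congr 1
        ring

end

end Pool.Agent.A54.Ef.G2M

namespace Pool.Agent.A54.Ef

open MeasureTheory Filter Topology Set G2M
open scoped ContDiff ComplexConjugate UpperHalfPlane MatrixGroups ENNReal
open Pool.Agent.A54.Half (H0)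
open Pool.Agent.A54.Av (Mat VV Vd msq bet NonSc Bump es Sm' MN RN GR qs qT dl yo Aa DD Fam wf XX2 mm WW sW)
open Pool.Agent.A54.Av.G2M (ind ind_pos ind_neg sW_eq meas_ind meas_sW es_cont es_nonneg es_supp
  sq_add_le tsum_int sum_sq_le sum_det_le term_le term_le_sm meas_av meas_ball pull MN_le PA PB PC neg_le)

theorem stmtG2 (hMb : Av.StmtMb) (hW1 : Av.StmtW1) (hW3 : Av.StmtW3) (hAvg : Av.StmtAvg)
    (hSm : StmtSm3) (hFar : StmtFar) (hGaD : StmtGaD) (hQF : Av.StmtQF) : StmtG2 := by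
  intro η hη K hK hKH
  obtain ⟨ρ0, hρ0, hthick⟩ :=
    hK.exists_cthickening_subset_open Pool.Agent.A54.Half.isOpen_H0 hKH
  set K' := Metric.cthickening ρ0 K with hK'def
  have hK'c : IsCompact K' := hK.cthickening
  have hK'm : MeasurableSet K' := hK'c.measurableSet
  obtain ⟨CM, hCM0, hMb'⟩ := hMb
  obtain ⟨C1, hC1, hW1'⟩ := hW1 K' hK'c hthick
  obtain ⟨C3, hC3, hW3'⟩ := hW3 K' hK'c hthick
  obtain ⟨CS, rS, hCS, hrS, hSm'⟩ := hSm η hη K hK hKH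
  obtain ⟨cF, rF, hcF, hrF, hFar'⟩ := hFar K hK hKH
  obtain ⟨CG, hCG, hGa'⟩ := hGaD (Real.pi / 2 * cF) (by positivity)
  set vv := (volume K').toReal with hvv
  have hvol : volume K' = ENNReal.ofReal vv := (ENNReal.ofReal_toReal hK'c.measure_lt_top.ne).symm
  have hvv0 : 0 ≤ vv := ENNReal.toReal_nonneg
  refine ⟨16 * CM ^ 2 * C1 + 16 * CM ^ 2 * vv * CG ^ 2 + 320 * CS ^ 2 * C1 + CM ^ 2 * C3,
    min ρ0 (min rS rF), by positivity, lt_min hρ0 (lt_min hrS hrF), ?_⟩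
  intro ε Y δ0 r T y θ hε hε1 hY hδ0 hδ01 hr0 hr hT2 hTY hy hyY hθ hδ
  obtain ⟨hsum', hsumle⟩ := hGa' ε hε hε1
  set gg := ∑' γ : Mat, Real.exp (-(Real.pi / 2 * cF * qe ε γ)) with hgg
  have hgg0 : 0 ≤ gg := tsum_nonneg fun γ => (Real.exp_pos _).le
  have hG : ∑' γ : Mat, gE cF ε γ ≤ ENNReal.ofReal gg := by
    rw [hgg, ENNReal.ofReal_tsum_of_nonneg (fun γ => (Real.exp_pos _).le) hsum']
    rfl
  have hT0 : 0 < T := by linarith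
  have hy0 : 0 < y := by linarith
  have hδp : 0 < dl T θ := lt_of_lt_of_le hδ0 hδ
  have hyo : 0 < yo T θ y := by unfold yo; positivity
  have hε0 : 0 ≤ 1 - ε := by linarith
  have hmin : 0 < min ρ0 (min rS rF) := lt_min hρ0 (lt_min hrS hrF)
  have hrm : r ≤ min ρ0 (min rS rF) := by
    refine hr.trans ?_
    nlinarith
  have hr1 : r ≤ ρ0 := hrm.trans (min_le_left _ _)
  have hr2 : r ≤ rS := hrm.trans ((min_le_right _ _).trans (min_le_left _ _))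
  have hr3 : r ≤ rF * ε :=
    hr.trans (mul_le_mul_of_nonneg_right ((min_le_right _ _).trans (min_le_right _ _)) hε.le)
  have hsub : ∀ z ∈ K, Metric.closedBall z r ⊆ K' := fun z hz =>
    (Metric.closedBall_subset_closedBall hr1).trans (Metric.closedBall_subset_cthickening hz ρ0)
  have hc1 : 0 ≤ CM * T ^ 2 * (y / dl T θ) := by positivity
  have hCS' : 0 ≤ CS / ε ^ 2 := by positivity
  have hcC : 0 ≤ CS / ε ^ 2 * (y / dl T θ) * ((r ^ 2)⁻¹ + 2 / δ0) := by positivity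
  have hpt : ∀ z0 ∈ K, ∑' n : ℤ, ‖MN (es η r z0) (qs (qT T) θ) y n‖ₑ ^ 2 ≤
      (∑' m : ℕ, 4 * ((ENNReal.ofReal (CM * T ^ 2 * (y / dl T θ)) *
        (∫⁻ z, ENNReal.ofReal (es η r z0 z) *
        (sW (PB ε m) (yo T θ y) y z + ∑' γ : Mat, ind (PC m γ) (gE cF ε γ)))) ^ 2 +
      (ENNReal.ofReal (CS / ε ^ 2 * (y / dl T θ) * ((r ^ 2)⁻¹ + 2 / δ0)) *
        (ENNReal.ofReal (r ^ 2)⁻¹ *
        ∫⁻ z in Metric.closedBall z0 r, sW (PC m) (yo T θ y) y z)) ^ 2)) +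
      (ENNReal.ofReal (CM * T ^ 2 * (y / dl T θ)) *
        (∫⁻ z, ENNReal.ofReal (es η r z0 z) * sW PA (yo T θ y) y z)) ^ 2 := by
    intro z0 hz0
    have hball : Metric.closedBall z0 r ⊆ H0 := (hsub z0 hz0).trans hthick
    apply point_le η hη z0
    · intro m γ hγ
      have hdet : γ.det = (m : ℤ) + 1 := hγ.1
      have hdet1 : 1 ≤ γ.det := by omega
      by_cases hB : ((γ 1 0 : ℤ) : ℝ) ^ 2 ≤ ε ^ 2 * ((γ.det : ℤ) : ℝ)
      · have hPB : PB ε m γ := ⟨hγ.1, hγ.2, hB⟩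
        refine le_trans ?_ le_self_add
        apply term_le hCM0 hMb' hQF η hη hT2 hθ hy0 hr0 z0 hball γ _ hdet
        intro z _
        rw [ind_pos hPB]
        exact le_self_add
      · push Not at hB
        by_cases hN : ∀ z ∈ Metric.closedBall z0 r,
            Vd γ z ≤ (((γ 1 0 : ℤ) : ℝ) * z.im / 4) ^ 2
        · refine le_trans ?_ le_add_self
          exact term_le_sm hCS' η hT2 hy0 hδ0 hδ z0 γ _ hdet (by omega)
            (hSm' ε hε hε1 z0 hz0 r hr0 hr2 γ hdet1 hB.le hN)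
        · push Not at hN
          refine le_trans ?_ le_self_add
          apply term_le hCM0 hMb' hQF η hη hT2 hθ hy0 hr0 z0 hball γ _ hdet
          intro z hz
          have hV := hFar' ε hε hε1 z0 hz0 r hr0 hr3 γ hdet1 hB.le hN z hz
          obtain ⟨hV0, hnV, -⟩ := hQF γ z z (hball hz) (hball hz)
          refine le_trans ?_ le_add_self
          unfold WW gE
          apply ENNReal.ofReal_le_ofReal
          apply Real.exp_le_exp.2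
          have h1 : 0 ≤ yo T θ y * (((γ.det : ℤ) : ℝ) + Vd γ z) := mul_nonneg hyo.le hnV
          have h2 : 1 / 2 * (cF * qe ε γ) ≤ y * Vd γ z :=
            mul_le_mul hy hV (mul_nonneg hcF.le (qe_nonneg ε γ)) hy0.le
          nlinarith [Real.pi_pos]
    · intro γ hγ
      apply term_le hCM0 hMb' hQF η hη hT2 hθ hy0 hr0 z0 hball γ _ rfl
      intro z _
      exact le_rfl
  calc ∫⁻ z0 in K, ∑' n : ℤ, ‖MN (es η r z0) (qs (qT T) θ) y n‖ₑ ^ 2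
      ≤ _ := setLIntegral_mono' hK.measurableSet hpt
    _ ≤ _ := integ hc1 hcC hε hε1 hyo hy hr0 hC1 hC3 hvv0 hgg0 η hη K K' hK hK'm hsub hvol hG hAvg
        (hW1' (yo T θ y) y hyo hy) (hW3' (yo T θ y) y hyo hy)
    _ ≤ _ := by
        apply ENNReal.ofReal_le_ofReal
        exact final_real hC1 hC3 hvv0 hε hgg0 hsumle hT2 hy hyY hδ0 hδ rfl hr0 hTY

end Pool.Agent.A54.Ef
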