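import Pool.Agent.Lib.MP_a54f13_nt.Ef.Spec
import Pool.Agent.Lib.MP_a54f13_nt.Av.Gau

/-!
# Package `Ef`, module `GaD`: a Gaussian sum over matrices
-/

set_option autoImplicit false

namespace Pool.Agent.A54.Ef.GaDM

open MeasureTheory Filter Topology Set
open Pool.Agent.A54.Av (Mat)
open Pool.Agent.A54.Av.GauM

noncomputable section

/-- two variables, two parameters -/
def h2 (s t : ℝ) (p : ℤ × ℤ) : ℝ := g1 s p.1 * g1 t p.2

lemma h2_nonneg (s t : ℝ) : 0 ≤ h2 s t := fun _ => mul_nonneg (g1_nonneg s _) (g1_nonneg t _)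

lemma summable_h2 {s t : ℝ} (hs : 0 < s) (ht : 0 < t) : Summable (h2 s t) :=
  (summable_g1 hs).mul_of_nonneg (summable_g1 ht) (g1_nonneg s) (g1_nonneg t)

lemma tsum_h2 {s t : ℝ} (hs : 0 < s) (ht : 0 < t) :
    ∑' p, h2 s t p = (∑' n, g1 s n) * ∑' n, g1 t n := by
  rw [(summable_g1 hs).tsum_mul_tsum (summable_g1 ht) (summable_h2 hs ht)]
  rfl

/-- four variables -/
def h4 (s t : ℝ) (p : (ℤ × ℤ) × (ℤ × ℤ)) : ℝ := h2 s s p.1 * h2 s t p.2

lemma h4_nonneg (s t : ℝ) : 0 ≤ h4 s t := fun _ => mul_nonneg (h2_nonneg s s _) (h2_nonneg s t _)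

lemma summable_h4 {s t : ℝ} (hs : 0 < s) (ht : 0 < t) : Summable (h4 s t) :=
  (summable_h2 hs hs).mul_of_nonneg (summable_h2 hs ht) (h2_nonneg s s) (h2_nonneg s t)

lemma tsum_h4 {s t : ℝ} (hs : 0 < s) (ht : 0 < t) :
    ∑' p, h4 s t p = (∑' n, g1 s n) ^ 3 * ∑' n, g1 t n := by
  have h : ∑' p, h4 s t p = (∑' p, h2 s s p) * ∑' p, h2 s t p := by
    rw [(summable_h2 hs hs).tsum_mul_tsum (summable_h2 hs ht) (summable_h4 hs ht)]
    rfl
  rw [h, tsum_h2 hs hs, tsum_h2 hs ht]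
  ring

/-- the linear forms -/
def lf (γ : Mat) : (ℤ × ℤ) × (ℤ × ℤ) := ((γ 1 0, γ 0 0 - γ 1 1), (γ 0 1, γ 0 0 + γ 1 1))

lemma lf_inj : Function.Injective lf := by
  intro γ δ h
  unfold lf at h
  simp only [Prod.mk.injEq] at h
  obtain ⟨⟨h1, h2⟩, h3, h4⟩ := h
  ext i j
  fin_cases i <;> fin_cases j
  · show γ 0 0 = δ 0 0
    omega
  · exact h3
  · exact h1
  · show γ 1 1 = δ 1 1
    omega

lemma h4_lf (c0 ε : ℝ) (γ : Mat) : h4 c0 (c0 * ε ^ 2) (lf γ) = Real.exp (-(c0 * qe ε γ)) := by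
  unfold h4 h2 g1 qe lf
  simp only
  rw [← Real.exp_add, ← Real.exp_add, ← Real.exp_add]
  congr 1
  ring

end

end Pool.Agent.A54.Ef.GaDM

namespace Pool.Agent.A54.Ef

open MeasureTheory Filter Topology Set
open Pool.Agent.A54.Av (Mat)
open Pool.Agent.A54.Av.GauM
open GaDM

/-- **GaD** Gaussian sum over matrices -/
theorem stmtGaD : StmtGaD := by
  intro c0 hc0
  have hpi := Real.pi_pos
  have hG0 : ∀ t : ℝ, 0 ≤ ∑' n, g1 t n := fun t => tsum_nonneg (g1_nonneg t)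
  have hc1 : 0 < min c0 1 := lt_min hc0 one_pos
  refine ⟨(∑' n, g1 c0 n) ^ 3 * (√(Real.pi / min c0 1) * ∑' n, g1 1 n),
    mul_nonneg (pow_nonneg (hG0 c0) 3) (mul_nonneg (Real.sqrt_nonneg _) (hG0 1)),
    fun ε hε hε1 => ?_⟩
  have hs : 0 < c0 * ε ^ 2 := by positivity
  have hsum := summable_h4 hc0 hs
  have h1 : (fun γ : Mat => Real.exp (-(c0 * qe ε γ))) = h4 c0 (c0 * ε ^ 2) ∘ lf := by
    funext γ
    exact (h4_lf c0 ε γ).symm
  refine ⟨?_, ?_⟩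
  · rw [h1]
    exact hsum.comp_injective lf_inj
  · have h2 : ∑' γ : Mat, Real.exp (-(c0 * qe ε γ)) ≤ ∑' p, h4 c0 (c0 * ε ^ 2) p := by
      rw [h1]
      exact tsum_comp_le_tsum_of_inj hsum (h4_nonneg _ _) lf_inj
    refine h2.trans ?_
    rw [tsum_h4 hc0 hs, mul_div_assoc]
    refine mul_le_mul_of_nonneg_left ?_ (pow_nonneg (hG0 c0) 3)
    have ht : 0 < min c0 1 * ε ^ 2 := by positivity
    have ht1 : min c0 1 * ε ^ 2 ≤ 1 := by
      have h3 : min c0 1 ≤ 1 := min_le_right _ _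
      have h4 : ε ^ 2 ≤ 1 := by nlinarith
      nlinarith
    have h3 : ∑' n, g1 (c0 * ε ^ 2) n ≤ ∑' n, g1 (min c0 1 * ε ^ 2) n := by
      refine (summable_g1 hs).tsum_le_tsum (fun n => ?_) (summable_g1 ht)
      unfold g1
      apply Real.exp_le_exp.mpr
      have h5 : min c0 1 * ε ^ 2 ≤ c0 * ε ^ 2 :=
        mul_le_mul_of_nonneg_right (min_le_left _ _) (sq_nonneg _)
      have h6 := mul_le_mul_of_nonneg_right h5 (sq_nonneg (n : ℝ))
      linarith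
    refine h3.trans ((tsum_g1_le ht ht1).trans (le_of_eq ?_))
    have h7 : √(Real.pi / (min c0 1 * ε ^ 2)) = √(Real.pi / min c0 1) / ε := by
      rw [← div_div, Real.sqrt_div (by positivity), Real.sqrt_sq hε.le]
    rw [h7]
    ring

end Pool.Agent.A54.Ef
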