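import Pool.Agent.Lib.MP_a54f13_nt.Ef.Spec
import Pool.Agent.Lib.MP_a54f13_nt.Av.Fd2
import Pool.Agent.Lib.MP_a54f13_nt.Sq.FD

/-!
# Package `Ef`, module `Seq`: sequences of good forms
-/

set_option autoImplicit false

namespace Pool.Agent.A54.Ef.SeqM

open MeasureTheory Filter Topology Set
open scoped ContDiff ComplexConjugate UpperHalfPlane MatrixGroups ENNReal
open Pool.Agent.A54.Half (H0)
open Pool.Agent.A54.Pl (Ed)
open Pool.Agent.A54.Av (Bump es Sm' XX2)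
open Pool.Agent.A54.Sq (TestP)

noncomputable section

/-- from nonnegative test functions to all test functions -/
lemma general {g : ℕ → ℂ → ℝ}
    (hg : ∀ i (φ : ℂ → ℝ), TestR H0 φ → Integrable (fun z => φ z * g i z)) {k : ℝ}
    (h : ∀ φ : ℂ → ℝ, TestP H0 φ → Tendsto (fun i => ∫ z, φ z * g i z) atTop
      (𝓝 (k * ∫ z, φ z)))
    {φ : ℂ → ℝ} (hφ : TestR H0 φ) :
    Tendsto (fun i => ∫ z, φ z * g i z) atTop (𝓝 (k * ∫ z, φ z)) := by
  obtain ⟨χ, hχ, hχ01, hχ1⟩ := exists_cutoff hφ.cpt.isCompact Half.isOpen_H0 hφ.sub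
  obtain ⟨Z, hZ0, hZ⟩ := Rel.test_bdd hφ
  have hψ : TestR H0 (fun z => φ z + Z * χ z) := by
    refine ⟨hφ.smooth.add (contDiff_const.mul hχ.smooth), hφ.cpt.add hχ.cpt.mul_left, ?_⟩
    refine (tsupport_add φ (fun z => Z * χ z)).trans (union_subset hφ.sub ?_)
    exact (tsupport_mul_subset_right (f := fun _ => Z) (g := χ)).trans hχ.sub
  have hψ0 : ∀ z, 0 ≤ φ z + Z * χ z := by
    intro z
    by_cases hz : z ∈ tsupport φ
    · have e1 : χ z = 1 := hχ1.self_of_nhdsSet z hz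
      rw [e1]
      have := (abs_le.mp (hZ z)).1
      linarith
    · rw [image_eq_zero_of_notMem_tsupport hz, zero_add]
      exact mul_nonneg hZ0 (hχ01 z).1
  have k1 := h _ ⟨hψ, hψ0⟩
  have k2 := (h χ ⟨hχ, fun z => (hχ01 z).1⟩).const_mul Z
  have k3 := k1.sub k2
  have e : k * (∫ z, (φ z + Z * χ z)) - Z * (k * ∫ z, χ z) = k * ∫ z, φ z := by
    rw [integral_add hφ.integrable (hχ.integrable.const_mul Z), integral_const_mul]
    ring
  rw [e] at k3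
  refine k3.congr fun i => ?_
  rw [← integral_const_mul, ← integral_sub (hg i _ hψ) ((hg i _ hχ).const_mul Z)]
  congr 1; funext z; ring

/-- limits on the half-plane from limits on the plane -/
lemma to_half {f : ℕ → ℍ → ℝ} {k : ℝ} {m : ℕ}
    (h : ∀ φ : ℂ → ℝ, TestR H0 φ → Tendsto (fun i => ∫ z, φ z * ext (f i) z ^ m) atTop
      (𝓝 (k * ∫ z, φ z))) {φ : ℂ → ℝ} (hφ : TestR H0 φ) :
    Tendsto (fun i => ∫ z : ℍ, φ z * f i z ^ m) atTop (𝓝 (k * ∫ z : ℍ, φ z)) := by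
  have hφ2 : TestR H0 fun z => φ z * (z.im)⁻¹ ^ 2 :=
    Half.testR_mul Half.isOpen_H0 hφ hφ.sub (Half.contDiffOn_weight 2)
  have h1 := h _ hφ2
  rw [Sq.FDM.int_one stmtInt hφ]
  exact h1.congr fun i => (Sq.FDM.int_eq stmtInt hφ (f i) m).symm

/-- no escape of mass -/
lemma cusp (hC : StmtCus) {κ : ℝ} (hκ : 0 < κ) : ∃ Y : ℝ, ∀ (f : ℍ → ℝ) (t : ℝ),
    IsHeckeMaass f t → ∫ z in ModularGroup.fdo ∩ {z : ℍ | Y < z.im}, f z ^ 2 ≤ κ := by
  obtain ⟨C, hC0, h⟩ := hC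
  have h1 : Tendsto (fun Y : ℝ => C * Y ^ (-(1 / 4 : ℝ))) atTop (𝓝 0) := by
    have h2 := (tendsto_rpow_neg_atTop (by norm_num : (0 : ℝ) < 1 / 4)).const_mul C
    simpa using h2
  obtain ⟨Y, hY1, hY⟩ := ((h1.eventually (gt_mem_nhds hκ)).and (eventually_ge_atTop 1)).exists
  exact ⟨Y, fun f t hf => (h f t hf Y hY).trans hY1.le⟩

/-- choice of a subsequence -/
lemma core (hFa : StmtFa1) (hSD : Av.StmtSDi) (hFlt : Sq.StmtFlt) (hCus : StmtCus)
    (hVol : Av.StmtVol) (hU1 : Pl.StmtU1) {η : ℂ → ℝ} (hη : Bump η)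
    {f : ℕ → ℍ → ℝ} {t T : ℕ → ℝ} (hf : ∀ i, IsHeckeMaass (f i) (t i))
    (ht : Tendsto t atTop atTop) (h0 : ∀ i, 0 < t i) (hTt : ∀ i, t i ≤ T i)
    (hX : ∀ K : Set ℂ, IsCompact K → K ⊆ H0 →
      Tendsto (fun i => XX2 η (T i ^ (-(51 / 100 : ℝ))) K (f i)) atTop (𝓝 0)) :
    ∃ ms : ℕ → ℕ, ∀ φ : ℂ → ℝ, TestR H0 φ →
      Tendsto (fun i => ∫ z : ℍ, φ z * f (ms i) z ^ 2) atTop (𝓝 (∫ z : ℍ, φ z)) ∧
      Tendsto (fun i => ∫ z : ℍ, φ z * f (ms i) z ^ 4) atTop (𝓝 (3 * ∫ z : ℍ, φ z)) := by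
  have hT : Tendsto T atTop atTop := tendsto_atTop_mono hTt ht
  have hT0 : ∀ i, 0 < T i := fun i => (h0 i).trans_le (hTt i)
  have hpow : ∀ b : ℝ, 0 < b → Tendsto (fun i => T i ^ (-b)) atTop (𝓝 0) := fun b hb =>
    (tendsto_rpow_neg_atTop hb).comp hT
  obtain ⟨φ0, hφ0, hφ0n, hφ01⟩ := Av.FdM.exists_phi0
  obtain ⟨B, hB⟩ := Av.FdM.bdd hU1 hφ0
  have hmem : ∀ i, ∫ z, φ0 z * ext (f i) z ^ 2 ∈ Icc (0 : ℝ) B := fun i =>
    ⟨integral_nonneg fun z => mul_nonneg (hφ0n z) (sq_nonneg _),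
      (le_abs_self _).trans (hB (f i) (t i) (hf i))⟩
  obtain ⟨c, hc, ms, hms, hlim⟩ := isCompact_Icc.tendsto_subseq hmem
  refine ⟨ms, ?_⟩
  have hmt := hms.tendsto_atTop
  have hcF : ∀ i, ContinuousOn (fun w => ext (f (ms i)) w ^ 2) H0 := fun i =>
    ((hf (ms i)).smooth.continuousOn).pow 2
  have key : ∀ φ : ℂ → ℝ, TestP H0 φ →
      Tendsto (fun i => ∫ z, φ z * (Sm' η (T (ms i) ^ (-(51 / 100 : ℝ)))
        (fun w => ext (f (ms i)) w ^ 2) z - c) ^ 2) atTop (𝓝 0) ∧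
      Tendsto (fun i => ∫ z, φ z * ext (f (ms i)) z ^ 2) atTop (𝓝 (c * ∫ z, φ z)) := by
    refine hFa η hη (fun i w => ext (f (ms i)) w ^ 2) (fun i => T (ms i) ^ (-(51 / 100 : ℝ)))
      hcF (fun i z => sq_nonneg _) (fun i => Real.rpow_pos_of_pos (hT0 _) _)
      ((hpow _ (by norm_num)).comp hmt) ?_ ?_ φ0 c ⟨hφ0, hφ0n⟩ hφ01 hlim
    · intro K hK hKH
      obtain ⟨B', hB'⟩ := Av.FdM.bddK hU1 hK hKH
      exact ⟨B', fun i => hB' (f (ms i)) (t (ms i)) (hf (ms i))⟩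
    · intro K hK hKH
      exact (hX K hK hKH).comp hmt
  -- the constant is one
  have hc1 : c = 1 := by
    refine Av.Fd2M.c_one hVol (f := fun i => f (ms i)) (t := fun i => t (ms i))
      (fun i => hf (ms i)) hc.1 (fun φ hφ => to_half (fun ψ hψ => ?_) hφ) fun κ hκ => ?_
    · exact general (g := fun i z => ext (f (ms i)) z ^ 2)
        (fun i ψ hψ => (Av.FdM.test_sq hψ (hf (ms i))).integrable) (fun ψ hψ => (key ψ hψ).2) hψ
    · obtain ⟨Y, hY⟩ := cusp hCus hκ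
      exact ⟨Y, Eventually.of_forall fun i => hY (f (ms i)) (t (ms i)) (hf (ms i))⟩
  subst hc1
  -- means over discs
  have hEd : ∀ φ : ℂ → ℝ, TestP H0 φ → Tendsto (fun i => ∫ z, φ z *
      (Ed (T (ms i) ^ (-(101 / 200 : ℝ))) (fun w => ext (f (ms i)) w ^ 2) z - 1) ^ 2) atTop
        (𝓝 0) := by
    intro φ hφ
    obtain ⟨ζ, C, r0, A0, hζ, hζ0, hC, hr0, hA0, h⟩ := hSD η hη φ hφ.test hφ.nonneg
    have hratio : ∀ i, T (ms i) ^ (-(51 / 100 : ℝ)) / T (ms i) ^ (-(101 / 200 : ℝ)) =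
        T (ms i) ^ (-(1 / 200 : ℝ)) := fun i => by
      rw [← Real.rpow_sub (hT0 _)]
      norm_num
    have hlim1 : Tendsto (fun i => C * (∫ z, ζ z * (Sm' η (T (ms i) ^ (-(51 / 100 : ℝ)))
        (fun w => ext (f (ms i)) w ^ 2) z - 1) ^ 2) +
        C * (1 : ℝ) ^ 2 * (T (ms i) ^ (-(1 / 200 : ℝ))) ^ 2) atTop (𝓝 0) := by
      have h1 := (key ζ ⟨hζ, hζ0⟩).1.const_mul C
      have h2 := (((hpow _ (by norm_num : (0 : ℝ) < 1 / 200)).comp hmt).pow 2).const_mul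
        (C * (1 : ℝ) ^ 2)
      have h3 := h1.add h2
      simpa using h3
    refine squeeze_zero' (Eventually.of_forall fun i =>
      integral_nonneg fun z => mul_nonneg (hφ.nonneg z) (sq_nonneg _)) ?_ hlim1
    have e1 := ((hpow _ (by norm_num : (0 : ℝ) < 101 / 200)).comp hmt).eventually
      (ge_mem_nhds hr0)
    have e2 := ((hpow _ (by norm_num : (0 : ℝ) < 1 / 200)).comp hmt).eventually
      (ge_mem_nhds (by positivity : 0 < A0⁻¹))
    filter_upwards [e1, e2] with i h1 h2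
    have hTi := hT0 (ms i)
    have hp := Real.rpow_pos_of_pos hTi (-(101 / 200 : ℝ))
    have h3 := h (fun w => ext (f (ms i)) w ^ 2) (hcF i) (fun z => sq_nonneg _) 1
      (T (ms i) ^ (-(101 / 200 : ℝ))) (T (ms i) ^ (-(51 / 100 : ℝ))) zero_le_one
      (Real.rpow_pos_of_pos hTi _) ?_ h1
    · rw [hratio] at h3
      exact h3
    · have h4 : T (ms i) ^ (-(51 / 100 : ℝ)) =
          T (ms i) ^ (-(1 / 200 : ℝ)) * T (ms i) ^ (-(101 / 200 : ℝ)) := by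
        rw [← Real.rpow_add hTi]
        norm_num
      have h5 : T (ms i) ^ (-(1 / 200 : ℝ)) ≤ A0⁻¹ := h2
      have hA : 0 < A0 := by linarith
      calc A0 * T (ms i) ^ (-(51 / 100 : ℝ)) =
          A0 * T (ms i) ^ (-(1 / 200 : ℝ)) * T (ms i) ^ (-(101 / 200 : ℝ)) := by rw [h4]; ring
        _ ≤ A0 * A0⁻¹ * T (ms i) ^ (-(101 / 200 : ℝ)) := by gcongr
        _ = _ := by rw [mul_inv_cancel₀ hA.ne', one_mul]
  have hfin := hFlt (fun i => f (ms i)) (fun i => t (ms i))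
    (fun i => T (ms i) ^ (-(101 / 200 : ℝ))) (fun _ => 1) (1 / 200) 1 (fun i => hf (ms i))
    (ht.comp hmt) (by norm_num) (fun i => ⟨Real.rpow_pos_of_pos (hT0 _) _, ?_⟩)
    (fun _ => ⟨zero_le_one, one_le_two⟩) tendsto_const_nhds hEd
  · intro φ hφ
    have h2 := to_half (f := fun i => f (ms i)) (m := 2) (fun ψ hψ => (hfin ψ hψ).1) hφ
    have h4 := to_half (f := fun i => f (ms i)) (m := 4) (fun ψ hψ => (hfin ψ hψ).2) hφ
    rw [one_mul] at h2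
    rw [one_pow, mul_one] at h4
    exact ⟨h2, h4⟩
  · have e : (-(1 / 2 + 1 / 200) : ℝ) = -(101 / 200) := by norm_num
    rw [e]
    exact Real.rpow_le_rpow_of_nonpos (h0 _) (hTt _) (by norm_num)

end

end Pool.Agent.A54.Ef.SeqM

namespace Pool.Agent.A54.Ef

open MeasureTheory Filter Topology Set
open scoped ContDiff ComplexConjugate UpperHalfPlane MatrixGroups ENNReal
open Pool.Agent.A54.Half (H0)

theorem stmtSeq (hFa : StmtFa1) (hSD : Av.StmtSDi) (hFlt : Sq.StmtFlt) (hCus : StmtCus)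
    (hVol : Av.StmtVol) (hU1 : Pl.StmtU1) : StmtSeq := by
  intro η hη f t T hf ht hTt hX φ hφ
  obtain ⟨N, hN⟩ := eventually_atTop.1 (hTt.and (ht.eventually_gt_atTop 0))
  have key : ∀ ns : ℕ → ℕ, Tendsto ns atTop atTop → ∃ ms : ℕ → ℕ,
      Tendsto (fun i => ∫ z : ℍ, φ z * f (ns (ms i)) z ^ 2) atTop (𝓝 (∫ z : ℍ, φ z)) ∧
      Tendsto (fun i => ∫ z : ℍ, φ z * f (ns (ms i)) z ^ 4) atTop (𝓝 (3 * ∫ z : ℍ, φ z)) := by
    intro ns hns
    obtain ⟨M, hM⟩ := eventually_atTop.1 (hns.eventually (eventually_ge_atTop N))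
    have hns' : Tendsto (fun i => ns (i + M)) atTop atTop :=
      hns.comp (tendsto_add_atTop_nat M)
    have hge : ∀ i, N ≤ ns (i + M) := fun i => hM _ (Nat.le_add_left M i)
    obtain ⟨ms, hms⟩ := SeqM.core hFa hSD hFlt hCus hVol hU1 hη (f := fun i => f (ns (i + M)))
      (t := fun i => t (ns (i + M))) (T := fun i => T (ns (i + M))) (fun i => hf _)
      (ht.comp hns') (fun i => (hN _ (hge i)).2) (fun i => (hN _ (hge i)).1.2)
      (fun K hK hKH => (hX K hK hKH).comp hns')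
    exact ⟨fun i => ms i + M, hms φ hφ⟩
  constructor
  · refine tendsto_of_subseq_tendsto fun ns hns => ?_
    obtain ⟨ms, h2, -⟩ := key ns hns
    exact ⟨ms, h2⟩
  · refine tendsto_of_subseq_tendsto fun ns hns => ?_
    obtain ⟨ms, -, h4⟩ := key ns hns
    exact ⟨ms, h4⟩

end Pool.Agent.A54.Ef
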