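import Pool.Agent.Lib.MP_a54f13_nt.Ef.Spec
import Pool.Agent.Lib.MP_a54f13_nt.Av.Sm2

/-!
# Module `Sm2`: bounds for the amplitude, explicit in the parameter

The amplitude is an affine function of `n / c²`, so the compactness argument of `Av/Sm2.lean` for the values
`0` and `1` of this parameter gives everything.
-/

set_option autoImplicit false

namespace Pool.Agent.A54.Ef.Sm2M

open MeasureTheory Filter Topology Set
open scoped ContDiff ComplexConjugate UpperHalfPlane MatrixGroups ENNReal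
open Pool.Agent.A54.Half (H0 qq ff hh)
open Pool.Agent.A54.Av.Sm2M

lemma comb_le {E : Type} [NormedAddCommGroup E] [NormedSpace ℝ E] {a b : E} {ν ε C : ℝ}
    (h0 : 0 ≤ ν) (h1 : ν ≤ 1 / ε ^ 2) (h2 : 1 ≤ 1 / ε ^ 2) (ha : ‖a‖ ≤ C) (hb : ‖b‖ ≤ C) :
    ‖(1 - ν) • a + ν • b‖ ≤ 3 * C / ε ^ 2 := by
  have hC : 0 ≤ C := (norm_nonneg _).trans ha
  have h3 : |1 - ν| ≤ 1 + ν := by
    rw [abs_le]
    constructor <;> linarith
  calc ‖(1 - ν) • a + ν • b‖ ≤ ‖(1 - ν) • a‖ + ‖ν • b‖ := norm_add_le _ _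
    _ = |1 - ν| * ‖a‖ + ν * ‖b‖ := by
      rw [norm_smul, norm_smul, Real.norm_eq_abs, Real.norm_eq_abs, abs_of_nonneg h0]
    _ ≤ (1 + ν) * C + ν * C := by
      apply add_le_add
      · exact mul_le_mul h3 ha (norm_nonneg _) (by linarith)
      · exact mul_le_mul_of_nonneg_left hb h0
    _ = C * (1 + 2 * ν) := by ring
    _ ≤ C * (3 * (1 / ε ^ 2)) := mul_le_mul_of_nonneg_left (by linarith) hC
    _ = 3 * C / ε ^ 2 := by ring

lemma phx_lin (p q ν : ℝ) (w : ℂ) : phx ((p, q, ν), w) =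
    (1 - ν) • phx ((p, q, 0), w) + ν • phx ((p, q, 1), w) := by
  have e0 : bbx (((p, q, (0 : ℝ)), w) : TT × ℂ) = bbx ((p, q, ν), w) := rfl
  have e1 : bbx (((p, q, (1 : ℝ)), w) : TT × ℂ) = bbx ((p, q, ν), w) := rfl
  have e2 : vvx (((p, q, (0 : ℝ)), w) : TT × ℂ) = vvx ((p, q, ν), w) := rfl
  have e3 : vvx (((p, q, (1 : ℝ)), w) : TT × ℂ) = vvx ((p, q, ν), w) := rfl
  unfold phx
  rw [e0, e1, e2, e3]
  simp only [smul_eq_mul]
  ring

lemma fd_comb {f g : ℂ → ℂ} {z : ℂ} (a b : ℂ) (hf : DifferentiableAt ℝ f z)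
    (hg : DifferentiableAt ℝ g z) (v : ℂ) :
    fderiv ℝ (fun w => a * f w + b * g w) z v = a * fderiv ℝ f z v + b * fderiv ℝ g z v := by
  have hd := (hf.hasFDerivAt.const_mul a).add (hg.hasFDerivAt.const_mul b)
  rw [show fderiv ℝ (fun w => a * f w + b * g w) z = _ from hd.fderiv]
  simp

lemma dzb_dz_comb {t0 t1 : TT} {z a b : ℂ} (h0 : (t0, z) ∈ UU) (h1 : (t1, z) ∈ UU) :
    dzb (dz (fun w => a * pcx (t0, w) + b * pcx (t1, w))) z =
      a * p2 (t0, z) + b * p2 (t1, z) := by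
  have hs : ∀ {G : TT × ℂ → ℂ}, ContDiffOn ℝ ∞ G UU → ∀ {t : TT} {w : ℂ}, (t, w) ∈ UU →
      DifferentiableAt ℝ (fun w => G (t, w)) w := by
    intro G hG t w hw
    exact (cdAt_slice hG hw).differentiableAt (by simp)
  have he : dz (fun w => a * pcx (t0, w) + b * pcx (t1, w)) =ᶠ[𝓝 z]
      fun w => a * p1 (t0, w) + b * p1 (t1, w) := by
    filter_upwards [slice_nhds h0, slice_nhds h1] with w hw0 hw1
    unfold dz p1 ddx
    rw [fd_comb a b (hs cd_pc hw0) (hs cd_pc hw1), fd_comb a b (hs cd_pc hw0) (hs cd_pc hw1),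
      fderiv_slice cd_pc hw0, fderiv_slice cd_pc hw0, fderiv_slice cd_pc hw1,
      fderiv_slice cd_pc hw1]
    ring
  unfold dzb p2 ddx
  rw [he.fderiv_eq, fd_comb a b (hs cd_p1 h0) (hs cd_p1 h1), fd_comb a b (hs cd_p1 h0) (hs cd_p1 h1),
    fderiv_slice cd_p1 h0, fderiv_slice cd_p1 h0, fderiv_slice cd_p1 h1, fderiv_slice cd_p1 h1]
  ring

end Pool.Agent.A54.Ef.Sm2M

namespace Pool.Agent.A54.Ef

open MeasureTheory Filter Topology Set
open scoped ContDiff ComplexConjugate UpperHalfPlane MatrixGroups ENNReal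
open Pool.Agent.A54.Half (H0 qq ff hh)
open Pool.Agent.A54.Av (Mat VV Vd msq bet NonSc Bump es Sm' MN RN GR qs qT dl yo Aa DD Fam wf XX2)
open Pool.Agent.A54.Av.Sm2M Sm2M

noncomputable section

theorem stmtSm2 : StmtSm2 := by
  intro K hK hK'
  obtain ⟨R, hR0, hR⟩ : ∃ R : ℝ, 0 ≤ R ∧ ∀ z ∈ K, ‖z‖ ≤ R := by
    obtain ⟨R, hR⟩ := hK.isBounded.exists_norm_le
    exact ⟨max R 0, le_max_right _ _, fun z hz => (hR z hz).trans (le_max_left _ _)⟩
  set P : ℝ := 3 * R with hP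
  set Q : ℝ := 6 * R ^ 2 with hQ
  obtain ⟨C1, hC1, hb1⟩ := bound_on hK hK' P Q 1 cd_ra.continuousOn
  obtain ⟨C2, hC2, hb2⟩ := bound_on hK hK' P Q 1 cd_ph.continuousOn
  obtain ⟨C3, hC3, hb3⟩ := bound_on hK hK' P Q 1
    (cd_ph.continuousOn_fderiv_of_isOpen open_UU (by simp))
  obtain ⟨C4, hC4, hb4⟩ := bound_on hK hK' P Q 1 cd_p2.continuousOn
  refine ⟨3 * (C1 + C2 + C3 + C4), by positivity, ?_⟩
  intro ε hε hε1 z hz γ hn hc hV
  have hy : 0 < z.im := hK' hz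
  set c : ℝ := ((γ 1 0 : ℤ) : ℝ) with hcdef
  set n : ℝ := ((γ.det : ℤ) : ℝ) with hndef
  have hn1 : (1 : ℝ) ≤ n := by rw [hndef]; exact_mod_cast hn
  have hc0 : c ≠ 0 := by
    intro h0
    rw [h0] at hc
    have : 0 < ε ^ 2 * n := by positivity
    linarith [show (0:ℝ)^2 = 0 by norm_num]
  have hc2 : 0 < c ^ 2 := by positivity
  set p : ℝ := (((γ 0 0 : ℤ) : ℝ) - ((γ 1 1 : ℤ) : ℝ)) / c with hp
  set q : ℝ := ((γ 0 1 : ℤ) : ℝ) / c with hq
  set ν : ℝ := n / c ^ 2 with hν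
  have hpc : ((γ 0 0 : ℤ) : ℝ) - ((γ 1 1 : ℤ) : ℝ) = c * p := by rw [hp]; field_simp
  have hqc : ((γ 0 1 : ℤ) : ℝ) = c * q := by rw [hq]; field_simp
  have hnc : n = c ^ 2 * ν := by rw [hν]; field_simp
  -- `V` and `β`
  have hVd : ∀ w : ℂ, Vd γ w = c ^ 2 * vvx ((p, q, ν), w) := by
    intro w
    have h1 : ‖((γ 0 0 : ℤ) : ℂ) * w + ((γ 0 1 : ℤ) : ℂ) -
        w * (((γ 1 0 : ℤ) : ℂ) * w + ((γ 1 1 : ℤ) : ℂ))‖ ^ 2 =
        c ^ 2 * (nrx ((p, q, ν), w) ^ 2 + nix ((p, q, ν), w) ^ 2) := by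
      rw [Complex.sq_norm, Complex.normSq_apply]
      have hre : (((γ 0 0 : ℤ) : ℂ) * w + ((γ 0 1 : ℤ) : ℂ) -
          w * (((γ 1 0 : ℤ) : ℂ) * w + ((γ 1 1 : ℤ) : ℂ))).re = -(c * nrx ((p, q, ν), w)) := by
        simp only [Complex.sub_re, Complex.add_re, Complex.mul_re, Complex.intCast_re,
          Complex.intCast_im, Complex.add_im, Complex.mul_im, nrx]
        rw [← hcdef, hqc]
        have : ((γ 0 0 : ℤ) : ℝ) = c * p + ((γ 1 1 : ℤ) : ℝ) := by linarith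
        rw [this]; ring
      have him : (((γ 0 0 : ℤ) : ℂ) * w + ((γ 0 1 : ℤ) : ℂ) -
          w * (((γ 1 0 : ℤ) : ℂ) * w + ((γ 1 1 : ℤ) : ℂ))).im = -(c * nix ((p, q, ν), w)) := by
        simp only [Complex.sub_im, Complex.add_re, Complex.mul_re, Complex.intCast_re,
          Complex.intCast_im, Complex.add_im, Complex.mul_im, nix]
        rw [← hcdef]
        have : ((γ 0 0 : ℤ) : ℝ) = c * p + ((γ 1 1 : ℤ) : ℝ) := by linarith
        rw [this]; ring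
      rw [hre, him]; ring
    unfold Vd VV vvx
    rw [h1, mul_div_assoc]
  have hbet : ∀ w : ℂ, bet γ w = c * bbx ((p, q, ν), w) := by
    intro w
    unfold bet bbx
    rw [← hcdef, hpc, hqc, Complex.sq_norm, Complex.normSq_apply, ← mul_div_assoc]
    ring
  have hAa : Aa γ = fun w => phx ((p, q, ν), w) := by
    funext w
    unfold Aa phx
    rw [← hndef, hVd w, hbet w]
    rw [hnc]
    have h1 : w.im ^ 2 * (c ^ 2 * ν + c ^ 2 * vvx ((p, q, ν), w)) =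
        c ^ 2 * (w.im ^ 2 * (ν + vvx ((p, q, ν), w))) := by ring
    have h2 : 4 * (c * bbx ((p, q, ν), w)) ^ 2 = c ^ 2 * (4 * bbx ((p, q, ν), w) ^ 2) := by ring
    rw [h1, h2, mul_div_mul_left _ _ (ne_of_gt hc2)]
  -- membership
  have hN : 4 * (nrx ((p, q, ν), z) ^ 2 + nix ((p, q, ν), z) ^ 2) ≤ z.im ^ 4 := by
    have h1 : c ^ 2 * vvx ((p, q, ν), z) ≤ c ^ 2 * (z.im / 4) ^ 2 := by
      rw [← hVd z]; calc Vd γ z ≤ (c * z.im / 4) ^ 2 := hV
        _ = c ^ 2 * (z.im / 4) ^ 2 := by ring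
    have h2 : vvx ((p, q, ν), z) ≤ (z.im / 4) ^ 2 := le_of_mul_le_mul_left h1 hc2
    unfold vvx at h2
    rw [div_le_iff₀ (by positivity)] at h2
    nlinarith [h2]
  have hre : |z.re| ≤ R := (Complex.abs_re_le_norm z).trans (hR z hz)
  have him : z.im ≤ R := (le_abs_self _).trans ((Complex.abs_im_le_norm z).trans (hR z hz))
  have hni : |2 * z.re - p| ≤ z.im / 2 := by
    have h1 : 4 * nix ((p, q, ν), z) ^ 2 ≤ z.im ^ 4 := by
      nlinarith [sq_nonneg (nrx ((p, q, ν), z))]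
    have h2 : nix ((p, q, ν), z) = (2 * z.re - p) * z.im := by unfold nix; simp only; ring
    rw [h2] at h1
    have h3 : (2 * z.re - p) ^ 2 ≤ (z.im / 2) ^ 2 := by
      have h4 : (z.im) ^ 2 * (2 * z.re - p) ^ 2 ≤ (z.im) ^ 2 * (z.im / 2) ^ 2 := by nlinarith [h1]
      exact le_of_mul_le_mul_left h4 (by positivity)
    exact abs_le_of_sq_le_sq h3 (by positivity)
  have hnr : |nrx ((p, q, ν), z)| ≤ z.im ^ 2 / 2 := by
    have h1 : nrx ((p, q, ν), z) ^ 2 ≤ (z.im ^ 2 / 2) ^ 2 := by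
      nlinarith [sq_nonneg (nix ((p, q, ν), z)), hN]
    exact abs_le_of_sq_le_sq h1 (by positivity)
  have hpP : |p| ≤ P := by
    rw [abs_le] at hni hre ⊢
    constructor <;> rw [hP] <;> linarith [hni.1, hni.2, hre.1, hre.2]
  have hqQ : |q| ≤ Q := by
    have h1 : q = z.re ^ 2 - z.im ^ 2 - p * z.re - nrx ((p, q, ν), z) := by unfold nrx; simp only; ring
    have h2 : |p * z.re| ≤ 3 * R * R := by
      rw [abs_mul]; exact mul_le_mul hpP hre (abs_nonneg _) (by positivity)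
    have h3 : z.re ^ 2 ≤ R ^ 2 := by
      rw [← sq_abs]; exact pow_le_pow_left₀ (abs_nonneg _) hre 2
    have h4 : z.im ^ 2 ≤ R ^ 2 := pow_le_pow_left₀ hy.le him 2
    have h5 : 0 ≤ z.re ^ 2 := sq_nonneg _
    have h6 : 0 ≤ z.im ^ 2 := sq_nonneg _
    rw [abs_le] at hnr h2 ⊢
    rw [h1, hQ]
    constructor <;> nlinarith [hnr.1, hnr.2, h2.1, h2.2]
  have hνE : ν ≤ 1 / ε ^ 2 := by
    rw [hν, div_le_div_iff₀ hc2 (by positivity)]
    linarith [mul_comm n (ε ^ 2)]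
  have hν0 : 0 ≤ ν := by rw [hν]; positivity
  have hεi : 1 ≤ 1 / ε ^ 2 := by
    rw [le_div_iff₀ (by positivity)]
    nlinarith
  have hpm := abs_le.mp hpP
  have hqm := abs_le.mp hqQ
  have hmem0 : (((p, q, 0), z) : TT × ℂ) ∈ SS K P Q 1 :=
    ⟨⟨⟨hpm, hqm, ⟨le_rfl, zero_le_one⟩⟩, hz⟩, hN⟩
  have hmem1 : (((p, q, 1), z) : TT × ℂ) ∈ SS K P Q 1 :=
    ⟨⟨⟨hpm, hqm, ⟨zero_le_one, le_rfl⟩⟩, hz⟩, hN⟩
  have hU0 := SS_sub hK' P Q 1 hmem0
  have hU1 := SS_sub hK' P Q 1 hmem1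
  have hU : (((p, q, ν), z) : TT × ℂ) ∈ UU := hU0
  have hb0 := bb_ne hU
  have hsum : ∀ C : ℝ, 0 ≤ C → C ≤ C1 + C2 + C3 + C4 →
      3 * C / ε ^ 2 ≤ 3 * (C1 + C2 + C3 + C4) / ε ^ 2 := by
    intro C _ h
    apply div_le_div_of_nonneg_right _ (by positivity)
    linarith
  refine ⟨?_, ?_, ?_, ?_, ?_, ?_⟩
  · rw [hbet z]; exact mul_ne_zero hc0 hb0
  · have h1 : |rax ((p, q, ν), z)| ≤ 3 * C1 / ε ^ 2 := by
      have he : rax ((p, q, ν), z) =
          (1 - ν) • rax ((p, q, 0), z) + ν • rax ((p, q, 1), z) := by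
        have e0 : bbx (((p, q, (0 : ℝ)), z) : TT × ℂ) = bbx ((p, q, ν), z) := rfl
        have e1 : bbx (((p, q, (1 : ℝ)), z) : TT × ℂ) = bbx ((p, q, ν), z) := rfl
        have e2 : vvx (((p, q, (0 : ℝ)), z) : TT × ℂ) = vvx ((p, q, ν), z) := rfl
        have e3 : vvx (((p, q, (1 : ℝ)), z) : TT × ℂ) = vvx ((p, q, ν), z) := rfl
        unfold rax
        rw [e0, e1, e2, e3]
        simp only [smul_eq_mul]
        ring
      rw [he]
      exact comb_le hν0 hνE hεi (hb1 _ hmem0) (hb1 _ hmem1)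
    rw [hVd z, hbet z, hnc]
    have h2 : rax ((p, q, ν), z) ≤ 3 * C1 / ε ^ 2 := (le_abs_self _).trans h1
    unfold rax at h2
    have h3 : 0 < bbx ((p, q, ν), z) ^ 2 := by positivity
    rw [div_le_iff₀ h3] at h2
    have h4 : 0 ≤ c ^ 2 * bbx ((p, q, ν), z) ^ 2 := by positivity
    calc c ^ 2 * ν + c ^ 2 * vvx ((p, q, ν), z) = c ^ 2 * (ν + vvx ((p, q, ν), z)) := by ring
      _ ≤ c ^ 2 * (3 * C1 / ε ^ 2 * bbx ((p, q, ν), z) ^ 2) := mul_le_mul_of_nonneg_left h2 hc2.le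
      _ = 3 * C1 / ε ^ 2 * (c ^ 2 * bbx ((p, q, ν), z) ^ 2) := by ring
      _ ≤ 3 * (C1 + C2 + C3 + C4) / ε ^ 2 * (c ^ 2 * bbx ((p, q, ν), z) ^ 2) :=
          mul_le_mul_of_nonneg_right (hsum C1 hC1 (by linarith)) h4
      _ = 3 * (C1 + C2 + C3 + C4) / ε ^ 2 * (c * bbx ((p, q, ν), z)) ^ 2 := by ring
  · rw [hAa]
    have h2 : |phx ((p, q, ν), z)| ≤ 3 * C2 / ε ^ 2 := by
      rw [phx_lin p q ν z]
      exact comb_le hν0 hνE hεi (hb2 _ hmem0) (hb2 _ hmem1)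
    exact h2.trans (hsum C2 hC2 (by linarith))
  · rw [hAa]; exact cdAt_slice cd_ph hU
  · rw [hAa]
    refine le_trans ?_ (hsum C3 hC3 (by linarith))
    have hsl : ∀ s : ℝ, (((p, q, s), z) : TT × ℂ) ∈ SS K P Q 1 →
        ‖fderiv ℝ (fun w => phx ((p, q, s), w)) z‖ ≤ C3 := by
      intro s hs
      have h3 := hb3 _ hs
      refine ContinuousLinearMap.opNorm_le_bound _ hC3 ?_
      intro e
      rw [fderiv_slice cd_ph (SS_sub hK' P Q 1 hs) e]
      refine (ContinuousLinearMap.le_opNorm _ _).trans ?_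
      have h4 : ‖((0, e) : TT × ℂ)‖ = ‖e‖ := by
        rw [Prod.norm_mk, norm_zero]; exact max_eq_right (norm_nonneg _)
      rw [h4]
      exact mul_le_mul_of_nonneg_right h3 (norm_nonneg _)
    have d0 : DifferentiableAt ℝ (fun w => phx ((p, q, (0 : ℝ)), w)) z :=
      (cdAt_slice cd_ph hU0).differentiableAt (by simp)
    have d1 : DifferentiableAt ℝ (fun w => phx ((p, q, (1 : ℝ)), w)) z :=
      (cdAt_slice cd_ph hU1).differentiableAt (by simp)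
    have he : (fun w => phx ((p, q, ν), w)) = fun w =>
        (1 - ν) • phx ((p, q, 0), w) + ν • phx ((p, q, 1), w) := by
      funext w
      exact phx_lin p q ν w
    have hd := (d0.hasFDerivAt.const_smul (1 - ν)).add (d1.hasFDerivAt.const_smul ν)
    have hd' : fderiv ℝ (fun w => phx ((p, q, ν), w)) z =
        (1 - ν) • fderiv ℝ (fun w => phx ((p, q, (0 : ℝ)), w)) z +
          ν • fderiv ℝ (fun w => phx ((p, q, (1 : ℝ)), w)) z := by
      rw [he]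
      exact hd.fderiv
    rw [hd']
    exact comb_le hν0 hνE hεi (hsl 0 hmem0) (hsl 1 hmem1)
  · have h5 : (fun w => ((Aa γ w : ℝ) : ℂ)) = fun w =>
        (((1 - ν : ℝ)) : ℂ) * pcx ((p, q, 0), w) + ((ν : ℝ) : ℂ) * pcx ((p, q, 1), w) := by
      rw [hAa]
      funext w
      simp only [pcx]
      rw [phx_lin p q ν w]
      simp only [smul_eq_mul]
      push_cast
      ring
    rw [h5, dzb_dz_comb hU0 hU1]
    have h6 : (((1 - ν : ℝ)) : ℂ) * p2 ((p, q, 0), z) + ((ν : ℝ) : ℂ) * p2 ((p, q, 1), z) =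
        (1 - ν) • p2 ((p, q, 0), z) + ν • p2 ((p, q, 1), z) := by
      rw [Complex.real_smul, Complex.real_smul]
    rw [h6]
    refine le_trans ?_ (hsum C4 hC4 (by linarith))
    exact comb_le hν0 hνE hεi (hb4 _ hmem0) (hb4 _ hmem1)

end

end Pool.Agent.A54.Ef
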