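import Pool.Agent.Lib.MP_a54f13_nt.Ef.Spec
import Pool.Agent.Lib.MP_a54f13_nt.Av.Sm3

/-!
# Module Sm3: smoothing by Green's formula, explicit in the parameter
-/

set_option autoImplicit false

namespace Pool.Agent.A54.Ef

open MeasureTheory Filter Topology Set
open scoped ContDiff ComplexConjugate UpperHalfPlane MatrixGroups ENNReal
open Pool.Agent.A54.Half (H0 qq ff hh)
open Pool.Agent.A54.Av (Mat VV Vd msq bet NonSc Bump es Sm' MN RN GR qs qT dl yo Aa DD Fam wf XX2)

noncomputable section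

open Pool.Agent.A54.Av.Sm3M in
theorem stmtSm3 (h1 : Av.StmtSm1) (h2 : StmtSm2) : StmtSm3 := by
  intro η hη K hK hKH
  obtain ⟨B, hB0, hB⟩ := bump_bounds hη
  -- the neighbourhood of `K`
  obtain ⟨δ, hδ, hδH⟩ := hK.exists_cthickening_subset_open isOpen_H0' hKH
  obtain ⟨C0, hC00, hC0⟩ := h2 (Metric.cthickening δ K) hK.cthickening hδH
  refine ⟨10 * B * C0 + B * (C0 / 2 + 1), min δ 1, by positivity, lt_min hδ one_pos, ?_⟩
  intro ε hε hε1 z0 hz0 r hr hr0 γ hdet hε2 hVs κ hκ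
  have hC2 := hC0 ε hε hε1
  have hεi : 1 ≤ 1 / ε ^ 2 := by
    rw [le_div_iff₀ (by positivity)]
    nlinarith
  set C2 : ℝ := C0 / ε ^ 2 with hC2def
  have hC20 : 0 ≤ C2 := by positivity
  have hrδ : r ≤ δ := hr0.trans (min_le_left _ _)
  have hr1 : r ≤ 1 := hr0.trans (min_le_right _ _)
  have hball : Metric.closedBall z0 r ⊆ Metric.cthickening δ K :=
    (Metric.closedBall_subset_closedBall hrδ).trans (Metric.closedBall_subset_cthickening hz0 δ)
  have hballH : Metric.closedBall z0 r ⊆ H0 := hball.trans hδH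
  have hS : ∀ z ∈ Metric.closedBall z0 r, bet γ z ≠ 0 ∧
      ((γ.det : ℤ) : ℝ) + Vd γ z ≤ C2 * bet γ z ^ 2 ∧ |Aa γ z| ≤ C2 ∧
      ContDiffAt ℝ ∞ (Aa γ) z ∧ ‖fderiv ℝ (Aa γ) z‖ ≤ C2 ∧
      ‖dzb (dz (fun w => (Aa γ w : ℂ))) z‖ ≤ C2 := fun z hz =>
    hC2 z (hball hz) γ hdet hε2 (hVs z hz)
  have hballU : Metric.closedBall z0 r ⊆ U0 γ := fun z hz => ⟨hballH hz, (hS z hz).1⟩
  obtain ⟨χ, hχ, -, hχ1⟩ := exists_cutoff (isCompact_closedBall z0 r) (isOpen_U0 γ) hballU
  have hχn : ∀ z ∈ Metric.closedBall z0 r, ∀ᶠ w in 𝓝 z, χ w = 1 := fun z hz =>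
    eventually_nhdsSet_iff_forall.1 hχ1 z hz
  -- the functions
  set e : ℂ → ℂ := fun w => (es η r z0 w : ℂ) with he
  set A : ℂ → ℂ := fun w => (χ w : ℂ) * (Aa γ w : ℂ) with hA
  set G : ℂ → ℂ := fun w => (χ w : ℂ) * (Ga γ w : ℂ) with hG
  set u0 : ℂ → ℂ := fun w => Complex.exp (-(κ * (Vd γ w : ℝ))) with hu0
  set u : ℂ → ℂ := fun w => (χ w : ℂ) * u0 w with hu
  have se : ContDiff ℝ ∞ e := contDiff_es hη r z0
  have sA : ContDiff ℝ ∞ A := cut hχ fun z hz => contDiffAt_ofReal (contDiffAt_Aa hz.1 hz.2)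
  have sG : ContDiff ℝ ∞ G := cut hχ fun z hz => contDiffAt_ofReal (contDiffAt_Ga hz.1 hz.2)
  have su : ContDiff ℝ ∞ u := cut hχ fun z hz =>
    (contDiffAt_const.mul (contDiffAt_ofReal (contDiffAt_Vd hz.1))).neg.cexp
  have e0 : ∀ w, w ∉ Metric.closedBall z0 r → e w = 0 := fun w hw => by
    simp only [he]
    rw [es_zero hη hr hw]
    simp
  have tse : tsupport e ⊆ Metric.closedBall z0 r := by
    refine closure_minimal ?_ Metric.isClosed_closedBall
    intro w hw
    by_contra h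
    exact hw (e0 w h)
  have ce : HasCompactSupport e :=
    (isCompact_closedBall z0 r).of_isClosed_subset (isClosed_tsupport _) tse
  have hAn : ∀ z ∈ Metric.closedBall z0 r, A =ᶠ[𝓝 z] fun w => (Aa γ w : ℂ) := fun z hz => by
    filter_upwards [hχn z hz] with w hw
    simp [hA, hw]
  have hun : ∀ z ∈ Metric.closedBall z0 r, u =ᶠ[𝓝 z] u0 := fun z hz => by
    filter_upwards [hχn z hz] with w hw
    simp [hu, hw]
  have sw : ContDiff ℝ ∞ (fun z => e z * A z) := se.mul sA
  have cw : HasCompactSupport (fun z => e z * A z) := ce.mul_right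
  -- the formula for the integrand
  have hF : ∀ z, e z * DD κ ((γ.det : ℤ) : ℝ) (Vd γ z) =
      -((e z * A z) * dzb (dz u) z) - κ * (e z * G z * u z) := by
    intro z
    by_cases hz : z ∈ Metric.closedBall z0 r
    · rw [h1 γ κ z (hballH hz) (hS z hz).1, dzb_dz_congr (hun z hz)]
      have a1 : A z = (Aa γ z : ℂ) := (hAn z hz).self_of_nhds
      have a2 : u z = u0 z := (hun z hz).self_of_nhds
      have a3 : G z = (Ga γ z : ℂ) := by
        simp only [hG]
        rw [(hχn z hz).self_of_nhds]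
        simp
      rw [a1, a2, a3]
      simp only [hu0, Ga]
      ring
    · rw [e0 z hz]
      ring
  have i1 : Integrable (fun z => (e z * A z) * dzb (dz u) z) :=
    integrable_of_cpt (sw.continuous.mul (contDiff_dzb (contDiff_dz su)).continuous) cw.mul_right
  have i2 : Integrable (fun z => e z * G z * u z) :=
    integrable_of_cpt ((se.continuous.mul sG.continuous).mul su.continuous)
      (ce.mul_right (f' := G)).mul_right
  have hint : ∫ z, e z * DD κ ((γ.det : ℤ) : ℝ) (Vd γ z) =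
      -(∫ z, dz (dzb (fun z => e z * A z)) z * u z) - κ * ∫ z, e z * G z * u z := by
    simp_rw [hF]
    have i1' : Integrable (fun z => -((e z * A z) * dzb (dz u) z)) := i1.neg
    rw [integral_sub i1' (i2.const_mul κ), integral_neg, integral_const_mul,
      integral_mul_dzb sw (contDiff_dz su) (Or.inl cw),
      integral_mul_dz (contDiff_dzb sw) su (Or.inl (hasCompactSupport_dzb cw))]
    ring
  -- the function on the right
  have hVc : ContinuousOn (fun z => Real.exp (-(κ.re / 2 * Vd γ z))) (Metric.closedBall z0 r) := by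
    intro z hz
    have := (contDiffAt_Vd (γ := γ) (hballH hz)).continuousAt
    exact (ContinuousAt.rexp ((continuousAt_const.mul this).neg)).continuousWithinAt
  have hJi : IntegrableOn (fun z => Real.exp (-(κ.re / 2 * Vd γ z))) (Metric.closedBall z0 r) :=
    hVc.integrableOn_compact (isCompact_closedBall z0 r)
  set J : ℝ := ∫ z in Metric.closedBall z0 r, Real.exp (-(κ.re / 2 * Vd γ z)) with hJ
  have key : ∀ (f : ℂ → ℂ) (M : ℝ), (∀ z, z ∉ Metric.closedBall z0 r → f z = 0) →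
      (∀ z ∈ Metric.closedBall z0 r, ‖f z‖ ≤ M * Real.exp (-(κ.re / 2 * Vd γ z))) →
      ‖∫ z, f z‖ ≤ M * J := by
    intro f M hf0 hf
    have hi : Integrable ((Metric.closedBall z0 r).indicator
        (fun z => M * Real.exp (-(κ.re / 2 * Vd γ z)))) :=
      (integrable_indicator_iff Metric.isClosed_closedBall.measurableSet).2 (hJi.const_mul M)
    refine (norm_integral_le_of_norm_le hi (Eventually.of_forall fun z => ?_)).trans ?_
    · by_cases hz : z ∈ Metric.closedBall z0 r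
      · rw [indicator_of_mem hz]
        exact hf z hz
      · rw [indicator_of_notMem hz, hf0 z hz, norm_zero]
    · rw [integral_indicator Metric.isClosed_closedBall.measurableSet, integral_const_mul]
  have hu1 : ∀ z ∈ Metric.closedBall z0 r, ‖u z‖ = Real.exp (-(κ.re * Vd γ z)) := fun z hz => by
    rw [(hun z hz).self_of_nhds]
    simp only [hu0]
    rw [Complex.norm_exp]
    simp
  have hu2 : ∀ z ∈ Metric.closedBall z0 r, ‖u z‖ ≤ Real.exp (-(κ.re / 2 * Vd γ z)) := fun z hz => by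
    rw [hu1 z hz]
    refine Real.exp_le_exp.2 ?_
    nlinarith [Vd_nonneg γ z]
  have hr2 : 0 < (r ^ 2)⁻¹ := by positivity
  -- first term
  have t1 : ‖∫ z, dz (dzb (fun z => e z * A z)) z * u z‖ ≤
      (10 * B * C2 * ((r ^ 2)⁻¹ * (r ^ 2)⁻¹)) * J := by
    refine key _ _ (fun z hz => ?_) fun z hz => ?_
    · rw [dz_eq_zero_of_notMem, zero_mul]
      intro h
      have h' := tsupport_dzb h
      exact hz (tse (tsupport_mul_subset_left h'))
    · rw [norm_mul]
      refine mul_le_mul ?_ (hu2 z hz) (norm_nonneg _) (by positivity)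
      obtain ⟨b1, b2, b3, b4, b5⟩ := hB r hr hr1 z0 z
      obtain ⟨-, -, s3, s4, s5, s6⟩ := hS z hz
      have hexp : dz (dzb (fun z => e z * A z)) z = dz (dzb e) z * A z + dzb e z * dz A z +
          (dz e z * dzb A z + e z * dz (dzb A) z) := by
        have : dzb (fun z => e z * A z) = fun z => dzb e z * A z + e z * dzb A z :=
          funext fun z => dzb_mul se sA
        rw [this, dz_add ((contDiff_dzb se).mul sA) (se.mul (contDiff_dzb sA)),
          dz_mul (contDiff_dzb se) sA, dz_mul se (contDiff_dzb sA)]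
      have c1 : ‖A z‖ ≤ C2 := by
        rw [(hAn z hz).self_of_nhds, Complex.norm_real]
        exact s3
      have cd : DifferentiableAt ℝ (Aa γ) z := s4.differentiableAt (by simp)
      have cf : ‖fderiv ℝ A z‖ ≤ C2 := by
        rw [(hAn z hz).fderiv_eq]
        exact (norm_fderiv_ofReal cd).trans s5
      have c2 : ‖dz A z‖ ≤ 2 * C2 := norm_dz_le.trans (by linarith)
      have c3 : ‖dzb A z‖ ≤ 2 * C2 := norm_dzb_le.trans (by linarith)
      have c4 : ‖dz (dzb A) z‖ ≤ C2 := by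
        rw [dz_dzb_comm sA, dzb_dz_congr (hAn z hz)]
        exact s6
      set R : ℝ := (r ^ 2)⁻¹ * (r ^ 2)⁻¹ with hR
      have hR0 : 0 ≤ R := by positivity
      have m1 : ‖dz (dzb e) z * A z‖ ≤ B * R * C2 := by
        rw [norm_mul]
        exact mul_le_mul b5 c1 (norm_nonneg _) (by positivity)
      have m2 : ‖dzb e z * dz A z‖ ≤ B * R * (2 * C2) := by
        rw [norm_mul]
        exact mul_le_mul b4 c2 (norm_nonneg _) (by positivity)
      have m3 : ‖dz e z * dzb A z‖ ≤ B * R * (2 * C2) := by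
        rw [norm_mul]
        exact mul_le_mul b3 c3 (norm_nonneg _) (by positivity)
      have m4 : ‖e z * dz (dzb A) z‖ ≤ B * R * C2 := by
        rw [norm_mul]
        exact mul_le_mul b2 c4 (norm_nonneg _) (by positivity)
      rw [hexp]
      refine (norm_add_le _ _).trans ?_
      have n1 := norm_add_le (dz (dzb e) z * A z) (dzb e z * dz A z)
      have n2 := norm_add_le (dz e z * dzb A z) (e z * dz (dzb A) z)
      have hp : 0 ≤ B * R * C2 := by positivity
      nlinarith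
  -- second term
  have t2 : ‖∫ z, e z * G z * u z‖ ≤ (B * (C2 / 2 + 1) * (r ^ 2)⁻¹ * κ.re⁻¹) * J := by
    refine key _ _ (fun z hz => ?_) fun z hz => ?_
    · rw [e0 z hz]
      ring
    · obtain ⟨b1, b2, b3, b4, b5⟩ := hB r hr hr1 z0 z
      obtain ⟨s1, s2, -, -, -, -⟩ := hS z hz
      have hV := Vd_nonneg γ z
      have hn : (1 : ℝ) ≤ ((γ.det : ℤ) : ℝ) := by exact_mod_cast hdet
      have hG1 : ‖G z‖ ≤ Vd γ z * (C2 / 2 + 1) := by
        have a3 : G z = (Ga γ z : ℂ) := by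
          simp only [hG]
          rw [(hχn z hz).self_of_nhds]
          simp
        rw [a3, Complex.norm_real, Real.norm_eq_abs]
        unfold Ga
        rw [abs_mul, abs_of_nonneg hV]
        refine mul_le_mul_of_nonneg_left ?_ hV
        have hb2 : 0 < bet γ z ^ 2 := by positivity
        have hq1 : (((γ.det : ℤ) : ℝ) + Vd γ z) / (2 * bet γ z ^ 2) ≤ C2 / 2 := by
          rw [div_le_iff₀ (by positivity)]
          nlinarith
        have hq2 : 0 ≤ (((γ.det : ℤ) : ℝ) + Vd γ z) / (2 * bet γ z ^ 2) := by positivity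
        rw [abs_le]
        constructor <;> linarith
      rw [norm_mul, norm_mul, hu1 z hz]
      have hx := exp_bound hκ hV
      have hpos : 0 ≤ Real.exp (-(κ.re * Vd γ z)) := (Real.exp_pos _).le
      calc ‖e z‖ * ‖G z‖ * Real.exp (-(κ.re * Vd γ z))
          ≤ (B * (r ^ 2)⁻¹) * (Vd γ z * (C2 / 2 + 1)) * Real.exp (-(κ.re * Vd γ z)) := by
            refine mul_le_mul_of_nonneg_right ?_ hpos
            exact mul_le_mul b1 hG1 (norm_nonneg _) (by positivity)
        _ = (B * (C2 / 2 + 1) * (r ^ 2)⁻¹) * (Vd γ z * Real.exp (-(κ.re * Vd γ z))) := by ring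
        _ ≤ (B * (C2 / 2 + 1) * (r ^ 2)⁻¹) * (κ.re⁻¹ * Real.exp (-(κ.re / 2 * Vd γ z))) :=
            mul_le_mul_of_nonneg_left hx (by positivity)
        _ = _ := by ring
  have hJ0 : 0 ≤ J := by
    refine setIntegral_nonneg Metric.isClosed_closedBall.measurableSet fun z _ => ?_
    exact (Real.exp_pos _).le
  have hlast : ‖∫ z, e z * DD κ ((γ.det : ℤ) : ℝ) (Vd γ z)‖ ≤
      (10 * B * C2 * ((r ^ 2)⁻¹ * (r ^ 2)⁻¹)) * J +
        ‖κ‖ * ((B * (C2 / 2 + 1) * (r ^ 2)⁻¹ * κ.re⁻¹) * J) := by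
    rw [hint]
    refine (norm_sub_le _ _).trans ?_
    rw [norm_neg, norm_mul]
    exact add_le_add t1 (mul_le_mul_of_nonneg_left t2 (norm_nonneg _))
  refine hlast.trans ?_
  have hk0 : 0 ≤ ‖κ‖ / κ.re := by positivity
  have x1 : 0 ≤ 10 * B * C2 := by positivity
  have x2 : 0 ≤ B * (C2 / 2 + 1) := by positivity
  have y1 : 0 ≤ (r ^ 2)⁻¹ * J := by positivity
  have id1 : (10 * B * C2 * ((r ^ 2)⁻¹ * (r ^ 2)⁻¹)) * J +
        ‖κ‖ * ((B * (C2 / 2 + 1) * (r ^ 2)⁻¹ * κ.re⁻¹) * J) =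
      (10 * B * C2 * (r ^ 2)⁻¹ + B * (C2 / 2 + 1) * (‖κ‖ / κ.re)) * ((r ^ 2)⁻¹ * J) := by
    rw [div_eq_mul_inv]
    ring
  rw [id1]
  refine mul_le_mul_of_nonneg_right ?_ y1
  have hfin : 10 * B * C2 + B * (C2 / 2 + 1) ≤ (10 * B * C0 + B * (C0 / 2 + 1)) / ε ^ 2 := by
    have e1 : (10 * B * C0 + B * (C0 / 2 + 1)) / ε ^ 2 =
        10 * B * C2 + B * (C2 / 2 + 1 / ε ^ 2) := by
      rw [hC2def]
      field_simp
    rw [e1]
    have e2 : B * (C2 / 2 + 1) ≤ B * (C2 / 2 + 1 / ε ^ 2) :=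
      mul_le_mul_of_nonneg_left (by linarith) hB0
    linarith
  have hs0 : 0 ≤ (r ^ 2)⁻¹ + ‖κ‖ / κ.re := by positivity
  refine le_trans ?_ (mul_le_mul_of_nonneg_right hfin hs0)
  nlinarith [mul_nonneg x1 hk0, mul_nonneg x2 hr2.le]

end

end Pool.Agent.A54.Ef
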