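import Pool.Agent.Lib.MP_a54f13_nt.Av.Main
import Pool.Agent.Lib.MP_a54f13_nt.Sq.Main
import Pool.Agent.Lib.MP_a54f13_nt.Ef.Dvd
import Pool.Agent.Lib.MP_a54f13_nt.Ef.Dvq
import Pool.Agent.Lib.MP_a54f13_nt.Ef.Big
import Pool.Agent.Lib.MP_a54f13_nt.Ef.ChQ
import Pool.Agent.Lib.MP_a54f13_nt.Ef.Pig
import Pool.Agent.Lib.MP_a54f13_nt.Ef.CaA
import Pool.Agent.Lib.MP_a54f13_nt.Ef.CaB
import Pool.Agent.Lib.MP_a54f13_nt.Ef.CaC
import Pool.Agent.Lib.MP_a54f13_nt.Ef.Snd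
import Pool.Agent.Lib.MP_a54f13_nt.Ef.HkR
import Pool.Agent.Lib.MP_a54f13_nt.Ef.Cus
import Pool.Agent.Lib.MP_a54f13_nt.Ef.Sm2
import Pool.Agent.Lib.MP_a54f13_nt.Ef.Sm3
import Pool.Agent.Lib.MP_a54f13_nt.Ef.Far
import Pool.Agent.Lib.MP_a54f13_nt.Ef.GaD
import Pool.Agent.Lib.MP_a54f13_nt.Ef.G2
import Pool.Agent.Lib.MP_a54f13_nt.Ef.BP
import Pool.Agent.Lib.MP_a54f13_nt.Ef.F1
import Pool.Agent.Lib.MP_a54f13_nt.Ef.F2
import Pool.Agent.Lib.MP_a54f13_nt.Ef.Cnt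
import Pool.Agent.Lib.MP_a54f13_nt.Ef.Den
import Pool.Agent.Lib.MP_a54f13_nt.Ef.Fa1
import Pool.Agent.Lib.MP_a54f13_nt.Ef.Seq
import Pool.Agent.Lib.MP_a54f13_nt.Ef.Fin

/-!
Assembly of package `Ef`.
-/

set_option autoImplicit false

namespace Pool.Agent.A54.Ef

open MeasureTheory Filter Topology Set
open scoped ContDiff ComplexConjugate UpperHalfPlane MatrixGroups
open Pool.Agent.A54.Av

theorem pPig : StmtPig := stmtPig stmtChQ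

theorem pCaA : StmtCaA := stmtCaA stmtBig

theorem pCaB : StmtCaB := stmtCaB stmtDvd stmtDvq

theorem pCaC : StmtCaC := stmtCaC stmtDvd

theorem pSnd : StmtSnd := stmtSnd pPig pCaA pCaB pCaC

theorem pHkR : StmtHkR := stmtHkR pFo1 pRho pKBf

theorem pCus : StmtCus := stmtCus pSnd pHkR pFo1

theorem pSm3 : StmtSm3 := stmtSm3 stmtSm1 stmtSm2

theorem pFar : StmtFar := stmtFar pQF pGe

theorem pG2 : StmtG2 := stmtG2 pMb pW1 pW3 stmtAvg pSm3 pFar stmtGaD pQF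

theorem pBP : StmtBP := stmtBP pG1 pG2 stmtDl

theorem pF1 : StmtF1 := stmtF1 pAv1 (stmtGN pQF pGau) pBP

theorem pF2 : StmtF2 := stmtF2 pF1 pRS

theorem pCnt : StmtCnt := stmtCnt pF2 pOrth pRho pPar

theorem pSeq : StmtSeq := stmtSeq stmtFa1 stmtSDi Sq.pFlt pCus stmtVol Pl.stmtU1

theorem pFin : StmtFin := stmtFin pCnt stmtDen pSeq Sq.pFou Pl.stmtU2

end Pool.Agent.A54.Ef
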