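import Pool.Agent.Lib.MP_a54f13_nt.Ef.Spec
import Pool.Agent.Lib.MP_a54f13_nt.Av.Fin2

/-!
# Package `Ef`, module `Cnt`: the number of bad forms
-/

set_option autoImplicit false

namespace Pool.Agent.A54.Ef

open MeasureTheory Filter Topology Set
open scoped ContDiff ComplexConjugate UpperHalfPlane MatrixGroups ENNReal
open Pool.Agent.A54.Half (H0 qq ff hh)
open Pool.Agent.A54.Av (Mat VV Vd msq bet NonSc Bump es Sm' MN RN GR qs qT dl yo Aa DD Fam wf XX2)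

/-- **Cnt** the number of bad forms -/
theorem stmtCnt (hF2 : StmtF2) (hOrth : Av.StmtOrth) (hRho : Av.StmtRho) (hPar : Av.StmtPar) :
    StmtCnt := by
  classical
  intro η hη K hK hKH
  obtain ⟨C, T0, hC, hT0, h⟩ := hF2 η hη K hK hKH
  refine ⟨2 * C, T0, by positivity, hT0, fun T hT S hS => ?_⟩
  obtain ⟨S', hS'S, hS'c, hS'p⟩ := Av.Fin2M.exists_half (fun f : ℍ → ℝ => -f)
    (fun f => neg_neg f) S.card S le_rfl
  have ht : ∀ f : ℍ → ℝ, ∃ t : ℝ, f ∈ S' → IsHeckeMaass f t ∧ T / 2 < t ∧ t ≤ T ∧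
      T ^ (-(1 / 200 : ℝ)) < XX2 η (T ^ (-(51 / 100 : ℝ))) K f := by
    intro f
    by_cases hf : f ∈ S'
    · obtain ⟨t, ht⟩ := hS f (hS'S hf)
      exact ⟨t, fun _ => ht⟩
    · exact ⟨0, fun h => absurd h hf⟩
  choose tt htt using ht
  obtain ⟨ρ, hρ⟩ := Av.Fin2M.fam_of hOrth hRho hPar (A := S') (tt := tt)
    (fun f hf => (htt f hf).1) (fun f hf g hg => hS'p f hf g hg)
  have h1 := h T hT {f // f ∈ S'} (fun i => i.1) (fun i => tt i.1) ρ hρ
    (fun i => ⟨(htt i.1 i.2).2.1, (htt i.1 i.2).2.2.1⟩) (fun i => (htt i.1 i.2).2.2.2)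
  rw [Fintype.card_coe] at h1
  have h2 : (S.card : ℝ) ≤ 2 * (S'.card : ℝ) := by exact_mod_cast hS'c
  linarith

end Pool.Agent.A54.Ef
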