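import Pool.Agent.Lib.MP_a54f13_nt.Ef.SpecS

/-!
# `Ef`: the theorem of Soundararajan, iteration
-/

set_option autoImplicit false

namespace Pool.Agent.A54.Ef.SndM

open Pool.Agent.A54.Ef Filter Topology

theorem SF_mono (f : ℕ → ℝ) {a b : ℝ} (h : a ≤ b) : SF f a ≤ SF f b := by
  unfold SF
  apply Finset.sum_le_sum_of_subset_of_nonneg
  · exact Finset.Icc_subset_Icc_right (Nat.floor_mono h)
  · intro i _ _
    positivity

theorem SF_nonneg (f : ℕ → ℝ) (a : ℝ) : 0 ≤ SF f a := by
  unfold SF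
  exact Finset.sum_nonneg fun i _ => sq_nonneg _

theorem SF_zero (f : ℕ → ℝ) {a : ℝ} (h : a < 1) : SF f a = 0 := by
  unfold SF
  have : ⌊a⌋₊ = 0 := Nat.floor_eq_zero.mpr h
  rw [this]
  simp

theorem SF_div_le (f : ℕ → ℝ) {x z : ℝ} (hz : 1 ≤ z) : SF f (x / z) ≤ SF f x := by
  rcases lt_or_ge x 0 with hx | hx
  · have h1 : SF f (x / z) = 0 := by
      apply SF_zero
      have : x / z < 0 := div_neg_of_neg_of_pos hx (by linarith)
      linarith
    rw [h1]
    exact SF_nonneg f x
  · apply SF_mono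
    exact div_le_self hx hz

/-- start of the iteration -/
theorem ind_start (f : ℕ → ℝ) (x : ℝ) : Ind f x (max 1 x ^ (1 / 4 : ℝ)) := by
  intro z hz
  have hz0 : (0 : ℝ) < z := by linarith
  have hm1 : (1 : ℝ) ≤ max 1 x := le_max_left _ _
  have hm0 : (0 : ℝ) < max 1 x := by linarith
  have hS := SF_nonneg f x
  rcases le_or_gt z (max 1 x) with h | h
  · have h1 : z ^ (1 / 4 : ℝ) ≤ max 1 x ^ (1 / 4 : ℝ) := Real.rpow_le_rpow hz0.le h (by norm_num)
    have h2 : (1 : ℝ) ≤ max 1 x ^ (1 / 4 : ℝ) * z ^ (-(1 / 4 : ℝ)) := by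
      rw [Real.rpow_neg hz0.le, ← div_eq_mul_inv, one_le_div (by positivity)]
      exact h1
    calc SF f (x / z) ≤ SF f x := SF_div_le f hz
      _ = 1 * SF f x := by ring
      _ ≤ _ := mul_le_mul_of_nonneg_right h2 hS
  · have h1 : SF f (x / z) = 0 := by
      apply SF_zero
      rw [div_lt_one hz0]
      exact lt_of_le_of_lt (le_max_right _ _) h
    rw [h1]
    positivity

end Pool.Agent.A54.Ef.SndM

namespace Pool.Agent.A54.Ef

open Pool.Agent.A54.Ef.SndM Filter Topology

theorem stmtSnd (hPig : StmtPig) (hA : StmtCaA) (hB : StmtCaB) (hC : StmtCaC) : StmtSnd := by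
  obtain ⟨q1, hq1, hPig⟩ := hPig
  obtain ⟨CA', q2, hCA, hq2, hA⟩ := hA
  obtain ⟨CB', q3, hCB, hq3, hB⟩ := hB
  obtain ⟨CC', q4, hCC, hq4, hC⟩ := hC
  set q0 : ℝ := max (max q1 q2) (max q3 q4) with hq0
  have h1 : q1 ≤ q0 := le_trans (le_max_left _ _) (le_max_left _ _)
  have h2 : q2 ≤ q0 := le_trans (le_max_right _ _) (le_max_left _ _)
  have h3 : q3 ≤ q0 := le_trans (le_max_left _ _) (le_max_right _ _)
  have h4 : q4 ≤ q0 := le_trans (le_max_right _ _) (le_max_right _ _)
  have hq0' : 1 ≤ q0 := le_trans hq1 h1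
  set C : ℝ := max (max CA' CB') (max CC' ((16 * q0 ^ 2) ^ (1 / 4 : ℝ))) with hCdef
  have c1 : CA' ≤ C := le_trans (le_max_left _ _) (le_max_left _ _)
  have c2 : CB' ≤ C := le_trans (le_max_right _ _) (le_max_left _ _)
  have c3 : CC' ≤ C := le_trans (le_max_left _ _) (le_max_right _ _)
  have c4 : (16 * q0 ^ 2) ^ (1 / 4 : ℝ) ≤ C := le_trans (le_max_right _ _) (le_max_right _ _)
  have hC1 : 1 ≤ C := by
    refine le_trans ?_ c4
    apply Real.one_le_rpow _ (by norm_num)
    nlinarith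
  refine ⟨4 * C, by linarith, ?_⟩
  intro f x y hf hy
  -- one step
  have step : ∀ M : ℝ, 1 ≤ M → Ind f x M → Ind f x (C + 3 / 4 * M) := by
    intro M hM hI z hz
    have hz0 : (0 : ℝ) < z := by linarith
    have hS := SF_nonneg f x
    have hzr : 0 < z ^ (-(1 / 4 : ℝ)) := by positivity
    rcases le_or_gt (16 * q0 ^ 2) z with h | h
    · set q : ℝ := √z / 4 with hq
      have hqz : 16 * q ^ 2 = z := by
        rw [hq, div_pow, Real.sq_sqrt hz0.le]
        ring
      have hqpos : 0 ≤ q := by rw [hq]; positivity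
      have hqq0 : q0 ≤ q := by
        have : q0 ^ 2 ≤ q ^ 2 := by nlinarith
        exact (sq_le_sq₀ (by linarith) hqpos).mp this
      rcases hPig f q (by linarith) with hcase | hcase | hcase
      · have := hA f q x hf (by linarith) hcase
        rw [hqz] at this
        refine le_trans this ?_
        apply mul_le_mul_of_nonneg_right _ hS
        apply mul_le_mul_of_nonneg_right _ hzr.le
        linarith
      · have := hB f q x M hf (by linarith) hM hI hcase
        rw [hqz] at this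
        refine le_trans this ?_
        apply mul_le_mul_of_nonneg_right _ hS
        apply mul_le_mul_of_nonneg_right _ hzr.le
        linarith
      · have := hC f q x M hf (by linarith) hM hI hcase
        rw [hqz] at this
        refine le_trans this ?_
        apply mul_le_mul_of_nonneg_right _ hS
        apply mul_le_mul_of_nonneg_right _ hzr.le
        linarith
    · have h5 : z ^ (1 / 4 : ℝ) ≤ C := le_trans (Real.rpow_le_rpow hz0.le h.le (by norm_num)) c4
      have h6 : (1 : ℝ) ≤ (C + 3 / 4 * M) * z ^ (-(1 / 4 : ℝ)) := by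
        rw [Real.rpow_neg hz0.le, ← div_eq_mul_inv, one_le_div (by positivity)]
        linarith
      calc SF f (x / z) ≤ SF f x := SF_div_le f hz
        _ = 1 * SF f x := by ring
        _ ≤ _ := mul_le_mul_of_nonneg_right h6 hS
  -- iteration
  have hit : ∀ j : ℕ, Ind f x (4 * C + (3 / 4) ^ j * (max 1 x ^ (1 / 4 : ℝ))) := by
    intro j
    induction j with
    | zero =>
      intro z hz
      refine le_trans (ind_start f x z hz) ?_
      apply mul_le_mul_of_nonneg_right _ (SF_nonneg f x)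
      apply mul_le_mul_of_nonneg_right _ (by positivity)
      simp
      linarith
    | succ j ih =>
      have hm0 : (0 : ℝ) ≤ max 1 x ^ (1 / 4 : ℝ) := by positivity
      have hge : 1 ≤ 4 * C + (3 / 4) ^ j * (max 1 x ^ (1 / 4 : ℝ)) := by
        have : (0 : ℝ) ≤ (3 / 4) ^ j * (max 1 x ^ (1 / 4 : ℝ)) := by positivity
        linarith
      have := step _ hge ih
      have heq : C + 3 / 4 * (4 * C + (3 / 4) ^ j * (max 1 x ^ (1 / 4 : ℝ))) =
          4 * C + (3 / 4) ^ (j + 1) * (max 1 x ^ (1 / 4 : ℝ)) := by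
        rw [pow_succ]
        ring
      rw [heq] at this
      exact this
  have hlim : Tendsto (fun j : ℕ => (4 * C + (3 / 4) ^ j * (max 1 x ^ (1 / 4 : ℝ))) *
      y ^ (-(1 / 4 : ℝ)) * SF f x) atTop
      (𝓝 ((4 * C + 0 * (max 1 x ^ (1 / 4 : ℝ))) * y ^ (-(1 / 4 : ℝ)) * SF f x)) := by
    have h0 : Tendsto (fun j : ℕ => ((3 : ℝ) / 4) ^ j) atTop (𝓝 0) :=
      tendsto_pow_atTop_nhds_zero_of_lt_one (by norm_num) (by norm_num)
    exact (((h0.mul_const _).const_add _).mul_const _).mul_const _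
  rw [zero_mul, add_zero] at hlim
  exact ge_of_tendsto' hlim fun j => hit j y hy

end Pool.Agent.A54.Ef
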