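import Pool.Agent.Lib.MP_a54f13_nt.Ef.SpecS
import Pool.Agent.Lib.MP_a54f13_nt.Sq.Spec

/-!
# Package `Ef`: an exceptional set of size `T^(19/10)`

GOAL (helper54): there is a set `E` of forms with at most `C T^(19/10)` elements with `t ≤ T` (out of about `T²/12`), such that
for every sequence of Hecke–Maass forms outside `E` the first four moments are Gaussian. It replaces the
`o(T²)` of package `Av`. The point: by package `Sq` it is enough to know the variance of the local mass at the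
scale `T^(-1/2-δ)`, where it has a power saving.

The statements `Sm2`, `Sm3`, `Far`, `G2`, `BP`, `F1`, `F2` are effective versions of the statements of the same name
of package `Av` (`Av/SpecB.lean`, `Av/SpecF.lean`); their proofs are obtained by adapting the files `Av/<Name>.lean`
(COPY the file and change the constants). Notation as in `Av/SpecB.lean`.

Every module: file `Pool/Agent/Lib/MP_a54f13_nt/Ef/<Name>.lean`, importing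
`Pool.Agent.Lib.MP_a54f13_nt.Ef.Spec` and what is named in the task, private names in
`namespace Pool.Agent.A54.Ef.<Name>M`, final theorem `Pool.Agent.A54.Ef.stmt<Name>`; the other Props used
are hypotheses of the theorem.
-/

set_option autoImplicit false

namespace Pool.Agent.A54.Ef

open MeasureTheory Filter Topology Set
open scoped ContDiff ComplexConjugate UpperHalfPlane MatrixGroups ENNReal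
open Pool.Agent.A54.Half (H0 qq ff hh)
open Pool.Agent.A54.Pl (Ed)
open Pool.Agent.A54.Av (Mat VV Vd msq bet NonSc Bump es Sm' MN RN GR qs qT dl yo Aa DD Fam wf XX2)
open Pool.Agent.A54.Sq (TestP)

noncomputable section

/-! ### The geometric side -/

/-- **Sm2** bounds for the amplitude, explicit in `ε` (model `Av/Sm2.lean`; uses `Av.StmtQF` if needed). Proof. By `QF` (6)
`n + V = β² + s²/4`, `s = a + d` constant, so `Aa = y²/4 + (s²/16) (y/β)²` and `y/β = 2y²/F`, `F = c|z|² - (a-d)x - b`. On `K`: `|N| = 2y√V ≤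
|c|y²/2`, so `|a - d|, |b| ≤ C|c|`, `|β| ≥ |c|y - |c|y/4`, `|F| = 2y|β| ≥ (3/2)|c|y²`, and the derivatives of `F` are `≤ C|c|`, so
`y/β` and its derivatives are `≤ C/|c|`. And `s² ≤ 4(n + V) ≤ C (ε⁻² + 1) c²`. (Also `(n+V)/β² = 1 + s²/(4β²) ≤ C ε⁻²`.) -/
def StmtSm2 : Prop := ∀ K : Set ℂ, IsCompact K → K ⊆ H0 → ∃ C : ℝ, 0 ≤ C ∧ ∀ ε : ℝ, 0 < ε → ε ≤ 1 →
  ∀ z ∈ K, ∀ γ : Mat, 1 ≤ γ.det → ε ^ 2 * ((γ.det : ℤ) : ℝ) ≤ ((γ 1 0 : ℤ) : ℝ) ^ 2 →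
    Vd γ z ≤ (((γ 1 0 : ℤ) : ℝ) * z.im / 4) ^ 2 →
    bet γ z ≠ 0 ∧ ((γ.det : ℤ) : ℝ) + Vd γ z ≤ C / ε ^ 2 * bet γ z ^ 2 ∧ |Aa γ z| ≤ C / ε ^ 2 ∧
    ContDiffAt ℝ ∞ (Aa γ) z ∧ ‖fderiv ℝ (Aa γ) z‖ ≤ C / ε ^ 2 ∧
    ‖Pool.Agent.A54.dzb (Pool.Agent.A54.dz (fun w => (Aa γ w : ℂ))) z‖ ≤ C / ε ^ 2

/-- **Sm3** smoothing, explicit in `ε` (model `Av/Sm3.lean`; uses `Av.StmtSm1`, `Sm2`). The constants `C, r0` do not depend on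
`ε`. -/
def StmtSm3 : Prop := ∀ η : ℂ → ℝ, Bump η → ∀ K : Set ℂ, IsCompact K → K ⊆ H0 →
  ∃ C r0 : ℝ, 0 ≤ C ∧ 0 < r0 ∧ ∀ ε : ℝ, 0 < ε → ε ≤ 1 → ∀ z0 ∈ K, ∀ r : ℝ, 0 < r → r ≤ r0 →
    ∀ γ : Mat, 1 ≤ γ.det → ε ^ 2 * ((γ.det : ℤ) : ℝ) ≤ ((γ 1 0 : ℤ) : ℝ) ^ 2 →
    (∀ z ∈ Metric.closedBall z0 r, Vd γ z ≤ (((γ 1 0 : ℤ) : ℝ) * z.im / 4) ^ 2) →
    ∀ κ : ℂ, 0 < κ.re →
      ‖∫ z, (es η r z0 z : ℂ) * DD κ ((γ.det : ℤ) : ℝ) (Vd γ z)‖ ≤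
        C / ε ^ 2 * ((r ^ 2)⁻¹ + ‖κ‖ / κ.re) * ((r ^ 2)⁻¹ *
          ∫ z in Metric.closedBall z0 r, Real.exp (-(κ.re / 2 * Vd γ z)))

/-- `c² + (a-d)² + b² + ε² (a+d)²` -/
def qe (ε : ℝ) (γ : Mat) : ℝ := ((γ 1 0 : ℤ) : ℝ) ^ 2 + ((γ 0 0 - γ 1 1 : ℤ) : ℝ) ^ 2 +
  ((γ 0 1 : ℤ) : ℝ) ^ 2 + ε ^ 2 * ((γ 0 0 + γ 1 1 : ℤ) : ℝ) ^ 2

/-- **Far** the other matrices, explicit in `ε` (model `Av/Far.lean`; uses `Av.StmtQF`, `Av.StmtGe`). Proof. At the given point `z1`: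
`c² ≤ 16 V(z1)/im²`, `n ≤ c²/ε²`, so by `QF` (4) `|γ|² ≤ C (n + 2V(z1)) ≤ C ε⁻² V(z1)`. `√V_γ` is Lipschitz near `K` with constant
`C|γ|`, so for `z` in the disc `√V(z) ≥ √V(z1) - 2C|γ|r ≥ √V(z1) (1 - C' r/ε) ≥ √V(z1)/2` if `r ≤ r0 ε`. So `V(z1) ≤ 4V(z)`,
`c² ≤ C V(z)`, `(a+d)² ≤ 4(n + V(z1)) ≤ C ε⁻² V(z)` (`QF` (6)), and by `Ge` (1), (2) `|a - d|, |b| ≤ C(|c| + √V(z)) ≤ C √V(z)`. -/
def StmtFar : Prop := ∀ K : Set ℂ, IsCompact K → K ⊆ H0 → ∃ c0 r0 : ℝ, 0 < c0 ∧ 0 < r0 ∧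
  ∀ ε : ℝ, 0 < ε → ε ≤ 1 → ∀ z0 ∈ K, ∀ r : ℝ, 0 < r → r ≤ r0 * ε → ∀ γ : Mat, 1 ≤ γ.det →
    ε ^ 2 * ((γ.det : ℤ) : ℝ) ≤ ((γ 1 0 : ℤ) : ℝ) ^ 2 →
    (∃ z ∈ Metric.closedBall z0 r, (((γ 1 0 : ℤ) : ℝ) * z.im / 4) ^ 2 < Vd γ z) →
    ∀ z ∈ Metric.closedBall z0 r, c0 * qe ε γ ≤ Vd γ z

/-- **GaD** Gaussian sum. Proof. `γ ↦ (c, a-d, b, a+d)` is injective into `ℤ⁴`; `∑_{n ∈ ℤ} e^{-c0 n²} < ∞` and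
`∑_{n ∈ ℤ} e^{-c0 ε² n²} ≤ C/ε` for `0 < ε ≤ 1` (compare with the integral, or use the first part of `Av/Gau.lean`). -/
def StmtGaD : Prop := ∀ c0 : ℝ, 0 < c0 → ∃ C : ℝ, 0 ≤ C ∧ ∀ ε : ℝ, 0 < ε → ε ≤ 1 →
  (Summable fun γ : Mat => Real.exp (-(c0 * qe ε γ))) ∧
  ∑' γ : Mat, Real.exp (-(c0 * qe ε γ)) ≤ C / ε

/-- **G2** refined bound, explicit (model `Av/G2.lean`: the same proof, `gG` replaced by `exp(-(π/2) c0 qe ε γ)`; uses `Av.StmtMb`,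
`Av.StmtW1`, `Av.StmtW3`, `Av.StmtAvg`, `Sm3`, `Far`, `GaD`, `Av.StmtQF`). Proof. Parts (A), (B) as in `Av`: `≤ C T⁶ (y₁^{3/4} +
y₁^{1/2} + √ε)`, `y₁ ≤ Y/(T²δ0²) ≤ 1`. (C): the term of `γ` is `≤ (y/δ) C ε⁻² (r⁻² + 2/δ0) r⁻² ∫_disc WW`, contribution
`≤ C (y/δ)² ε⁻⁴ (r⁻² + 2/δ0)²/(y y₁) = C T² ε⁻⁴ (r⁻² + 2/δ0)²`. (D): `≤ C T⁴ (y/δ)² (∑_γ e^{-(π/2) c0 qe})² ≤ C T⁴ Y² δ0⁻² ε⁻²`. -/
def StmtG2 : Prop := ∀ η : ℂ → ℝ, Bump η → ∀ K : Set ℂ, IsCompact K → K ⊆ H0 → ∃ C r0 : ℝ, 0 ≤ C ∧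
  0 < r0 ∧ ∀ ε Y δ0 r T y θ : ℝ, 0 < ε → ε ≤ 1 → 1 ≤ Y → 0 < δ0 → δ0 ≤ 1 → 0 < r → r ≤ r0 * ε →
    2 ≤ T → √Y / δ0 ≤ T → 1 / 2 ≤ y → y ≤ Y → |θ| ≤ Real.pi → δ0 ≤ dl T θ →
      ∫⁻ z0 in K, ∑' n : ℤ, ‖MN (es η r z0) (qs (qT T) θ) y n‖ₑ ^ 2 ≤
        ENNReal.ofReal (C * T ^ 6 * (√ε + √Y / (δ0 * T) + (ε ^ 4)⁻¹ * ((r * T) ^ 4)⁻¹ +
          (ε ^ 4)⁻¹ * (δ0 ^ 2)⁻¹ * (T ^ 4)⁻¹ + Y ^ 2 * (δ0 ^ 2)⁻¹ * (ε ^ 2)⁻¹ * (T ^ 2)⁻¹))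

/-- **BP** (model `Av/BP.lean`; uses `Av.StmtG1`, `G2`, `Av.StmtDl`). Proof. As in `Av` with `r = T^{-51/100}`, `ε = T^{-42/100}`,
`Y = T^{21/100}`, `δ0 = T^{-21/100}` (for large `T`, `r ≤ r0 ε`): the terms of `G2` are `T^{-0.21}`, `T^{-0.685}`, `T^{1.68-1.96}`,
`T^{1.68+0.42-4}`, `T^{0.42+0.42+0.84-2}`, and the part `{y ≥ Y} ∪ {δ < δ0}` gives `C T⁶ (1/Y + δ0 + T^{-1/2})`. -/
def StmtBP : Prop := ∀ η : ℂ → ℝ, Bump η → ∀ K : Set ℂ, IsCompact K → K ⊆ H0 →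
  ∃ C T0 : ℝ, 0 ≤ C ∧ 2 ≤ T0 ∧ ∀ T : ℝ, T0 ≤ T →
    ∫⁻ z0 in K, RN (qT T) (es η (T ^ (-(51 / 100 : ℝ))) z0) ≤
      ENNReal.ofReal (C * T ^ (6 - 21 / 100 : ℝ))

/-! ### Averages over the forms -/

/-- **F1** (model `Av/F1.lean`; uses `Av.StmtAv1`, `Av.StmtGN`, `BP`). -/
def StmtF1 : Prop := ∀ η : ℂ → ℝ, Bump η → ∀ K : Set ℂ, IsCompact K → K ⊆ H0 →
  ∃ C T0 : ℝ, 0 ≤ C ∧ 2 ≤ T0 ∧ ∀ T : ℝ, T0 ≤ T →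
    ∀ (ι : Type) [Fintype ι] (F : ι → ℍ → ℝ) (t : ι → ℝ) (ρ : ι → ℂ), Fam ι F t ρ →
      (∀ i, T / 2 < t i ∧ t i ≤ T) →
      ∫⁻ z in K, ∫⁻ z' in K, ENNReal.ofReal (∑ i, wf (t i) (ρ i) *
        (Sm' η (T ^ (-(51 / 100 : ℝ))) (fun w => ext (F i) w ^ 2) z -
          Sm' η (T ^ (-(51 / 100 : ℝ))) (fun w => ext (F i) w ^ 2) z') ^ 2) ≤
          ENNReal.ofReal (C * T ^ (2 - 21 / 100 : ℝ))

/-- **F2** (model `Av/F2.lean`; uses `F1`, `Av.StmtRS`, `Av.StmtRho`). Proof. `∑_i w_i T^{-1/200} ≤ ∑_i w_i X_i ≤ C T^{2-0.21}` and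
`∑ w_i⁻¹ ≤ 576 T²`, so `(#ι)² ≤ C T^{4-0.21+0.005}`, `#ι ≤ C T^{2-0.1025} = C T^{759/400}`. -/
def StmtF2 : Prop := ∀ η : ℂ → ℝ, Bump η → ∀ K : Set ℂ, IsCompact K → K ⊆ H0 →
  ∃ C T0 : ℝ, 0 ≤ C ∧ 2 ≤ T0 ∧ ∀ T : ℝ, T0 ≤ T →
    ∀ (ι : Type) [Fintype ι] (F : ι → ℍ → ℝ) (t : ι → ℝ) (ρ : ι → ℂ), Fam ι F t ρ →
      (∀ i, T / 2 < t i ∧ t i ≤ T) →
      (∀ i, T ^ (-(1 / 200 : ℝ)) < XX2 η (T ^ (-(51 / 100 : ℝ))) K (F i)) →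
        (Fintype.card ι : ℝ) ≤ C * T ^ (759 / 400 : ℝ)

/-- **Cnt** the number of bad forms (uses `F2`, `Av.StmtOrth`, `Av.StmtRho`, `Av.StmtPar`; model: the first part of `Av/Fin2.lean`, `Av/Fin.lean`).
Proof. Choose from every pair `f, -f` in `S` one element (`XX2` is the same): a subset with at least half of the elements, which is
a family `Fam` by `Orth`, `Par`, `Rho`. -/
def StmtCnt : Prop := ∀ η : ℂ → ℝ, Bump η → ∀ K : Set ℂ, IsCompact K → K ⊆ H0 →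
  ∃ C T0 : ℝ, 0 ≤ C ∧ 2 ≤ T0 ∧ ∀ T : ℝ, T0 ≤ T → ∀ S : Finset (ℍ → ℝ),
    (∀ f ∈ S, ∃ t : ℝ, IsHeckeMaass f t ∧ T / 2 < t ∧ t ≤ T ∧
      T ^ (-(1 / 200 : ℝ)) < XX2 η (T ^ (-(51 / 100 : ℝ))) K f) →
        (S.card : ℝ) ≤ C * T ^ (759 / 400 : ℝ)

/-- **Den** one exceptional set (abstract; model `Av/Dens.lean`, which has the facts on dyadic `T`). Proof. `T = 2^m`. For `j` let `C_j, T_j` be the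
constants of the hypothesis. `J(m)` = the largest `J ≤ m` with `T_j ≤ 2^m` and `C_j (m+1) ≤ 2^{m/1000}` for all `j < J`; `J(m) → ∞`.
`A_m = {f : ∃ t, P f t, 2^m/2 < t ≤ 2^m, ∃ j < J(m), B j f 2^m}`, `E = ⋃_m A_m`. Every finite subset of `A_m` has at most
`∑_{j<J(m)} C_j 2^{(759/400)m} ≤ 2^{(759/400 + 1/1000)m}` elements, so `A_m` is finite with this bound; `f ∈ E` with `t ≤ T` (`T ≥ 1`) is in `A_m` with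
`2^m ≤ 2T`; geometric sum, `759/400 + 1/1000 ≤ 19/10`. For a sequence outside `E` let `T i = 2^{m_i}` with `2^{m_i}/2 < t i ≤ 2^{m_i}` when
`t i ≥ 1`. -/
def StmtDen : Prop := ∀ (F : Type) (P : F → ℝ → Prop) (B : ℕ → F → ℝ → Prop),
  (∀ f t t', P f t → P f t' → t = t') →
  (∀ j : ℕ, ∃ C T0 : ℝ, 0 ≤ C ∧ 2 ≤ T0 ∧ ∀ T : ℝ, T0 ≤ T → ∀ S : Finset F,
    (∀ f ∈ S, ∃ t : ℝ, P f t ∧ T / 2 < t ∧ t ≤ T ∧ B j f T) →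
      (S.card : ℝ) ≤ C * T ^ (759 / 400 : ℝ)) →
  ∃ E : Set F, (∃ C : ℝ, ∀ T : ℝ, 1 ≤ T → {f | f ∈ E ∧ ∃ t : ℝ, t ≤ T ∧ P f t}.Finite ∧
    ({f | f ∈ E ∧ ∃ t : ℝ, t ≤ T ∧ P f t}.ncard : ℝ) ≤ C * T ^ (19 / 10 : ℝ)) ∧
  ∀ (f : ℕ → F) (t : ℕ → ℝ), (∀ i, P (f i) (t i)) → (∀ i, f i ∉ E) → Tendsto t atTop atTop →
    ∃ T : ℕ → ℝ, (∀ᶠ i in atTop, T i / 2 < t i ∧ t i ≤ T i) ∧
      ∀ j : ℕ, ∀ᶠ i in atTop, ¬B j (f i) (T i)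

/-! ### Sequences -/

/-- **Fa1** the mean value (model `Av/Fa1.lean`, with radii `r i → 0` instead of `R/T i`). -/
def StmtFa1 : Prop := ∀ η : ℂ → ℝ, Bump η → ∀ (F : ℕ → ℂ → ℝ) (r : ℕ → ℝ),
  (∀ i, ContinuousOn (F i) H0) → (∀ i z, 0 ≤ F i z) → (∀ i, 0 < r i) → Tendsto r atTop (𝓝 0) →
  (∀ K : Set ℂ, IsCompact K → K ⊆ H0 → ∃ B : ℝ, ∀ i, ∫ z in K, F i z ≤ B) →
  (∀ K : Set ℂ, IsCompact K → K ⊆ H0 → Tendsto (fun i =>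
    ∫ z in K, ∫ z' in K, (Sm' η (r i) (F i) z - Sm' η (r i) (F i) z') ^ 2) atTop (𝓝 0)) →
  ∀ (φ0 : ℂ → ℝ) (c : ℝ), TestP H0 φ0 → ∫ z, φ0 z = 1 →
    Tendsto (fun i => ∫ z, φ0 z * F i z) atTop (𝓝 c) →
  ∀ φ : ℂ → ℝ, TestP H0 φ →
    Tendsto (fun i => ∫ z, φ z * (Sm' η (r i) (F i) z - c) ^ 2) atTop (𝓝 0) ∧
    Tendsto (fun i => ∫ z, φ z * F i z) atTop (𝓝 (c * ∫ z, φ z))

/-- **Seq** sequences of good forms (uses `Fa1`, `Av.StmtSDi`, `Sq.StmtFlt`, `Cus`, `Av.StmtVol`, `Pl.StmtU1`; model `Av/Fd2.lean`, `Av/Fd.lean`). Proof. Subsequences: it is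
enough that every subsequence has a further subsequence with the two limits of `CondH` (for a fixed test function). Let `F_i = (ext f_i)²`,
`φ0 ∈ TestP H0`, `∫ φ0 = 1`; local masses are bounded (see `Fd`), so along a subsequence `∫ φ0 F_i → c ≥ 0`. `Fa1` with
`r_i = T_i^{-51/100}`: `∫ φ (S_i - c)² → 0`, `∫ φ F_i → c ∫ φ` for all `φ ∈ TestP H0`. As in `Fd2`: `c ≤ 1` (test functions in `fdo`), and `c ≥ 1` by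
`Cus` (`C Y^{-1/4} ≤ κ` for large `Y`); so `c = 1`. `Av.StmtSDi` with `r' = r_i`, `ρ_i = T_i^{-101/200}` (`A0 r_i ≤ ρ_i ≤ r0` for large `i`, `r_i/ρ_i → 0`):
`∫ φ (Ed ρ_i F_i - 1)² → 0`. `ρ_i ≤ t_i^{-(1/2+1/200)}` as `T_i ≥ t_i` (for large `i`; shift the index). `Sq.StmtFlt` with `a = 1`, `c₀ = 1` gives the
limits on the plane; `CondH` by `Half.int_eq`/`IntLap.int_gen` (replace `φ` by `φ y⁻²`). -/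
def StmtSeq : Prop := ∀ η : ℂ → ℝ, Bump η → ∀ (f : ℕ → ℍ → ℝ) (t T : ℕ → ℝ),
  (∀ i, IsHeckeMaass (f i) (t i)) → Tendsto t atTop atTop →
  (∀ᶠ i in atTop, T i / 2 < t i ∧ t i ≤ T i) →
  (∀ K : Set ℂ, IsCompact K → K ⊆ H0 →
    Tendsto (fun i => XX2 η (T i ^ (-(51 / 100 : ℝ))) K (f i)) atTop (𝓝 0)) → Pl.CondH f

/-- **Fin** the main theorem (uses `Cnt`, `Den`, `Seq`, `Sq.StmtFou`, `Pl.StmtU2` with `Pl.condA_of_condH` of `Pl/Fin.lean`). Proof. Let `K_j` be a compact exhaustion of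
`H0` (see `Av/Fin2.lean`), `η` a `Bump`, `B j f T :⇔ T^{-1/200} < XX2 η (T^{-51/100}) K_j f`, `P = IsHeckeMaass` (unique `t`: `Av/Fam.lean`, `unique`). `Cnt` gives
the hypothesis of `Den`. For a sequence outside `E`, `XX2 η (T_i^{-51/100}) K_j f_i ≤ T_i^{-1/200} → 0` for all `j`, hence for all compact `K` (monotone). `Seq`,
`Pl.condA_of_condH`, `Fou`. -/
def StmtFin : Prop := ∃ (E : Set (ℍ → ℝ)) (C : ℝ),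
  (∀ T : ℝ, 1 ≤ T → {f | f ∈ E ∧ ∃ t : ℝ, t ≤ T ∧ IsHeckeMaass f t}.Finite ∧
    ({f | f ∈ E ∧ ∃ t : ℝ, t ≤ T ∧ IsHeckeMaass f t}.ncard : ℝ) ≤ C * T ^ (19 / 10 : ℝ)) ∧
  ∀ (f : ℕ → ℍ → ℝ) (t : ℕ → ℝ), (∀ i, IsHeckeMaass (f i) (t i)) → (∀ i, f i ∉ E) →
    Tendsto t atTop atTop → ∀ ψ : ℍ → ℝ, TestX ψ → ∀ n : ℕ, 1 ≤ n → n ≤ 4 →
      Tendsto (fun i => ∫ z in ModularGroup.fdo, ψ z * f i z ^ n) atTop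
        (𝓝 (1 / √(2 * Real.pi) * (∫ x : ℝ, x ^ n * Real.exp (-x ^ 2 / 2)) *
          ∫ z in ModularGroup.fdo, ψ z))

end

end Pool.Agent.A54.Ef
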